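import Pool.Agent.H71.MKC.Asc
import Pool.Agent.H26.PM.Hsx

/-!
# Plan M: the assembly, with the determinants, the tube and the affine labels inserted

`asm_N`: `asm` with `DetS`, `HypS`, `TubRS`, `SixM` proved; there remain `PlnMS`, `CasM` and the
threshold of the affine labels of the height.
-/

set_option autoImplicit false

namespace Pool.MKC

open Finset Real
open Pool.Agent.H49.Ent Pool.Agent.H32.Dense Pool.STK Pool.KA Pool.KSAT Pool.K2S Pool.PB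
  Pool.STAT Pool.GEN Pool.M3F Pool.KM7 Pool.S6C Pool.JPN Pool.JPR
open Pool.PM (PDat PlnM Thk nfr TubRS DetS HypS CasM SixM PlnMS pA)

/-- **The assembly**, `M1`, `M2`, `M3` inserted. `C4`: the constant of `CasM`. -/
theorem asm_N (C4 : ℕ) : ∃ C : ℕ, 1 ≤ C ∧ ∀ {m : ℕ}, KP 3 → CasM m C4 → ∀ {S : PCl m}, S.Ne →
    ∀ {c : ℕ → Fin m} {w₀ w₁ : ℝ}, w₀ ≤ w₁ → w₁ ≤ 1 → Pool.GRW.TmWn S w₀ → ∀ {b : ℝ},
    ExvY S w₁ (fun J F ω (i : Fin 3) => F.X J ω (c i)) b →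
    (∀ j, j ≠ c 3 → ∃ i : Fin 3, c i = j) → ∀ {r : ℝ → ℝ}, Pool.ALL.RateOf S (c 3) r →
    ∀ {β : ℕ → ℝ}, 0 ≤ β 3 → (∀ h₀ : ℝ, 0 < h₀ → Bas S (fun J F A => ∀ P : ℕ,
      (β 3 + h₀) * J ≤ P → P ≤ J → ¬ Pool.PM26.Afl F c 3 ⌊w₀ * J⌋₊ P A)) →
    ∀ {y P1 sg mv cc Cp : ℝ}, 2 ≤ Cp →
    PlnMS S c β w₀ w₁ y P1 sg mv cc (1 / (100 * ((C : ℝ) + 10))) Cp →
    ∑ i ∈ range 3, (1 - β i) - mv - y ≤ b → 0 ≤ y → 0 ≤ sg → P1 + sg ≤ 1 → cc ≤ P1 + sg →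
    β 3 ≤ P1 → ∀ {s θ : ℝ}, 0 < s → 16 * (C + 1) * (2 * Cp + 5) * s ≤ θ → Cp * y ≤ s →
    Cp * (s + θ) ≤ mv → Cp * (s + θ) ≤ cc →
    nfr r (β 3) P1 ≤ 64 * (C + 1) * (2 * Cp + 5) * (θ + √(θ * (P1 - β 3))) := by
  obtain ⟨C, hC, key⟩ := asm_M 24 C4
  refine ⟨C, hC, ?_⟩
  intro m hKP hcas S hne c w₀ w₁ hw hw1 htm b hex hN r hr β hβ hno y P1 sg mv cc Cp hCp hPl hb hy hsg
    hPs hcc hP1 s θ hs hθs hys hmv hc
  have hpos : Bas S (fun _ F A => 0 < Pe F.p A) := by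
    refine (full_E (k := 3) hKP (hw.trans hw1) htm hex (Φ := fun _ _ _ => True)
      ⟨1, one_pos, 0, fun _ _ _ _ _ => trivial⟩ (κ := 1) one_pos le_rfl
      (one_pos : (0 : ℝ) < 1)).mono 0 ?_
    rintro J - F A ⟨g1, -⟩
    exact g1
  exact key hKP hcas hne hw hw1 htm hex hN hr
    (by exact_mod_cast Pool.PM.hypS (hw.trans hw1) hβ hpos hno) hCp hPl hb hy hsg
    hPs hcc hP1 hs hθs hys hmv hc

end Pool.MKC
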