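import Pool.Agent.H71.MKC.Cpl

/-!
# Fullness for the law of six samples

The six samples `o`, `a`, `b`, `o'`, `a'`, `b'` of `PC` over the lines of a window and the exact
point. `full_cpl`: for every law of bounded density, the position at `o` is full given every label
of one of the six samples which is closed at the window `w₁`, together with all times and the side
information. `full_C`: restriction to an event of six samples.
-/

set_option autoImplicit false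

namespace Pool.MKC

open Finset Real
open Pool.Agent.H49.Ent Pool.Agent.H32.Dense Pool.STK Pool.KA Pool.KSAT Pool.K2S Pool.PB
  Pool.GEN Pool.KM7 Pool.S6C Pool.M3F Pool.JPR
open Pool.GRW (TmWn)

/-- Eight slots for six samples. -/
abbrev C8 (Ω : Type) : Type := ((Ω × Ω) × (Ω × Ω)) × ((Ω × Ω) × (Ω × Ω))

variable {m k J : ℕ}

/-- The samples. -/
def smp {Ω : Type} (e : C8 Ω) : Fin 6 → Ω :=
  ![e.1.1.1, e.1.1.2, e.1.2.2, e.2.1.1, e.2.1.2, e.2.2.2]

/-- All times, and the side information. -/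
def TT (F : Fam m J) (e : C8 F.Ω) : (ℕ × F.ζ) × (ℕ × ℕ × ℕ × ℕ) :=
  (F.W e.1.1.1, (F.T e.1.1.2, F.T e.1.2.2, F.T e.2.1.2, F.T e.2.2.2))

/-- The time of a sample in its window. -/
def tau (F : Fam m J) (w : ℕ) (ω : F.Ω) : Fin (2 ^ (J - w)) :=
  ⟨F.T ω % 2 ^ (J - w), Nat.mod_lt _ (by positivity)⟩

theorem tau_T (F : Fam m J) (w : ℕ) (ω : F.Ω) :
    F.T ω / 2 ^ (J - w) * 2 ^ (J - w) + (tau F w ω : ℕ) = F.T ω :=
  Nat.div_add_mod' (F.T ω) (2 ^ (J - w))

theorem tau_CH (F : Fam m J) (w : ℕ) {p : F.Ω → ℝ} (hp : IsLaw p) :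
    CH p (tau F w) (slam F w) = CH p F.T (slam F w) := by
  refine CH_congr hp.nonneg ?_ ?_ (fun _ _ _ _ h => h) (fun _ _ _ _ h => h)
  · intro e e' _ _ h
    have h1 := Prod.ext_iff.1 h
    have h2 : tau F w e = tau F w e' := h1.1
    have h3 : F.T1 w e = F.T1 w e' := (Prod.ext_iff.1 (Prod.ext_iff.1 h1.2).2).2
    change F.T e = F.T e'
    unfold Fam.T1 at h3
    rw [← tau_T F w e, ← tau_T F w e', h2, h3]
  · intro e e' _ _ h
    have h2 : F.T e = F.T e' := (Prod.ext_iff.1 h).1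
    unfold tau
    simp only [h2]

/-- One more time in the condition. -/
theorem add_time {E S T U : Type} [Fintype E] {Q : E → ℝ} (hQ : IsLaw Q) {n : ℕ}
    (τ : E → Fin (2 ^ n)) (X : E → S) (Y : E → T) (R : E → U)
    (hR : ∀ e e', 0 < Q e → 0 < Q e' → R e = R e' → X e = X e' ∧ Y e = Y e') {σ a : ℝ}
    (hτ : (n : ℝ) * Real.log 2 - σ ≤ CH Q τ R) (ha : a ≤ CH Q X Y) :
    a - σ ≤ CH Q X (fun e => (τ e, Y e)) := by
  have h0 := hQ.nonneg
  have c1 := CH_chain h0 X τ Y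
  have c2 := CH_chain h0 τ X Y
  have c3 : CH Q (fun e => (X e, τ e)) Y = CH Q (fun e => (τ e, X e)) Y :=
    Pool.MIC.CH_swl h0 _ _ _
  have c4 := log_fin n hQ τ Y
  have c5 : CH Q τ R ≤ CH Q τ (fun e => (X e, Y e)) :=
    CH_mono_cond h0 fun e e' he he' h => by
      obtain ⟨g1, g2⟩ := hR e e' he he' h
      exact Prod.ext g1 g2
  linarith

/-- What is known on the support. -/
structure Spp (F : Fam m J) (w : ℕ) (A : F.Ω → Prop) (e : C8 F.Ω) : Prop where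
  mem : ∀ i, A (smp e i)
  o12 : e.1.2.1 = e.1.1.1
  o22 : e.2.2.1 = e.2.1.1
  pt : ptr F J e.2.1.1 = ptr F J e.1.1.1
  la : slam F w e.1.1.1 = slam F w e.1.1.2
  lb : slam F w e.1.1.1 = slam F w e.1.2.2
  la' : slam F w e.2.1.1 = slam F w e.2.1.2
  lb' : slam F w e.2.1.1 = slam F w e.2.2.2

theorem spp {F : Fam m J} {w : ℕ} {A : F.Ω → Prop} (hA : 0 < Pe F.p A) {e : C8 F.Ω}
    (he : 0 < PC (Pool.Agent.H49.Ent.cond F.p A True) (slam F w) (ptr F J) e) : Spp F w A e := by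
  have hl := isLaw_cond F.isLaw hA
  obtain ⟨⟨h1, h2, h3, h4⟩, h5, h6, h7⟩ := PC_pos hl (slam F w) (ptr F J) he
  obtain ⟨a1, a2, a3⟩ := (P2_pos hl e.1.1).1 h1
  obtain ⟨b1, b2, b3⟩ := (P2_pos hl e.1.2).1 h2
  obtain ⟨c1, c2, c3⟩ := (P2_pos hl e.2.1).1 h3
  obtain ⟨d1, d2, d3⟩ := (P2_pos hl e.2.2).1 h4
  have key : ∀ ω, 0 < Pool.Agent.H49.Ent.cond F.p A True ω → A ω := fun ω h =>
    of_eq_true ((cond_pos_iff F.isLaw.nonneg A True ω).1 h).2
  refine ⟨?_, h5.symm, h6.symm, h7.symm, a3, ?_, c3, ?_⟩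
  · intro i
    fin_cases i
    · exact key _ a1
    · exact key _ a2
    · exact key _ b2
    · exact key _ c1
    · exact key _ c2
    · exact key _ d2
  · rw [h5]
    exact b3
  · rw [h6]
    exact d3

section spp

variable {F : Fam m J} {w : ℕ} {A : F.Ω → Prop} {e e' : C8 F.Ω}

theorem T1_of {ω ω' : F.Ω} (h : slam F w ω = slam F w ω') :
    F.T ω / 2 ^ (J - w) = F.T ω' / 2 ^ (J - w) := (Prod.ext_iff.1 (Prod.ext_iff.1 h).2).2

theorem Z_of {ω ω' : F.Ω} (h : slam F w ω = slam F w ω') : F.Z ω = F.Z ω' :=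
  (Prod.ext_iff.1 (Prod.ext_iff.1 h).2).1

theorem Spp.Wp (H : Spp F w A e) : F.W e.2.1.1 = F.W e.1.1.1 := (Prod.ext_iff.1 H.pt).2

theorem Spp.Xp (H : Spp F w A e) : F.X J e.2.1.1 = F.X J e.1.1.1 := (Prod.ext_iff.1 H.pt).1

theorem Spp.Tp (H : Spp F w A e) : F.T e.2.1.1 = F.T e.1.1.1 := (Prod.ext_iff.1 H.Wp).1

theorem Spp.Zp (H : Spp F w A e) : F.Z e.2.1.1 = F.Z e.1.1.1 := (Prod.ext_iff.1 H.Wp).2

/-- The times are determined by the time of `o` and the times in the windows. -/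
theorem Spp.TT_eq (H : Spp F w A e) (H' : Spp F w A e') (h : F.W e.1.1.1 = F.W e'.1.1.1)
    (ha : tau F w e.1.1.2 = tau F w e'.1.1.2) (hb : tau F w e.1.2.2 = tau F w e'.1.2.2)
    (ha' : tau F w e.2.1.2 = tau F w e'.2.1.2) (hb' : tau F w e.2.2.2 = tau F w e'.2.2.2) :
    TT F e = TT F e' := by
  have hT : F.T e.1.1.1 = F.T e'.1.1.1 := (Prod.ext_iff.1 h).1
  have key : ∀ {x x' : F.Ω}, F.T x / 2 ^ (J - w) = F.T e.1.1.1 / 2 ^ (J - w) →
      F.T x' / 2 ^ (J - w) = F.T e'.1.1.1 / 2 ^ (J - w) → tau F w x = tau F w x' →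
      F.T x = F.T x' := by
    intro x x' h1 h2 h3
    rw [← tau_T F w x, ← tau_T F w x', h1, h2, h3, hT]
  unfold TT
  rw [h, key (T1_of H.la).symm (T1_of H'.la).symm ha, key (T1_of H.lb).symm (T1_of H'.lb).symm hb,
    key (by rw [← T1_of H.la', H.Tp]) (by rw [← T1_of H'.la', H'.Tp]) ha',
    key (by rw [← T1_of H.lb', H.Tp]) (by rw [← T1_of H'.lb', H'.Tp]) hb']

end spp

/-- The time of one sample is nearly uniform given all the other ones. -/
theorem tau_rest {F : Fam m J} {w : ℕ} {p : F.Ω → ℝ} (hp : IsLaw p) {θ : ℝ}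
    (hf : ((J - w : ℕ) : ℝ) * Real.log 2 - θ ≤ CH p F.T (slam F w)) {Q : C8 F.Ω → ℝ} (hQ : IsLaw Q)
    {C : ℝ} (hC : 1 ≤ C) (hd : ∀ e, Q e ≤ C * PC p (slam F w) (ptr F J) e) :
    ((J - w : ℕ) : ℝ) * Real.log 2 - C * (θ + Real.log 2) ≤
        CH Q (fun e => tau F w e.1.1.2) (fun e => ((e.1.1.1, e.1.2), e.2)) ∧
    ((J - w : ℕ) : ℝ) * Real.log 2 - C * (θ + Real.log 2) ≤
        CH Q (fun e => tau F w e.1.2.2) (fun e => ((e.1.2.1, e.1.1), e.2)) ∧
    ((J - w : ℕ) : ℝ) * Real.log 2 - C * (θ + Real.log 2) ≤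
        CH Q (fun e => tau F w e.2.1.2) (fun e => ((e.2.1.1, e.2.2), e.1)) ∧
    ((J - w : ℕ) : ℝ) * Real.log 2 - C * (θ + Real.log 2) ≤
        CH Q (fun e => tau F w e.2.2.2) (fun e => ((e.2.2.1, e.2.1), e.1)) := by
  have hP := PC_isLaw hp (slam F w) (ptr F J)
  rw [← tau_CH F w hp] at hf
  refine ⟨?_, ?_, ?_, ?_⟩
  · refine dens_full hP hQ hC hd _ _ (fun r hr => log_fin _ hr _ _) ?_
    exact hf.trans (le_of_eq (rest_a hp (slam F w) (ptr F J) (tau F w)).symm)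
  · refine dens_full hP hQ hC hd _ _ (fun r hr => log_fin _ hr _ _) ?_
    exact hf.trans (le_of_eq (rest_b hp (slam F w) (ptr F J) (tau F w)).symm)
  · refine dens_full hP hQ hC hd _ _ (fun r hr => log_fin _ hr _ _) ?_
    exact hf.trans (le_of_eq (rest_a' hp (slam F w) (ptr F J) (tau F w)).symm)
  · refine dens_full hP hQ hC hd _ _ (fun r hr => log_fin _ hr _ _) ?_
    exact hf.trans (le_of_eq (rest_b' hp (slam F w) (ptr F J) (tau F w)).symm)


/-! ### The secondary samples -/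

/-- The secondary samples `a`, `b`, `a'`, `b'`. -/
def sec {Ω : Type} (e : C8 Ω) : Fin 4 → Ω := ![e.1.1.2, e.1.2.2, e.2.1.2, e.2.2.2]

/-- All the samples but one. -/
def rst {Ω : Type} (e : C8 Ω) : Fin 4 → (Ω × (Ω × Ω)) × ((Ω × Ω) × (Ω × Ω)) :=
  ![((e.1.1.1, e.1.2), e.2), ((e.1.2.1, e.1.1), e.2), ((e.2.1.1, e.2.2), e.1),
    ((e.2.2.1, e.2.1), e.1)]

theorem rst_det {Ω : Type} {e e' : C8 Ω} {j : Fin 4} (h : rst e j = rst e' j) :
    e.1.1.1 = e'.1.1.1 ∧ e.2.1.1 = e'.2.1.1 ∧ ∀ i, i ≠ j → sec e i = sec e' i := by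
  obtain ⟨⟨⟨o, a⟩, ⟨o1, b⟩⟩, ⟨⟨o2, a2⟩, ⟨o3, b2⟩⟩⟩ := e
  obtain ⟨⟨⟨o', a'⟩, ⟨o1', b'⟩⟩, ⟨⟨o2', a2'⟩, ⟨o3', b2'⟩⟩⟩ := e'
  fin_cases j
  · have h1 : (((o, (o1, b)), ((o2, a2), (o3, b2))) : (Ω × (Ω × Ω)) × ((Ω × Ω) × (Ω × Ω))) =
      ((o', (o1', b')), ((o2', a2'), (o3', b2'))) := h
    simp only [Prod.mk.injEq] at h1
    obtain ⟨⟨g1, g2, g3⟩, ⟨g4, g5⟩, g6, g7⟩ := h1
    refine ⟨g1, g4, fun i hi => ?_⟩
    fin_cases i
    · exact absurd rfl hi
    · exact g3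
    · exact g5
    · exact g7
  · have h1 : (((o1, (o, a)), ((o2, a2), (o3, b2))) : (Ω × (Ω × Ω)) × ((Ω × Ω) × (Ω × Ω))) =
      ((o1', (o', a')), ((o2', a2'), (o3', b2'))) := h
    simp only [Prod.mk.injEq] at h1
    obtain ⟨⟨g1, g2, g3⟩, ⟨g4, g5⟩, g6, g7⟩ := h1
    refine ⟨g2, g4, fun i hi => ?_⟩
    fin_cases i
    · exact g3
    · exact absurd rfl hi
    · exact g5
    · exact g7
  · have h1 : (((o2, (o3, b2)), ((o, a), (o1, b))) : (Ω × (Ω × Ω)) × ((Ω × Ω) × (Ω × Ω))) =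
      ((o2', (o3', b2')), ((o', a'), (o1', b'))) := h
    simp only [Prod.mk.injEq] at h1
    obtain ⟨⟨g1, g2, g3⟩, ⟨g4, g5⟩, g6, g7⟩ := h1
    refine ⟨g4, g1, fun i hi => ?_⟩
    fin_cases i
    · exact g5
    · exact g7
    · exact absurd rfl hi
    · exact g3
  · have h1 : (((o3, (o2, a2)), ((o, a), (o1, b))) : (Ω × (Ω × Ω)) × ((Ω × Ω) × (Ω × Ω))) =
      ((o3', (o2', a2')), ((o', a'), (o1', b'))) := h
    simp only [Prod.mk.injEq] at h1
    obtain ⟨⟨g1, g2, g3⟩, ⟨g4, g5⟩, g6, g7⟩ := h1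
    refine ⟨g4, g2, fun i hi => ?_⟩
    fin_cases i
    · exact g5
    · exact g7
    · exact g3
    · exact absurd rfl hi

/-- The times which are added for the target sample `i`. -/
def adj : Fin 6 → Finset (Fin 4) :=
  ![univ, univ.erase 0, univ.erase 1, univ, univ.erase 2, univ.erase 3]

theorem adj_det {Ω : Type} {e e' : C8 Ω} {i : Fin 6} {j : Fin 4} (hj : j ∈ adj i)
    (h : rst e j = rst e' j) : smp e i = smp e' i := by
  obtain ⟨h1, h2, h3⟩ := rst_det h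
  fin_cases i
  · exact h1
  · exact h3 0 (Finset.ne_of_mem_erase hj).symm
  · exact h3 1 (Finset.ne_of_mem_erase hj).symm
  · exact h2
  · exact h3 2 (Finset.ne_of_mem_erase hj).symm
  · exact h3 3 (Finset.ne_of_mem_erase hj).symm

theorem adj_or {Ω : Type} (i : Fin 6) (j : Fin 4) : j ∈ adj i ∨ ∀ e : C8 Ω, smp e i = sec e j := by
  fin_cases i <;> fin_cases j
  all_goals first
    | (left; exact Finset.mem_univ _)
    | (left; exact Finset.mem_erase.2 ⟨by decide, Finset.mem_univ _⟩)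
    | (right; intro e; rfl)

/-- Several times in the condition. -/
theorem add_fin {E S T U ι : Type} [Fintype E] [DecidableEq ι] {Q : E → ℝ} (hQ : IsLaw Q) {n : ℕ}
    (τ : ι → E → Fin (2 ^ n)) (X : E → S) (Y : E → T) (R : ι → E → U) {σ a : ℝ}
    (ha : a ≤ CH Q X Y) (s : Finset ι)
    (hR : ∀ j ∈ s, ∀ e e', 0 < Q e → 0 < Q e' → R j e = R j e' →
      X e = X e' ∧ Y e = Y e' ∧ ∀ i, i ≠ j → τ i e = τ i e')
    (hτ : ∀ j ∈ s, (n : ℝ) * Real.log 2 - σ ≤ CH Q (τ j) (R j)) :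
    a - s.card * σ ≤ CH Q X (fun e => ((fun i => if i ∈ s then some (τ i e) else none), Y e)) := by
  classical
  have h0 := hQ.nonneg
  induction s using Finset.induction_on with
  | empty =>
    rw [Finset.card_empty, Nat.cast_zero, zero_mul, sub_zero]
    refine ha.trans (CH_mono_cond h0 fun e e' _ _ h => ?_)
    refine Prod.ext ?_ h
    simp
  | insert j s hj ih =>
    have h1 := ih (fun i hi => hR i (Finset.mem_insert_of_mem hi))
      (fun i hi => hτ i (Finset.mem_insert_of_mem hi))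
    have h2 := add_time hQ (τ j) X (fun e => ((fun i => if i ∈ s then some (τ i e) else none), Y e))
      (R j) (fun e e' he he' h => by
        obtain ⟨g1, g2, g3⟩ := hR j (Finset.mem_insert_self j s) e e' he he' h
        refine ⟨g1, Prod.ext ?_ g2⟩
        funext i
        by_cases hi : i ∈ s
        · have hij : i ≠ j := fun h => hj (h ▸ hi)
          simp only [if_pos hi, g3 i hij]
        · simp only [if_neg hi]) (hτ j (Finset.mem_insert_self j s)) h1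
    rw [Finset.card_insert_of_notMem hj]
    push_cast
    have h3 : a - (s.card + 1) * σ = a - s.card * σ - σ := by ring
    rw [h3]
    refine h2.trans (CH_mono_cond h0 fun e e' _ _ h => ?_)
    have g1 := Prod.ext_iff.1 h
    have g2 : τ j e = τ j e' := g1.1
    have g3 := Prod.ext_iff.1 g1.2
    refine Prod.ext ?_ g3.2
    funext i
    have g4 := congrFun g3.1 i
    by_cases hi : i = j
    · subst hi
      simp only [Finset.mem_insert_self, if_true, g2]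
    · by_cases hs : i ∈ s
      · have g5 : some (τ i e) = some (τ i e') := by simpa [hs] using g4
        simp only [Finset.mem_insert_of_mem hs, if_true, g5]
      · have g6 : i ∉ insert j s := by
          rw [Finset.mem_insert]
          exact fun h => h.elim hi hs
        simp only [if_neg g6]

/-- **The exact form, all times.** -/
theorem cpl_all {F : Fam m J} {w : ℕ} {A : F.Ω → Prop} (hA : 0 < Pe F.p A) {θ : ℝ} (hθ : 0 ≤ θ)
    (hf : ((J - w : ℕ) : ℝ) * Real.log 2 - θ ≤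
      CH (Pool.Agent.H49.Ent.cond F.p A True) F.T (slam F w)) {Q : C8 F.Ω → ℝ} (hQ : IsLaw Q)
    {C : ℝ} (hC : 1 ≤ C)
    (hd : ∀ e, Q e ≤ C * PC (Pool.Agent.H49.Ent.cond F.p A True) (slam F w) (ptr F J) e)
    {S V : Type} (X : PtT F → S) (v : F.Ω → V) (i : Fin 6) {a : ℝ}
    (ha : a ≤ CH Q (fun e => X (ptr F J e.1.1.1))
      (fun e => (F.T e.1.1.1, (v (smp e i), F.W (smp e i))))) :
    a - 4 * (C * (θ + Real.log 2)) ≤
      CH Q (fun e => X (ptr F J e.1.1.1)) (fun e => (v (smp e i), TT F e)) := by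
  classical
  have hl := isLaw_cond F.isLaw hA
  have hQ0 := hQ.nonneg
  have hl2 : 0 < Real.log 2 := Real.log_pos one_lt_two
  have hsp : ∀ {e : C8 F.Ω}, 0 < Q e → Spp F w A e := by
    intro e he
    refine spp hA ?_
    have h1 := hd e
    by_contra hcon
    have h2 : PC (Pool.Agent.H49.Ent.cond F.p A True) (slam F w) (ptr F J) e = 0 :=
      le_antisymm (not_lt.1 hcon) ((PC_isLaw hl _ _).nonneg e)
    rw [h2, mul_zero] at h1
    linarith
  obtain ⟨t1, t2, t3, t4⟩ := tau_rest hl hf hQ hC hd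
  have ht : ∀ j : Fin 4, ((J - w : ℕ) : ℝ) * Real.log 2 - C * (θ + Real.log 2) ≤
      CH Q (fun e => tau F w (sec e j)) (fun e => rst e j) := by
    intro j
    fin_cases j
    · exact t1
    · exact t2
    · exact t3
    · exact t4
  have h1 := add_fin hQ (fun (j : Fin 4) e => tau F w (sec e j))
    (fun e => X (ptr F J e.1.1.1))
    (fun e => (F.T e.1.1.1, (v (smp e i), F.W (smp e i)))) (fun j e => rst e j) ha (adj i)
    (fun j hj e e' he he' h => by
      obtain ⟨g1, g2, g3⟩ := rst_det h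
      have g4 := adj_det hj h
      refine ⟨?_, ?_, fun i hi => ?_⟩
      · simp only [g1]
      · simp only [g1, g4]
      · simp only [g3 i hi])
    (fun j _ => ht j)
  have h2 : ((adj i).card : ℝ) * (C * (θ + Real.log 2)) ≤ 4 * (C * (θ + Real.log 2)) := by
    refine mul_le_mul_of_nonneg_right ?_ (by positivity)
    have h3 : (adj i).card ≤ (univ : Finset (Fin 4)).card := Finset.card_le_univ _
    rw [Finset.card_univ, Fintype.card_fin] at h3
    exact_mod_cast h3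
  refine le_trans (by linarith) (h1.trans (CH_mono_cond hQ0 fun e e' he he' h => ?_))
  have H := hsp he
  have H' := hsp he'
  have g1 := Prod.ext_iff.1 h
  have g2 := Prod.ext_iff.1 g1.2
  have g3 := Prod.ext_iff.1 g2.2
  have q1 : F.T e.1.1.1 = F.T e'.1.1.1 := g2.1
  have q2 : v (smp e i) = v (smp e' i) := g3.1
  have q3 : F.W (smp e i) = F.W (smp e' i) := g3.2
  have q4 : F.T (smp e i) = F.T (smp e' i) := (Prod.ext_iff.1 q3).1
  have q5 : F.Z (smp e i) = F.Z (smp e' i) := (Prod.ext_iff.1 q3).2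
  have hZ : ∀ {e : C8 F.Ω}, Spp F w A e → F.Z (smp e i) = F.Z e.1.1.1 := by
    intro e H
    fin_cases i
    · rfl
    · exact (Z_of H.la).symm
    · exact (Z_of H.lb).symm
    · exact H.Zp
    · exact (Z_of H.la').symm.trans H.Zp
    · exact (Z_of H.lb').symm.trans H.Zp
  have q6 : F.W e.1.1.1 = F.W e'.1.1.1 := Prod.ext q1 (by
    rw [hZ H, hZ H'] at q5
    exact q5)
  have q7 : ∀ j : Fin 4, tau F w (sec e j) = tau F w (sec e' j) := by
    intro j
    rcases adj_or (Ω := F.Ω) i j with hj | hj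
    · have g5 := congrFun g1.1 j
      simp only [if_pos hj] at g5
      exact Option.some.inj g5
    · have g6 : F.T (sec e j) = F.T (sec e' j) := by rw [← hj e, ← hj e']; exact q4
      unfold tau
      simp only [g6]
  exact Prod.ext q2 (H.TT_eq H' q6 (q7 0) (q7 1) (q7 2) (q7 3))


/-- **Fullness for the laws of bounded density.** -/
theorem full_cpl (h : KP k) {S : PCl m} {w₀ w₁ : ℝ} (hw1 : w₀ ≤ 1) (htm : TmWn S w₀)
    {c : Fin k → Fin m} {b : ℝ} (hex : ExvY S w₁ (fun J F ω (i : Fin k) => F.X J ω (c i)) b)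
    {C : ℝ} (hC : 1 ≤ C) {ρ : ℝ} (hρ : 0 < ρ) :
    Bas S (fun J F A => 0 < Pe F.p A ∧ ∀ Q : C8 F.Ω → ℝ, IsLaw Q →
      (∀ e, Q e ≤ C * PC (Pool.Agent.H49.Ent.cond F.p A True) (slam F ⌊w₀ * J⌋₊) (ptr F J) e) →
      ∀ (V : Type) (z : PtT F → V) (z' : LnT F → V),
      (∀ ω, A ω → z (ptr F J ω) = z' (slam F ⌊w₁ * J⌋₊ ω)) → ∀ i : Fin 6,
      (b - ρ) * Real.log 2 * J ≤ CH Q (fun e i => F.X J e.1.1.1 (c i))
        (fun e => (z' (slam F ⌊w₁ * J⌋₊ (smp e i)), TT F e))) := by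
  classical
  have hl2 : 0 < Real.log 2 := Real.log_pos one_lt_two
  have hC0 : 0 < C := by linarith
  obtain ⟨J₁, hJ₁⟩ := exists_nat_ge (16 * C / ρ)
  refine (((full_dens h hw1 htm hex hC (ρ := ρ / 2) (by positivity)).and
    (dens_exv hex hC (ρ := ρ / 2) (by positivity))).and
    (tm_ful hw1 htm (θ := ρ * Real.log 2 / (16 * C)) (by positivity))).mono J₁ ?_
  rintro J hJ F A ⟨⟨⟨h1, h2⟩, h3⟩, -, -, h4⟩
  refine ⟨h1, fun Q hQ hd V z z' hz i => ?_⟩
  have hJ0 : (0 : ℝ) ≤ J := Nat.cast_nonneg J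
  have hl := isLaw_cond F.isLaw h1
  have hQ0 := hQ.nonneg
  have hP := PC_isLaw hl (slam F ⌊w₀ * J⌋₊) (ptr F J)
  have hsp : ∀ {e : C8 F.Ω}, 0 < Q e → Spp F ⌊w₀ * J⌋₊ A e := by
    intro e he
    refine spp h1 ?_
    have h1 := hd e
    by_contra hcon
    have h2 : PC (Pool.Agent.H49.Ent.cond F.p A True) (slam F ⌊w₀ * J⌋₊) (ptr F J) e = 0 :=
      le_antisymm (not_lt.1 hcon) (hP.nonneg e)
    rw [h2, mul_zero] at h1
    linarith
  -- the pairs
  have hpair : ∀ pr : C8 F.Ω → F.Ω × F.Ω,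
      Psh (PC (Pool.Agent.H49.Ent.cond F.p A True) (slam F ⌊w₀ * J⌋₊) (ptr F J)) pr
        (P2 (Pool.Agent.H49.Ent.cond F.p A True) (slam F ⌊w₀ * J⌋₊)) →
      (∀ e, 0 < Q e → ptr F J (pr e).1 = ptr F J e.1.1.1) →
      (b - ρ / 2) * Real.log 2 * J ≤ CH Q (fun e i => F.X J e.1.1.1 (c i))
        (fun e => (F.T e.1.1.1, (z' (slam F ⌊w₁ * J⌋₊ (pr e).2), F.W (pr e).2))) := by
    intro pr hpr hs
    obtain ⟨g1, g2⟩ := law_psh hQ pr
    have g3 := h2 (law Q pr) g2 (dens_psh hpr hd) V z z' hz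
    rw [← g1.CH_eq (fun e (i : Fin k) => F.X J e.1 (c i))
      (fun e => (F.T e.1, (z' (slam F ⌊w₁ * J⌋₊ e.2), F.W e.2)))] at g3
    refine g3.trans (le_of_eq ?_)
    have key : ∀ e, 0 < Q e → F.X J (pr e).1 = F.X J e.1.1.1 ∧ F.T (pr e).1 = F.T e.1.1.1 :=
      fun e he => ⟨(Prod.ext_iff.1 (hs e he)).1,
        (Prod.ext_iff.1 (Prod.ext_iff.1 (hs e he)).2).1⟩
    have key2 : ∀ e, 0 < Q e → (fun i : Fin k => F.X J (pr e).1 (c i)) =
        fun i : Fin k => F.X J e.1.1.1 (c i) := fun e he => by rw [(key e he).1]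
    refine CH_congr hQ0 ?_ ?_ ?_ ?_
    · intro e e' he he' h
      have q1 := (Prod.ext_iff.1 h).1
      change (fun i : Fin k => F.X J (pr e).1 (c i)) = fun i : Fin k => F.X J (pr e').1 (c i) at q1
      rw [key2 e he, key2 e' he'] at q1
      exact q1
    · intro e e' he he' h
      have q1 := (Prod.ext_iff.1 h).1
      change (fun i : Fin k => F.X J e.1.1.1 (c i)) = fun i : Fin k => F.X J e'.1.1.1 (c i) at q1
      change (fun i : Fin k => F.X J (pr e).1 (c i)) = fun i : Fin k => F.X J (pr e').1 (c i)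
      rw [key2 e he, key2 e' he']
      exact q1
    · intro e e' he he' h
      have q1 := Prod.ext_iff.1 h
      refine Prod.ext ?_ q1.2
      change F.T e.1.1.1 = F.T e'.1.1.1
      rw [← (key e he).2, ← (key e' he').2]
      exact q1.1
    · intro e e' he he' h
      have q1 := Prod.ext_iff.1 h
      refine Prod.ext ?_ q1.2
      change F.T (pr e).1 = F.T (pr e').1
      rw [(key e he).2, (key e' he').2]
      exact q1.1
  -- the samples at the point
  have hpt : ∀ pr : C8 F.Ω → F.Ω,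
      Psh (PC (Pool.Agent.H49.Ent.cond F.p A True) (slam F ⌊w₀ * J⌋₊) (ptr F J)) pr
        (Pool.Agent.H49.Ent.cond F.p A True) →
      (∀ e, 0 < Q e → ptr F J (pr e) = ptr F J e.1.1.1) →
      (b - ρ / 2) * Real.log 2 * J ≤ CH Q (fun e i => F.X J e.1.1.1 (c i))
        (fun e => (F.T e.1.1.1, (z' (slam F ⌊w₁ * J⌋₊ (pr e)), F.W (pr e)))) := by
    intro pr hpr hs
    obtain ⟨g1, g2⟩ := law_psh hQ pr
    have g3 := h3 h1 (law Q pr) g2 (dens_psh hpr hd) V z z' hz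
    rw [← g1.CH_eq (fun ω (i : Fin k) => F.X J ω (c i))
      (fun ω => (z' (slam F ⌊w₁ * J⌋₊ ω), F.W ω))] at g3
    refine g3.trans (le_of_eq ?_)
    have key2 : ∀ e, 0 < Q e → (fun i : Fin k => F.X J (pr e) (c i)) =
        fun i : Fin k => F.X J e.1.1.1 (c i) := fun e he => by
      have : F.X J (pr e) = F.X J e.1.1.1 := (Prod.ext_iff.1 (hs e he)).1
      rw [this]
    have key3 : ∀ e, 0 < Q e → F.T (pr e) = F.T e.1.1.1 := fun e he =>
      (Prod.ext_iff.1 (Prod.ext_iff.1 (hs e he)).2).1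
    refine CH_congr hQ0 ?_ ?_ ?_ ?_
    · intro e e' he he' h
      have q1 := (Prod.ext_iff.1 h).1
      change (fun i : Fin k => F.X J (pr e) (c i)) = fun i : Fin k => F.X J (pr e') (c i) at q1
      rw [key2 e he, key2 e' he'] at q1
      exact q1
    · intro e e' he he' h
      have q1 := (Prod.ext_iff.1 h).1
      change (fun i : Fin k => F.X J e.1.1.1 (c i)) = fun i : Fin k => F.X J e'.1.1.1 (c i) at q1
      change (fun i : Fin k => F.X J (pr e) (c i)) = fun i : Fin k => F.X J (pr e') (c i)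
      rw [key2 e he, key2 e' he']
      exact q1
    · intro e e' he he' h
      have q1 := Prod.ext_iff.1 h
      have q2 : F.W (pr e) = F.W (pr e') := q1.2
      refine Prod.ext ?_ h
      change F.T e.1.1.1 = F.T e'.1.1.1
      rw [← key3 e he, ← key3 e' he']
      exact (Prod.ext_iff.1 (Prod.ext_iff.1 h).2).1
    · intro e e' he he' h
      exact (Prod.ext_iff.1 h).2
  have hbase : ∀ i : Fin 6, (b - ρ / 2) * Real.log 2 * J ≤
      CH Q (fun e i => F.X J e.1.1.1 (c i))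
        (fun e => (F.T e.1.1.1, (z' (slam F ⌊w₁ * J⌋₊ (smp e i)), F.W (smp e i)))) := by
    intro i
    fin_cases i
    · exact hpt (fun e => e.1.1.1) (PC_o hl _ _) fun e _ => rfl
    · exact hpair (fun e => e.1.1) (PC_11 hl _ _) fun e _ => rfl
    · exact hpair (fun e => e.1.2) (PC_12 hl _ _) fun e he => by rw [(hsp he).o12]
    · exact hpt (fun e => e.2.1.1) (PC_o' hl _ _) fun e he => (hsp he).pt
    · exact hpair (fun e => e.2.1) (PC_21 hl _ _) fun e he => (hsp he).pt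
    · exact hpair (fun e => e.2.2) (PC_22 hl _ _) fun e he => by
        rw [(hsp he).o22]
        exact (hsp he).pt
  have h5 := cpl_all h1 (θ := ρ * Real.log 2 / (16 * C) * J) (by positivity) h4 hQ hC hd
    (fun q i => q.1 (c i)) (fun ω => z' (slam F ⌊w₁ * J⌋₊ ω)) i (hbase i)
  refine le_trans ?_ h5
  have h6 : 16 * C / ρ ≤ J := hJ₁.trans (by exact_mod_cast hJ)
  rw [div_le_iff₀ hρ] at h6
  have h7 : 4 * (C * (ρ * Real.log 2 / (16 * C) * J + Real.log 2)) =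
      ρ / 4 * Real.log 2 * J + 4 * C * Real.log 2 := by
    field_simp
    ring
  have h8 : 4 * C * Real.log 2 ≤ ρ / 4 * Real.log 2 * J := by
    have h9 : 4 * C ≤ ρ / 4 * J := by linarith
    have := mul_le_mul_of_nonneg_right h9 hl2.le
    linarith
  rw [h7]
  have h10 : (b - ρ) * Real.log 2 * J = (b - ρ / 2) * Real.log 2 * J - ρ / 4 * Real.log 2 * J -
      ρ / 4 * Real.log 2 * J := by ring
  rw [h10]
  linarith

/-- **(FULL)**: restriction to an event of six samples. -/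
theorem full_C (h : KP k) {S : PCl m} {w₀ w₁ : ℝ} (hw1 : w₀ ≤ 1) (htm : TmWn S w₀)
    {c : Fin k → Fin m} {b : ℝ} (hex : ExvY S w₁ (fun J F ω (i : Fin k) => F.X J ω (c i)) b)
    {Φ : Stat m} (hΦ : Bas S Φ) {κ : ℝ} (hκ : 0 < κ) (hκ1 : κ ≤ 1) {ρ : ℝ} (hρ : 0 < ρ) :
    Bas S (fun J F A => 0 < Pe F.p A ∧ ∀ E : C8 F.Ω → Prop,
      κ ≤ Pe (PC (Pool.Agent.H49.Ent.cond F.p A True) (slam F ⌊w₀ * J⌋₊) (ptr F J)) E →
      ∃ (B : F.Ω → Prop) (Q : C8 F.Ω → ℝ), Sub B A ∧ κ / 2 * Pe F.p A ≤ Pe F.p B ∧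
        Φ J F B ∧ IsLaw Q ∧ Psh Q (fun e => e.1.1.1) (Pool.Agent.H49.Ent.cond F.p B True) ∧
        (∀ e, 0 < Q e → E e ∧ B e.1.1.1 ∧ Spp F ⌊w₀ * J⌋₊ A e) ∧
        (∀ e, Q e ≤ 4 / κ ^ 2 *
          PC (Pool.Agent.H49.Ent.cond F.p A True) (slam F ⌊w₀ * J⌋₊) (ptr F J) e) ∧
        ∀ (V : Type) (z : PtT F → V) (z' : LnT F → V),
          (∀ ω, A ω → z (ptr F J ω) = z' (slam F ⌊w₁ * J⌋₊ ω)) → ∀ i : Fin 6,
          (b - ρ) * Real.log 2 * J ≤ CH Q (fun e i => F.X J e.1.1.1 (c i))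
            (fun e => (z' (slam F ⌊w₁ * J⌋₊ (smp e i)), TT F e))) := by
  classical
  have hC : (1 : ℝ) ≤ 4 / κ ^ 2 := by
    rw [le_div_iff₀ (by positivity)]
    nlinarith
  refine ((full_cpl h hw1 htm hex hC hρ).and (bas_big hΦ
    (κ := κ / 2) (by positivity))).mono 0 ?_
  rintro J - F A ⟨⟨h1, h2⟩, h3⟩
  refine ⟨h1, fun E hE => ?_⟩
  have hl := isLaw_cond F.isLaw h1
  have hP := PC_isLaw hl (slam F ⌊w₀ * J⌋₊) (ptr F J)
  obtain ⟨B₀, Q, b1, b2, b3, b4, b5, b6⟩ := tiltG hP (PC_o hl (slam F ⌊w₀ * J⌋₊) (ptr F J)) hl E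
    hκ hE
  have hB : κ / 2 * Pe F.p A ≤ Pe F.p (fun ω => A ω ∧ B₀ ω) := by
    rw [Pe_cnd, le_div_iff₀ h1] at b1
    exact b1
  rw [cond_and F.p h1.ne'] at b3
  have h4 := h3 (fun ω => A ω ∧ B₀ ω) (fun ω h => h.1) hB
  have hsup : ∀ e, 0 < Q e → Spp F ⌊w₀ * J⌋₊ A e := by
    intro e he
    refine spp h1 ?_
    have h1 := b6 e
    by_contra hcon
    have h2 : PC (Pool.Agent.H49.Ent.cond F.p A True) (slam F ⌊w₀ * J⌋₊) (ptr F J) e = 0 :=
      le_antisymm (not_lt.1 hcon) (hP.nonneg e)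
    rw [h2, mul_zero] at h1
    linarith
  exact ⟨fun ω => A ω ∧ B₀ ω, Q, fun ω h => h.1, hB, h4, b2, b3,
    fun e he => ⟨b4 e he, ⟨(hsup e he).mem 0, b5 e he⟩, hsup e he⟩, b6,
    fun V z z' hz i => h2 Q b2 b6 V z z' hz i⟩

end Pool.MKC
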