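import Pool.Agent.H81.PM.Rmc
import Pool.Agent.H3.PM.Dat
import Pool.Agent.H34.NJ.H2

/-!
# The slope of the height on the label and at the point

`rem_cls'`: as `rem_cls`, with any size of the boxes and with a bound which is a function of the
label. `mk_cmp`: the size of the slope of the height on the label at the window `w₁` is attained, up
to a small power, at most of the points.
-/

set_option autoImplicit false

namespace Pool.MKS71

open Finset Real MvPolynomial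
open Pool.Agent.H49.Ent Pool.Agent.H32.Dense Pool.STK Pool.KA Pool.KSAT Pool.K2S Pool.PB Pool.GEN
open Pool.STAT Pool.STAT.CLO Pool.M3F Pool.S6C
open Pool.GRW (TmWn)
open Pool.PM (MNum MDat)

variable {m J : ℕ}

/-- **Closed polynomials which are small at the points are small on the boxes**, in a class; the
size is a function of the label. -/
theorem rem_cls' {S : PCl m} {c : ℕ → Fin m} (r K : ℕ) {ϱ : ℝ} (hϱ : 1 ≤ ϱ) {w γ : ℝ} {β : ℕ → ℝ} (hw : 0 ≤ w)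
    (hγ : 0 < γ) (hwγ : w + γ ≤ 1) (hβ : ∀ l < r, β l + γ ≤ 1) (htm : TmWn S w)
    (hex : ∀ ρ : ℝ, 0 < ρ → ExvY S w (fun J F ω (i : Fin r) => F.X J ω (c i))
      ((∑ l ∈ range r, (1 - β l)) - ρ)) {η : ℝ} (hη : 0 < η) : ∃ δ : ℝ, 0 < δ ∧
    Bas S (fun J F A => ∀ (g : ℕ → ℕ) (V : Type) (z : PtT F → V) (z' : LnT F → V)
      (P : V → ℕ → PN) (D : V → PN) (τ : V → ℝ), (∀ l < r, |(g l : ℝ) - β l * J| ≤ δ * J) →
      (∀ v i, (P v i).totalDegree ≤ K) → (∀ v, TriN (P v)) →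
      (∀ ω, A ω → z (ptr F J ω) = z' (slam F ⌊w * J⌋₊ ω)) →
      (∀ ω, A ω → P (z (ptr F J ω)) 0 =
        MvPolynomial.C ((F.T1 ⌊w * J⌋₊ ω : ℝ) / 2 ^ ⌊w * J⌋₊)) →
      (∀ ω, A ω → ∀ i < r, |px c (ptr F J ω) (i + 1) -
        eval (px c (ptr F J ω)) (P (z (ptr F J ω)) (i + 1))| ≤ 1 / 2 ^ g i) →
      (∀ v, (D v).totalDegree ≤ K) → (∀ v, (D v).vars ⊆ range (r + 1)) → (∀ v, 0 < τ v) →
      (∀ ω, A ω → |eval (px c (ptr F J ω)) (D (z (ptr F J ω)))| ≤ τ (z (ptr F J ω))) →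
      ∃ A' : F.Ω → Prop, Sub A' A ∧ Pe F.p A ≤ 2 * Pe F.p A' ∧
        ∀ ω, A' ω → ∀ b : ℕ → ℝ, Bxr ϱ (wid ⌊w * J⌋₊ g) (P (z (ptr F J ω))) (r + 1) b →
          |eval b (D (z (ptr F J ω)))| ≤ Real.exp (η * J) * τ (z (ptr F J ω))) := by
  classical
  obtain ⟨C₀, hC₀, hrem⟩ := Pool.PM93.rem_px r K 1 ϱ hϱ
  have hr0 : (0 : ℝ) ≤ r := Nat.cast_nonneg r
  obtain ⟨h, hh⟩ : ∃ h, h = min η (γ / 4) := ⟨_, rfl⟩
  have hh0 : 0 < h := by
    rw [hh]
    exact lt_min hη (by linarith)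
  have hh1 : h ≤ η := by
    rw [hh]
    exact min_le_left _ _
  have hh2 : h ≤ γ / 4 := by
    rw [hh]
    exact min_le_right _ _
  obtain ⟨δ, hδ⟩ : ∃ δ : ℝ, δ = h / (16 * C₀ * (r + 2)) := ⟨_, rfl⟩
  have hδ0 : 0 < δ := by
    rw [hδ]
    positivity
  have hδκ : 16 * (C₀ * (r + 2) * δ) = h := by
    rw [hδ]
    field_simp
  have hCr : 1 ≤ C₀ * (r + 2) := by nlinarith
  have hδh : δ ≤ h / 16 := by nlinarith
  obtain ⟨J₁, hJ₁⟩ := exists_nat_ge (16 * (C₀ + 2) / h)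
  refine ⟨δ, hδ0, ((htm δ hδ0).and (hex δ hδ0)).mono J₁ ?_⟩
  rintro J hJ F A ⟨⟨hB, hT⟩, hV⟩ g V z z' P D τ hg hdeg htri hcls hzero hpos hDd hDv hτ hsm
  have j1 : (16 * (C₀ + 2) / h : ℝ) ≤ J := hJ₁.trans (by exact_mod_cast hJ)
  rw [div_le_iff₀ hh0] at j1
  have hJ0 : (0 : ℝ) ≤ J := Nat.cast_nonneg J
  obtain ⟨W₀, hW₀⟩ : ∃ W₀, W₀ = ⌊w * (J : ℝ)⌋₊ := ⟨_, rfl⟩
  rw [← hW₀] at hT hV hcls hzero ⊢
  have hW₀le : (W₀ : ℝ) ≤ w * J := by
    rw [hW₀]
    exact Nat.floor_le (by positivity)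
  have hW₀J : W₀ ≤ J := by
    rw [hW₀]
    exact Nat.floor_le_of_le (by nlinarith)
  have hq := isLaw_cond F.isLaw hB
  have hsupp : ∀ ω, 0 < Pool.Agent.H49.Ent.cond F.p A True ω → A ω := fun ω hω => cond_supp hω
  obtain ⟨l2, hl2⟩ : ∃ l2, l2 = Real.log 2 := ⟨_, rfl⟩
  have l2a : 1 / 2 ≤ l2 := by
    rw [hl2]
    have := Real.log_two_gt_d9
    linarith
  have l2b : l2 ≤ 1 := by
    rw [hl2]
    have := Real.log_two_lt_d9
    linarith
  -- the time
  have hTime : ((J - W₀ : ℕ) : ℝ) * Real.log 2 - δ * J ≤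
      CH (Pool.Agent.H49.Ent.cond F.p A True) F.T (fun ω => z (ptr F J ω)) := by
    have h1 := hT (J - W₀) (by omega)
    have h2 : W₀ + (J - W₀) = J := by omega
    rw [h2] at h1
    have h3 : F.T1 J = F.T := by
      funext ω
      show F.T ω / 2 ^ (J - J) = F.T ω
      rw [Nat.sub_self, pow_zero, Nat.div_one]
    rw [h3] at h1
    refine h1.trans (CH_mono_cond hq.nonneg fun ω ω' hω hω' h => ?_)
    rw [hcls ω (hsupp ω hω), hcls ω' (hsupp ω' hω'), h]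
  -- the base
  have hBase : (∑ i ∈ range r, ((J - g i : ℕ) : ℝ)) * Real.log 2 - (r + 1) * (δ * J) ≤
      CH (Pool.Agent.H49.Ent.cond F.p A True) (fun ω (i : Fin r) => F.X J ω (c i))
        (fun ω => (z (ptr F J ω), F.W ω)) := by
    have h1 := hV V z z' hcls
    have h2 : CH (Pool.Agent.H49.Ent.cond F.p A True) (fun ω (i : Fin r) => F.X J ω (c i))
        (fun ω => (z' (slam F W₀ ω), F.W ω)) ≤
        CH (Pool.Agent.H49.Ent.cond F.p A True) (fun ω (i : Fin r) => F.X J ω (c i))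
        (fun ω => (z (ptr F J ω), F.W ω)) := by
      refine CH_mono_cond hq.nonneg fun ω ω' hω hω' h => ?_
      rw [hcls ω (hsupp ω hω), hcls ω' (hsupp ω' hω')]
      exact h
    have h3 : (∑ i ∈ range r, ((J - g i : ℕ) : ℝ)) ≤
        (∑ l ∈ range r, (1 - β l)) * J + r * (δ * J) := by
      rw [Finset.sum_mul]
      have h4 : (r : ℝ) * (δ * J) = ∑ l ∈ range r, δ * (J : ℝ) := by
        rw [sum_const, card_range, nsmul_eq_mul]
      rw [h4, ← sum_add_distrib]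
      refine sum_le_sum fun l hl => ?_
      have h5 := abs_le.1 (hg l (mem_range.1 hl))
      have h6 : ((J - g l : ℕ) : ℝ) ≤ max 0 ((J : ℝ) - g l) := by
        rcases le_total (g l) J with h7 | h7
        · rw [Nat.cast_sub h7]
          exact le_max_right _ _
        · rw [Nat.sub_eq_zero_of_le h7]
          push_cast
          exact le_max_left _ _
      refine h6.trans (max_le ?_ (by linarith [h5.1]))
      have h8 := hβ l (mem_range.1 hl)
      have h9 : 0 ≤ (1 - β l) * J := mul_nonneg (by linarith) hJ0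
      have h10 : 0 ≤ δ * J := by positivity
      linarith
    have h4 : ((∑ l ∈ range r, (1 - β l)) - δ) * Real.log 2 * J ≤ _ := h1.trans h2
    refine le_trans ?_ h4
    rw [← hl2] at *
    have h5 : (∑ i ∈ range r, ((J - g i : ℕ) : ℝ)) * l2 ≤
        ((∑ l ∈ range r, (1 - β l)) * J + r * (δ * J)) * l2 :=
      mul_le_mul_of_nonneg_right h3 (by linarith)
    have h6 : (r + 1) * (δ * J) * l2 ≤ (r + 1) * (δ * J) := by
      have : 0 ≤ (r + 1) * (δ * (J : ℝ)) := by positivity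
      nlinarith
    nlinarith
  -- the numbers
  obtain ⟨lam, hlam⟩ : ∃ lam, lam = ⌊γ / 2 * (J : ℝ)⌋₊ := ⟨_, rfl⟩
  have hlam1 : (lam : ℝ) ≤ γ / 2 * J := by
    rw [hlam]
    exact Nat.floor_le (by positivity)
  have hlam2 : γ / 2 * J - 1 ≤ lam := by
    rw [hlam]
    exact (Nat.sub_one_lt_floor _).le
  have hδγ : δ ≤ γ / 4 := by linarith
  have hlW : W₀ + lam ≤ J := by
    have : ((W₀ + lam : ℕ) : ℝ) ≤ J := by
      push_cast
      nlinarith
    exact_mod_cast this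
  have hlg : ∀ i < r, g i + lam ≤ J := by
    intro i hi
    have h5 := abs_le.1 (hg i hi)
    have h6 := hβ i hi
    have : ((g i + lam : ℕ) : ℝ) ≤ J := by
      push_cast
      nlinarith [h5.2]
    exact_mod_cast this
  have hee : C₀ * (δ * J + (r + 1) * (δ * J) + 1) = h / 16 * J + C₀ := by
    rw [← hδκ]
    ring
  have hpx : h / 16 * J + C₀ ≤ h * J := by nlinarith
  obtain ⟨A', b1, b2, b3⟩ := hrem m J F c W₀ lam g A V z P (fun _ => D) (fun _ => τ)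
    (δ * J) ((r + 1) * (δ * J)) (by positivity) (by positivity) hW₀J hdeg htri hzero hpos hB hlW
    hlg hTime hBase (by
      rw [hee, ← hl2]
      have h2 : h * J ≤ γ / 4 * J := mul_le_mul_of_nonneg_right hh2 hJ0
      have h3 : (γ / 2 * J - 1) * l2 ≤ lam * l2 := mul_le_mul_of_nonneg_right hlam2 (by linarith)
      have h4 : 0 ≤ γ * J := by positivity
      nlinarith) (fun _ v => hDd v) (fun _ v => hDv v) (fun _ v => hτ v)
      (fun ω hω _ _ => hsm ω hω)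
  refine ⟨A', b1, b2, fun ω hω b hb => (b3 ω hω 0 one_pos b hb).trans ?_⟩
  rw [hee]
  refine mul_le_mul_of_nonneg_right (Real.exp_le_exp.2 ?_) (hτ _).le
  have h2 : h * J ≤ η * J := mul_le_mul_of_nonneg_right hh1 hJ0
  linarith


/-- The polynomial of the slope of the height relative to the chart. -/
noncomputable def dP {N : MNum} {φ : ℝ} {K D : ℕ} {F : Fam m J} {c : ℕ → Fin m} {A : F.Ω → Prop}
    (d : MDat N φ K D F c A) (v : d.V × d.U) : PN :=
  MvPolynomial.C ((2 : ℝ) ^ ⌊N.sN * J⌋₊) * pderiv 3 (d.P v.1 4) - pderiv 3 (d.Q v.2 4)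

/-- **The slope of the height at most of the points** is nearly its size on the label. -/
theorem mk_cmp {S : PCl m} {c : ℕ → Fin m} {N : MNum} {K D : ℕ} {γ : ℝ} (hK : 1 ≤ K)
    (hpos : ∀ (τ : ℝ) (J : ℕ) (F : Fam m J) (A : F.Ω → Prop), S.St τ J F A → 0 < Pe F.p A)
    (hw0 : 0 ≤ N.w0) (hw : N.w0 ≤ N.w1) (hγ : 0 < γ) (hwγ : N.w1 + γ ≤ 1)
    (hβ : ∀ l < 3, N.g l + γ ≤ 1) (htm : TmWn S N.w1)
    (hex : ∀ ρ : ℝ, 0 < ρ → ExvY S N.w1 (fun J F ω (i : Fin 3) => F.X J ω (c i))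
      ((∑ l ∈ range 3, (1 - N.g l)) - ρ)) {b c₀ : ℝ} (hb : 0 < b) (hc₀ : 0 < c₀) :
    ∃ φ : ℝ, 0 < φ ∧ Bas S (fun J F A => ∀ d : MDat N φ K D F c A,
      Pe F.p (fun ω => A ω ∧ ¬ d.mo ω ≤ 2 ^ ⌊b * J⌋₊ *
        max 1 (2 ^ d.gU 3 / 2 ^ d.gU 2 *
          |d.dN (d.z (ptr F J ω)) (d.u (ptr F J ω)) (px c (ptr F J ω))|)) ≤ c₀ * Pe F.p A) := by
  classical
  obtain ⟨δ, hδ, hrem⟩ := rem_cls' 3 K (ϱ := 4) (by norm_num) (hw0.trans hw) hγ hwγ hβ htm hex
    (η := b / 4) (by linarith)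
  obtain ⟨J₂, hJ₂⟩ := exists_nat_ge (8 / b)
  refine ⟨δ, hδ, (Pool.NJ34.bas_frc (hrem.and ⟨1, one_pos, 0, fun J _ F A hA => hpos 1 J F A hA⟩)
    hc₀).mono (max J₂ 1) ?_⟩
  intro J hJ F A hall d
  have j1 : (8 / b : ℝ) ≤ J := hJ₂.trans (by exact_mod_cast (le_max_left _ _).trans hJ)
  have j2 : (1 : ℝ) ≤ J := by exact_mod_cast (le_max_right J₂ 1).trans hJ
  rw [div_le_iff₀ hb] at j1
  have hJ0 : (0 : ℝ) ≤ J := by linarith
  by_contra hcon
  rw [not_le] at hcon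
  obtain ⟨sc, hsc⟩ : ∃ sc : ℝ, sc = 2 ^ d.gU 3 / 2 ^ d.gU 2 := ⟨_, rfl⟩
  have hsc0 : 0 < sc := by
    rw [hsc]
    positivity
  obtain ⟨T, hT⟩ : ∃ T : ℝ, T = 2 ^ ⌊b * J⌋₊ := ⟨_, rfl⟩
  have hT1 : 1 ≤ T := by
    rw [hT]
    exact one_le_pow₀ (by norm_num)
  rw [← hsc, ← hT] at hcon
  obtain ⟨B, hB⟩ : ∃ B : F.Ω → Prop, B = fun ω => A ω ∧ ¬ d.mo ω ≤ T *
    max 1 (sc * |d.dN (d.z (ptr F J ω)) (d.u (ptr F J ω)) (px c (ptr F J ω))|) := ⟨_, rfl⟩
  rw [← hB] at hcon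
  have hBA : Sub B A := fun ω h => by
    rw [hB] at h
    exact h.1
  obtain ⟨H, hPB⟩ := hall B hBA hcon.le
  -- the label
  have hw1J : ⌊N.w1 * J⌋₊ ≤ J := Nat.floor_le_of_le (by nlinarith)
  have hw01 : ⌊N.w0 * J⌋₊ ≤ ⌊N.w1 * J⌋₊ :=
    Nat.floor_le_floor (mul_le_mul_of_nonneg_right hw hJ0)
  have hco : ∀ ω, d.u' ((slam F ⌊N.w1 * J⌋₊ ω).1, (slam F ⌊N.w1 * J⌋₊ ω).2.1,
      (slam F ⌊N.w1 * J⌋₊ ω).2.2 / 2 ^ (⌊N.w1 * J⌋₊ - ⌊N.w0 * J⌋₊)) =
      d.u' (slam F ⌊N.w0 * J⌋₊ ω) := fun ω => by rw [← slam_coarse F hw01 hw1J ω]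
  obtain ⟨mo, hmo⟩ : ∃ mo : d.V × d.U → ℝ, mo = fun v => max 1 (d.mkN v.1 v.2) := ⟨_, rfl⟩
  have hmo1 : ∀ v, 1 ≤ mo v := fun v => by
    rw [hmo]
    exact le_max_left _ _
  obtain ⟨τ, hτ⟩ : ∃ τ : d.V × d.U → ℝ, τ = fun v => mo v / (T * sc) := ⟨_, rfl⟩
  have hTs : 0 < T * sc := mul_pos (by linarith) hsc0
  have hev : ∀ (v : d.V × d.U) (x : ℕ → ℝ), eval x (dP d v) = d.dN v.1 v.2 x := by
    intro v x
    unfold dP MDat.dN
    rw [map_sub, map_mul, eval_C]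
  obtain ⟨B', k1, k2, k3⟩ := H d.gN (d.V × d.U) (fun ξ => (d.z ξ, d.u ξ))
    (fun s => (d.z' s, d.u' (s.1, s.2.1, s.2.2 / 2 ^ (⌊N.w1 * J⌋₊ - ⌊N.w0 * J⌋₊))))
    (fun v => d.P v.1) (dP d) τ
    (fun l hl => by
      rw [d.gN_eq l hl]
      exact d.num l (by omega))
    (fun v i => d.lab.deg v.1 i) (fun v => d.lab.tri v.1)
    (fun ω hω => Prod.ext (d.lab.cls ω (hBA ω hω)) ((d.clsU ω (hBA ω hω)).trans (hco ω).symm))
    (fun ω hω => d.lab.zero ω (hBA ω hω))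
    (fun ω hω i hi => d.lab3.pos ω (hBA ω hω) i hi)
    (fun v => by
      unfold dP
      refine (totalDegree_sub _ _).trans (max_le ?_ ?_)
      · refine (totalDegree_mul _ _).trans ?_
        rw [totalDegree_C, zero_add]
        exact (Pool.Agent.H50.PW.totalDegree_pderiv_le _ _).trans (d.lab3.deg v.1 4)
      · exact ((Pool.Agent.H50.PW.totalDegree_pderiv_le _ _).trans (d.aff v.2 4)).trans hK)
    (fun v => by
      unfold dP
      rw [sub_eq_add_neg]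
      refine (vars_add_subset _ _).trans (union_subset ?_ ?_)
      · refine (vars_mul _ _).trans (union_subset ?_ ?_)
        · rw [vars_C]
          exact empty_subset _
        · exact (Pool.PLA.vars_pd 3 _).trans (d.lab3.tri v.1 4)
      · rw [vars_neg]
        exact (Pool.PLA.vars_pd 3 _).trans (d.tri v.2 4))
    (fun v => by
      rw [hτ]
      exact div_pos (by linarith [hmo1 v]) hTs)
    (fun ω hω => by
      rw [hev, hτ, le_div_iff₀ hTs]
      rw [hB] at hω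
      have h1 := hω.2
      push Not at h1
      have h2 : T * (sc * |d.dN (d.z (ptr F J ω)) (d.u (ptr F J ω)) (px c (ptr F J ω))|) ≤
          T * max 1 (sc * |d.dN (d.z (ptr F J ω)) (d.u (ptr F J ω)) (px c (ptr F J ω))|) :=
        mul_le_mul_of_nonneg_left (le_max_right _ _) (by linarith)
      have h3 : mo (d.z (ptr F J ω), d.u (ptr F J ω)) = d.mo ω := by
        rw [hmo]
        rfl
      rw [h3]
      have h4 := h2.trans h1.le
      refine le_trans (le_of_eq ?_) h4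
      ring)
  -- a point of the half
  have hB'0 : 0 < Pe F.p B' := by
    have : Pe F.p B ≤ 2 * Pe F.p B' := k2
    linarith
  obtain ⟨ω, hω⟩ : ∃ ω, B' ω := by
    by_contra hno
    push Not at hno
    have h0 : Pe F.p B' = 0 := by
      rw [Pe_eq]
      exact Finset.sum_eq_zero fun ω _ => if_neg (hno ω)
    linarith
  have hωB := k1 ω hω
  obtain ⟨v, hv⟩ : ∃ v : d.V × d.U, v = (d.z (ptr F J ω), d.u (ptr F J ω)) := ⟨_, rfl⟩
  have hm : d.mo ω = mo v := by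
    rw [hmo, hv]
    rfl
  -- the loss is smaller than the gain
  have hexp : Real.exp (b / 4 * J) * 2 ≤ T := by
    have h1 := Nat.lt_floor_add_one (b * (J : ℝ))
    have l2 : 1 / 2 ≤ Real.log 2 := by
      have := Real.log_two_gt_d9
      linarith
    have e2 : T = Real.exp (⌊b * J⌋₊ * Real.log 2) := by
      rw [hT, ← Real.rpow_natCast, Real.rpow_def_of_pos (by norm_num), mul_comm]
    have e3 : (2 : ℝ) = Real.exp (Real.log 2) := (Real.exp_log (by norm_num)).symm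
    rw [e2]
    nth_rewrite 1 [e3]
    rw [← Real.exp_add]
    refine Real.exp_le_exp.2 ?_
    have h2 : (b * J - 1) * Real.log 2 ≤ ⌊b * J⌋₊ * Real.log 2 :=
      mul_le_mul_of_nonneg_right (by linarith) (by linarith)
    have h3 : b / 4 * J ≤ b / 2 * J * Real.log 2 := by
      have h4 : 0 ≤ b / 2 * J * (Real.log 2 - 1 / 2) := mul_nonneg (by positivity) (by linarith)
      linarith
    have h5 : 0 ≤ (b / 2 * J - 2) * Real.log 2 := mul_nonneg (by linarith) (by linarith)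
    linarith
  have hmk : d.mkN v.1 v.2 ≤ mo v / 2 := by
    have hm0 : 0 ≤ mo v / 2 := by linarith [hmo1 v]
    unfold MDat.mkN
    rw [← hsc]
    have h1 : sSup ((fun b => |d.dN v.1 v.2 b|) '' {b : ℕ → ℝ | CLO.Bxr 4
        (wid ⌊N.w1 * J⌋₊ d.gN) (d.P v.1) 4 b}) ≤ mo v / 2 / sc := by
      refine Real.sSup_le ?_ (by positivity)
      rintro _ ⟨x, hx, rfl⟩
      have h2 := k3 ω hω x (by
        rw [hv] at hx
        exact hx)
      rw [← hv, hev] at h2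
      refine h2.trans ?_
      rw [hτ]
      simp only
      rw [le_div_iff₀ hsc0]
      have h3 : Real.exp (b / 4 * J) * (mo v / (T * sc)) * sc =
          Real.exp (b / 4 * J) * mo v / T := by
        field_simp
      rw [h3, div_le_iff₀ (by linarith : (0 : ℝ) < T)]
      have h4 := mul_le_mul_of_nonneg_left hexp hm0
      linarith
    rw [le_div_iff₀ hsc0] at h1
    linarith
  have hmo2 : mo v = 1 := by
    have h1 : mo v = max 1 (d.mkN v.1 v.2) := by rw [hmo]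
    rcases le_total (d.mkN v.1 v.2) 1 with h2 | h2
    · rw [h1, max_eq_left h2]
    · exfalso
      rw [max_eq_right h2] at h1
      linarith [hmo1 v]
  rw [hB] at hωB
  refine hωB.2 ?_
  rw [hm, hmo2]
  exact one_le_mul_of_one_le_of_one_le hT1 (le_max_left _ _)

end Pool.MKS71
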