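import Pool.Agent.H71.MKC.Mar

/-!
# Natural coordinates of a chart with affine labels

`cht_of`: the chart of `mk_one` from a chart of four coordinates (`c 0`, `c 1` calm, `c 2` falling,
`c 3` the target). `lef_of`: the leaf of a sample from natural coefficients `lf`.
-/

set_option autoImplicit false

namespace Pool.MKC

open Finset Real MvPolynomial
open Pool.Agent.H49.Ent Pool.Agent.H32.Dense Pool.STK Pool.KA Pool.KSAT Pool.K2S Pool.PB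
  Pool.STAT Pool.GEN Pool.M3F Pool.KM7 Pool.S6C Pool.JPR Pool.JPN
open Pool.R2M (mk4h tbh C4h tbh_le bas dt)

variable {m J : ℕ} {F : Fam m J} {V₀ V₁ : Type}

/-- The rounded position is near the position. -/
theorem X_near (F : Fam m J) (ω : F.Ω) (j : Fin m) :
    |(F.X J ω j : ℝ) / 2 ^ J - F.x ω j| ≤ 1 / 2 ^ J := by
  have p1 : (0 : ℝ) < 2 ^ J := by positivity
  have h1 := Int.floor_le ((2 : ℝ) ^ J * F.x ω j)
  have h2 := Int.lt_floor_add_one ((2 : ℝ) ^ J * F.x ω j)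
  have h3 : (F.X J ω j : ℝ) = (⌊(2 : ℝ) ^ J * F.x ω j⌋ : ℤ) := rfl
  have e1 : (F.X J ω j : ℝ) / 2 ^ J - F.x ω j = ((F.X J ω j : ℝ) - 2 ^ J * F.x ω j) / 2 ^ J := by
    field_simp
  rw [e1, abs_div, abs_of_pos p1]
  refine div_le_div_of_nonneg_right ?_ p1.le
  rw [h3, abs_le]
  constructor <;> linarith

/-- **The chart in natural coordinates.** -/
theorem cht_of {A : F.Ω → Prop} {c : ℕ → Fin m} {w₀ w₁ sg L R h : ℕ}
    {P : V₀ → ℕ → PN} {z₀ : PtT F → V₀} {z₀' : LnT F → V₀} {z₁ : PtT F → V₁}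
    {z₁' : LnT F → V₁} {g : ℕ → ℕ} (tri : ∀ v, TriN (P v))
    (cl0 : ∀ ω, A ω → z₀ (ptr F J ω) = z₀' (slam F w₀ ω))
    (cl1 : ∀ ω, A ω → z₁ (ptr F J ω) = z₁' (slam F w₁ ω))
    (pos : ∀ ω, A ω → ∀ i < 4, |ntc F c P z₀ ω i| ≤ 1 / 2 ^ g i)
    (dep : ∀ i < 3, g i + L ≤ J) (RL : R ≤ L) (h3 : g 3 + R + 1 ≤ J + h) :
    Cht F A c (c 3) 2 w₀ w₁ sg (sg + g 3) L R h P z₀ z₀' z₁ z₁' g
      (fun ω i => nat F c P z₀ g ω i) := by
  have p1 : (1 : ℝ) ≤ 2 ^ h := one_le_pow₀ (by norm_num)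
  refine ⟨tri, cl0, cl1, fun ω hω i hi => pos ω hω i (by omega), fun i => dep i i.2, RL,
    fun _ _ => rfl, fun _ _ => rfl, fun _ _ => rfl,
    fun ω hω j => (nat_le (pos ω hω j j.2)).trans p1, ?_⟩
  intro ω ω' _ _ hX hz hT
  have hlow : ∀ j < 3, F.X J ω (c j) = F.X J ω' (c j) := fun j hj => hX ⟨j, hj⟩
  have e1 : eval (px c (ptr F J ω)) (P (z₀ (ptr F J ω)) (3 + 1)) =
      eval (px c (ptr F J ω')) (P (z₀ (ptr F J ω')) (3 + 1)) := by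
    rw [hz]
    exact eval_px (tri _ _) hT hlow
  have e2 : nat F c P z₀ g ω 3 - nat F c P z₀ g ω' 3 =
      2 ^ g 3 * ((F.X J ω (c 3) : ℝ) / 2 ^ J - (F.X J ω' (c 3) : ℝ) / 2 ^ J) := by
    unfold nat ntc
    rw [e1, px_succ, px_succ]
    change _ = (2 : ℝ) ^ g 3 * (((ptr F J ω).1 (c 3) : ℝ) / 2 ^ J -
      ((ptr F J ω').1 (c 3) : ℝ) / 2 ^ J)
    ring
  have e3 : (2 : ℝ) ^ (sg + g 3) * (F.x ω (c 3) / 2 ^ sg - F.x ω' (c 3) / 2 ^ sg) =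
      2 ^ g 3 * (F.x ω (c 3) - F.x ω' (c 3)) := by
    rw [pow_add]
    field_simp
  change |nat F c P z₀ g ω 3 - nat F c P z₀ g ω' 3 -
    2 ^ (sg + g 3) * (F.x ω (c 3) / 2 ^ sg - F.x ω' (c 3) / 2 ^ sg)| ≤ 2 ^ h / 2 ^ R
  rw [e2, e3, ← mul_sub, abs_mul, abs_of_pos (by positivity : (0 : ℝ) < 2 ^ g 3)]
  have a1 := X_near F ω (c 3)
  have a2 := X_near F ω' (c 3)
  have a3 : |(F.X J ω (c 3) : ℝ) / 2 ^ J - (F.X J ω' (c 3) : ℝ) / 2 ^ J -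
      (F.x ω (c 3) - F.x ω' (c 3))| ≤ 2 / 2 ^ J := by
    have e4 : (2 : ℝ) / 2 ^ J = 1 / 2 ^ J + 1 / 2 ^ J := by ring
    rw [e4]
    rw [abs_le] at a1 a2 ⊢
    constructor <;> linarith [a1.1, a1.2, a2.1, a2.2]
  refine (mul_le_mul_of_nonneg_left a3 (by positivity)).trans ?_
  rw [mul_div_assoc', div_le_div_iff₀ (by positivity) (by positivity)]
  have e5 : (2 : ℝ) ^ g 3 * 2 * 2 ^ R = 2 ^ (g 3 + R + 1) := by
    rw [pow_add, pow_add]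
    ring
  have e6 : (2 : ℝ) ^ h * 2 ^ J = 2 ^ (J + h) := by
    rw [pow_add]
    ring
  rw [e5, e6]
  exact pow_le_pow_right₀ (by norm_num) h3

/-- The value of a leaf: constant, time, two base coordinates. -/
def lev (q : Fin 4 → ℝ) (τ y z : ℝ) : ℝ := q 0 + q 1 * τ + q 2 * y + q 3 * z

/-- The slopes of the leaf with the natural coefficients `q` (`q 0`: the falling coordinate, `q 1`:
the target). -/
def slo (q : Fin 2 → Fin 4 → ℝ) (b j : Fin 2) : ℝ := ![q j 2, q j 3] b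

/-- **The leaf of a sample.** -/
theorem lef_of {c : ℕ → Fin m} {w₀ w₁ L R h : ℕ}
    {P : V₀ → ℕ → PN} {z₀ : PtT F → V₀} {z₀' : LnT F → V₀}
    {z₁' : LnT F → V₁} {g : ℕ → ℕ} {x : F.Ω → Fin 4 → ℝ} {Gd : C8 F.Ω → Prop} {i : Fin 6}
    (lf : V₁ → V₀ → Fin 2 → Fin 4 → ℝ) (nt : ℕ → ℝ)
    (sz : ∀ e, Gd e → ∀ j l, |lf (z₁' (slam F w₁ (smp e i))) (z₀' (slam F w₀ e.1.1.1)) j l| ≤ 2 ^ h)
    (lv : ∀ e, Gd e → |x e.1.1.1 2 - lev (lf (z₁' (slam F w₁ (smp e i)))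
      (z₀' (slam F w₀ e.1.1.1)) 0) (nt (F.T e.1.1.1)) (x e.1.1.1 0) (x e.1.1.1 1)| ≤ 2 ^ h / 2 ^ L)
    (ln : ∀ e, Gd e → |x e.1.1.1 3 - lev (lf (z₁' (slam F w₁ (smp e i)))
      (z₀' (slam F w₀ e.1.1.1)) 1) (nt (F.T e.1.1.1)) (x e.1.1.1 0) (x e.1.1.1 1)| ≤
        2 ^ h / 2 ^ R) :
    Lef F c L R h w₀ w₁ P z₀ z₀' z₁' g x Gd i
      (fun e => slo (lf (z₁' (slam F w₁ (smp e i))) (z₀' (slam F w₀ e.1.1.1))))
      (fun e j => lf (z₁' (slam F w₁ (smp e i))) (z₀' (slam F w₀ e.1.1.1)) j 0 +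
        lf (z₁' (slam F w₁ (smp e i))) (z₀' (slam F w₀ e.1.1.1)) j 1 * nt (F.T e.1.1.1)) := by
  refine ⟨fun e e' _ _ h1 h2 => ?_, fun e he b j => ?_, fun e he => ?_, fun e he => ?_⟩
  · have a1 : z₀' (slam F w₀ e.1.1.1) = z₀' (slam F w₀ e'.1.1.1) :=
      (Prod.ext_iff.1 (Prod.ext_iff.1 h2).2).1
    have a2 : F.T e.1.1.1 = F.T e'.1.1.1 :=
      (Prod.ext_iff.1 (Prod.ext_iff.1 (Prod.ext_iff.1 h2).1).1).1
    exact ⟨by simp only [h1, a1], by simp only [h1, a1, a2]⟩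
  · fin_cases b
    · exact sz e he j 2
    · exact sz e he j 3
  · have a1 := lv e he
    unfold lev at a1
    refine le_trans (le_of_eq ?_) a1
    congr 1
    change _ - (_ + _) - (lf _ _ 0 2 * _ + lf _ _ 0 3 * _) = _
    ring
  · have a1 := ln e he
    unfold lev at a1
    refine le_trans (le_of_eq ?_) a1
    congr 1
    change _ - (_ + _) - (lf _ _ 1 2 * _ + lf _ _ 1 3 * _) = _
    ring

end Pool.MKC
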