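import Pool.Agent.H3.PM.Dat
import Pool.Agent.H93.PM.Afl
import Pool.Agent.H71.MKC.Cho

/-!
# The slopes of the height are not too large

`mkS`: if the triple of the coordinates `c 0, c 1, c 2` is exact at the window `w₀`, then the slopes
of the affine chart of the height, in the direction of `c 2`, are at most `2 ^ (2 J)` on half of
each member; with the bounds of the gradients of the labels this gives `MkS`.
-/

set_option autoImplicit false

namespace Pool.MKS71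

open Finset Real MvPolynomial
open Pool.Agent.H49.Ent Pool.Agent.H32.Dense Pool.STK Pool.KA Pool.KSAT Pool.K2S Pool.PB
  Pool.STAT Pool.GEN Pool.M3F Pool.KM7 Pool.S6C Pool.JPN Pool.PM
open Pool.PM93 (afp eval_afp IsAf)
open Pool.MKC (X_near)

variable {m J : ℕ}

/-- The slope of an affine polynomial. -/
theorem aff_slope {Q : PN} (hd : Q.totalDegree ≤ 1) (hv : Q.vars ⊆ range 4) :
    (∀ b : ℕ → ℝ, eval b (pderiv 3 Q) = eval 0 (pderiv 3 Q)) ∧ ∀ x y : ℕ → ℝ,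
      (∀ i < 3, x i = y i) → eval x Q - eval y Q = eval 0 (pderiv 3 Q) * (x 3 - y 3) := by
  obtain ⟨α, rfl⟩ := IsAf.eq (i := 3) ⟨hd, hv⟩
  have e1 : ∀ b : ℕ → ℝ, eval b (pderiv 3 (afp 3 α)) = α 4 := by
    intro b
    unfold afp
    simp only [Finset.sum_range_succ, Finset.sum_range_zero, map_add, Derivation.leibniz,
      pderiv_C, pderiv_X, map_zero, smul_eq_mul, map_mul, eval_C, eval_X, zero_add]
    simp
  refine ⟨fun b => by rw [e1, e1], fun x y h => ?_⟩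
  rw [e1, eval_afp, eval_afp]
  simp only [Finset.sum_range_succ, Finset.sum_range_zero]
  rw [h 0 (by norm_num), h 1 (by norm_num), h 2 (by norm_num)]
  ring

section mem

variable {N : MNum} {φ : ℝ} {K D : ℕ} {F : Fam m J} {c : ℕ → Fin m} {A : F.Ω → Prop}

/-- The slope of the affine chart of the height. -/
noncomputable def sQ (d : MDat N φ K D F c A) (v : d.U) : ℝ := eval 0 (pderiv 3 (d.Q v 4))

/-- **The size of the slopes**, if the slope of the chart is bounded. -/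
theorem mk_up (d : MDat N φ K D F c A) (hφ0 : 0 ≤ φ) (hφ : φ ≤ 1 / 10) (hJ : 1 ≤ J) {ω : F.Ω}
    (hω : A ω) (hs : |sQ d (d.u (ptr F J ω))| ≤ 2 ^ (2 * J)) :
    d.mo ω ≤ 2 ^ ⌊(|N.β 3| + |N.sN| + 5) * J⌋₊ := by
  have hJ1 : (1 : ℝ) ≤ J := by exact_mod_cast hJ
  have hL := d.L0
  have hl2 : 1 / 2 ≤ Real.log 2 := by
    have := Real.log_two_gt_d9
    linarith
  have hl2' : Real.log 2 ≤ 1 := by
    have := Real.log_two_lt_d9
    linarith
  have hl0 : 0 < Real.log 2 := by linarith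
  have e2 : ∀ n : ℕ, (2 : ℝ) ^ n = Real.exp (n * Real.log 2) := by
    intro n
    rw [mul_comm, Real.exp_mul, Real.exp_log (by norm_num), Real.rpow_natCast]
  -- the parts
  have hLe : d.L ≤ Real.exp (φ * J) := by
    have h1 : d.L < 1 + d.L := by linarith
    have h2 : (0 : ℝ) < 1 + d.L := by linarith
    have h3 := Real.exp_le_exp.2 d.L1
    rw [Real.exp_log h2] at h3
    linarith
  have hg : (d.gU 3 : ℝ) ≤ (|N.β 3| + φ) * J := by
    have h1 := (abs_le.1 d.numUN).2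
    have h2 : N.β 3 * J ≤ |N.β 3| * J := mul_le_mul_of_nonneg_right (le_abs_self _) (by linarith)
    linarith
  have hs' : ((⌊N.sN * J⌋₊ : ℕ) : ℝ) ≤ |N.sN| * J := by
    have h2 : N.sN * J ≤ |N.sN| * J := mul_le_mul_of_nonneg_right (le_abs_self _) (by linarith)
    exact (Nat.cast_le.2 (Nat.floor_le_floor h2)).trans
      (Nat.floor_le (mul_nonneg (abs_nonneg _) (by linarith)))
  obtain ⟨M, hM⟩ : ∃ M : ℝ, M = Real.exp ((|N.sN| + 2) * J * Real.log 2 + φ * J) := ⟨_, rfl⟩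
  have hM0 : 0 < M := by
    rw [hM]
    exact Real.exp_pos _
  have hM1 : (2 : ℝ) ^ ⌊N.sN * J⌋₊ * d.L ≤ M := by
    have h1 : (2 : ℝ) ^ ⌊N.sN * J⌋₊ * d.L ≤
        Real.exp (⌊N.sN * J⌋₊ * Real.log 2) * Real.exp (φ * J) := by
      rw [e2]
      exact mul_le_mul_of_nonneg_left hLe (Real.exp_pos _).le
    refine h1.trans ?_
    rw [← Real.exp_add, hM]
    refine Real.exp_le_exp.2 ?_
    have h2 := mul_le_mul_of_nonneg_right hs' hl0.le
    have h3 : 0 ≤ 2 * J * Real.log 2 := by positivity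
    linarith
  have hM2 : (2 : ℝ) ^ (2 * J) ≤ M := by
    rw [e2, hM]
    refine Real.exp_le_exp.2 ?_
    push_cast
    have h3 : 0 ≤ |N.sN| * J * Real.log 2 := by positivity
    have h4 : 0 ≤ φ * J := by positivity
    linarith
  have hsup : d.mkN (d.z (ptr F J ω)) (d.u (ptr F J ω)) ≤ 2 ^ d.gU 3 / 2 ^ d.gU 2 * (2 * M) := by
    unfold MDat.mkN
    refine mul_le_mul_of_nonneg_left (Real.sSup_le ?_ (by positivity)) (by positivity)
    rintro _ ⟨b, hb, rfl⟩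
    simp only
    have h1 := d.lab3.grad ω hω b hb 4 (by norm_num) 3 (by norm_num)
    have h2 := (aff_slope (d.aff (d.u (ptr F J ω)) 4) (d.tri _ 4)).1 b
    unfold MDat.dN
    rw [h2]
    have h3 : |(2 : ℝ) ^ ⌊N.sN * J⌋₊ * eval b (pderiv 3 (d.P (d.z (ptr F J ω)) 4))| ≤
        2 ^ ⌊N.sN * J⌋₊ * d.L := by
      rw [abs_mul, abs_of_pos (by positivity : (0 : ℝ) < 2 ^ ⌊N.sN * J⌋₊)]
      exact mul_le_mul_of_nonneg_left h1 (by positivity)
    refine (abs_sub _ _).trans ?_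
    unfold sQ at hs
    linarith
  -- the numbers
  obtain ⟨T, hT⟩ : ∃ T : ℝ, T = (2 : ℝ) ^ ⌊(|N.β 3| + |N.sN| + 5) * J⌋₊ := ⟨_, rfl⟩
  have hR : (0 : ℝ) ≤ (|N.β 3| + |N.sN| + 5) * J := by positivity
  have hT1 : 2 ^ d.gU 3 * (2 * M) ≤ T := by
    have h1 := Nat.lt_floor_add_one ((|N.β 3| + |N.sN| + 5) * (J : ℝ))
    have h2 : (2 : ℝ) = Real.exp (Real.log 2) := (Real.exp_log (by norm_num)).symm
    rw [hT, hM, e2, e2]
    have h3 : Real.exp (d.gU 3 * Real.log 2) * (2 * Real.exp ((|N.sN| + 2) * J * Real.log 2 +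
        φ * J)) = Real.exp (d.gU 3 * Real.log 2 + (Real.log 2 + ((|N.sN| + 2) * J * Real.log 2 +
        φ * J))) := by
      rw [Real.exp_add (d.gU 3 * Real.log 2), Real.exp_add (Real.log 2),
        Real.exp_log (by norm_num)]
    rw [h3]
    refine Real.exp_le_exp.2 ?_
    have h4 := mul_le_mul_of_nonneg_right hg hl0.le
    have h5 : φ * J ≤ 2 * φ * J * Real.log 2 := by
      have : 0 ≤ φ * J * (2 * Real.log 2 - 1) := mul_nonneg (by positivity) (by linarith)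
      linarith
    have h6 : ((|N.β 3| + |N.sN| + 5) * J - 1) * Real.log 2 ≤
        (⌊(|N.β 3| + |N.sN| + 5) * J⌋₊ : ℝ) * Real.log 2 :=
      mul_le_mul_of_nonneg_right (by linarith) hl0.le
    have h7 : 0 ≤ (3 - 3 * φ) * J - 2 := by nlinarith
    have h8 := mul_nonneg h7 hl0.le
    linarith
  have hT0 : (1 : ℝ) ≤ T := by
    rw [hT]
    exact one_le_pow₀ (by norm_num)
  unfold MDat.mo
  rw [← hT]
  refine max_le hT0 (hsup.trans (le_trans ?_ hT1))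
  refine mul_le_mul_of_nonneg_right (div_le_self (by positivity) (one_le_pow₀ (by norm_num)))
    (by positivity)

/-- The number of the values of a digit in an interval. -/
theorem log_box {g J : ℕ} {β φ : ℝ} (hβ : β ≤ 1) (hφ : 0 ≤ φ) (hg : |(g : ℝ) - β * J| ≤ φ * J) :
    Real.log (2 * (2 ^ J * (2 / 2 ^ g)) + 1) ≤ (1 - β + φ) * J * Real.log 2 + Real.log 5 := by
  have hJ0 : (0 : ℝ) ≤ J := Nat.cast_nonneg J
  have hl0 : 0 < Real.log 2 := Real.log_pos one_lt_two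
  have e2 : ∀ n : ℕ, (2 : ℝ) ^ n = Real.exp (n * Real.log 2) := by
    intro n
    rw [mul_comm, Real.exp_mul, Real.exp_log (by norm_num), Real.rpow_natCast]
  obtain ⟨E, hE⟩ : ∃ E : ℝ, E = Real.exp ((1 - β + φ) * J * Real.log 2) := ⟨_, rfl⟩
  have h1 : (1 : ℝ) ≤ E := by
    rw [hE]
    exact Real.one_le_exp (mul_nonneg (mul_nonneg (by linarith) hJ0) hl0.le)
  have h2 : (2 : ℝ) ^ J / 2 ^ g ≤ E := by
    rw [e2, e2, ← Real.exp_sub, hE]
    refine Real.exp_le_exp.2 ?_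
    have := (abs_le.1 hg).1
    have h3 := mul_le_mul_of_nonneg_right (show (J : ℝ) - g ≤ (1 - β + φ) * J by linarith) hl0.le
    linarith
  have h3 : 2 * ((2 : ℝ) ^ J * (2 / 2 ^ g)) + 1 ≤ 5 * E := by
    have h4 : 2 * ((2 : ℝ) ^ J * (2 / 2 ^ g)) = 4 * (2 ^ J / 2 ^ g) := by ring
    rw [h4]
    linarith
  refine (Real.log_le_log (by positivity) h3).trans (le_of_eq ?_)
  rw [Real.log_mul (by norm_num) (by linarith), hE, Real.log_exp]
  ring

/-- A coordinate of the chart given the coordinates before it. -/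
theorem X_box (d : MDat N φ K D F c A) {ω ω' : F.Ω} (hω : A ω) (hω' : A ω') {i : ℕ} (hi : i < 3)
    (hu : d.u' (slam F ⌊N.w0 * J⌋₊ ω) = d.u' (slam F ⌊N.w0 * J⌋₊ ω')) (hT : F.T ω = F.T ω')
    (hX : ∀ j < i, F.X J ω (c j) = F.X J ω' (c j)) :
    |((F.X J ω (c i) - F.X J ω' (c i) : ℤ) : ℝ)| ≤ 2 ^ J * (2 / 2 ^ d.gU i) := by
  have hu' : d.u (ptr F J ω) = d.u (ptr F J ω') := by
    rw [d.clsU ω hω, d.clsU ω' hω', hu]
  have a1 := d.posU ω hω i hi
  have a2 := d.posU ω' hω' i hi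
  have e1 : eval (px c (ptr F J ω)) (d.Q (d.u (ptr F J ω)) (i + 1)) =
      eval (px c (ptr F J ω')) (d.Q (d.u (ptr F J ω')) (i + 1)) := by
    rw [hu']
    exact eval_px (d.tri _ _) hT hX
  unfold ntc at a1 a2
  rw [e1] at a1
  have e2 : px c (ptr F J ω) (i + 1) = (F.X J ω (c i) : ℝ) / 2 ^ J := px_succ c _ i
  have e3 : px c (ptr F J ω') (i + 1) = (F.X J ω' (c i) : ℝ) / 2 ^ J := px_succ c _ i
  rw [e2] at a1
  rw [e3] at a2
  have p1 : (0 : ℝ) < 2 ^ J := by positivity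
  have a3 : |(F.X J ω (c i) : ℝ) / 2 ^ J - (F.X J ω' (c i) : ℝ) / 2 ^ J| ≤ 2 / 2 ^ d.gU i := by
    have e4 : (2 : ℝ) / 2 ^ d.gU i = 1 / 2 ^ d.gU i + 1 / 2 ^ d.gU i := by ring
    rw [e4]
    rw [abs_le] at a1 a2 ⊢
    constructor <;> linarith [a1.1, a1.2, a2.1, a2.2]
  have e5 : ((F.X J ω (c i) - F.X J ω' (c i) : ℤ) : ℝ) =
      2 ^ J * ((F.X J ω (c i) : ℝ) / 2 ^ J - (F.X J ω' (c i) : ℝ) / 2 ^ J) := by
    push_cast
    field_simp
  rw [e5, abs_mul, abs_of_pos p1]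
  exact mul_le_mul_of_nonneg_left a3 p1.le

/-- **Large slopes of the height** confine the third coordinate. -/
theorem big_up (d : MDat N φ K D F c A) (hφ0 : 0 ≤ φ) (hJ : 4 ≤ J) (h0 : N.β 0 ≤ 1)
    (h1 : N.β 1 ≤ 1) (hx : ∀ ω i, |F.x ω i| ≤ 2) {B : F.Ω → Prop} (hB : 0 < Pe F.p B)
    (hBA : Sub B A) (hs : ∀ ω, B ω → 2 ^ (2 * J) < |sQ d (d.u (ptr F J ω))|) :
    CH (Pool.Agent.H49.Ent.cond F.p B True) (fun ω (i : Fin 3) => F.X J ω (c i))
      (fun ω => (d.u' (slam F ⌊N.w0 * J⌋₊ ω), F.W ω)) ≤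
      ((1 - N.β 0 + φ) * J * Real.log 2 + Real.log 5) +
        ((1 - N.β 1 + φ) * J * Real.log 2 + Real.log 5) := by
  obtain ⟨q, hq⟩ : ∃ q, q = Pool.Agent.H49.Ent.cond F.p B True := ⟨_, rfl⟩
  have hql : IsLaw q := by
    rw [hq]
    exact isLaw_cond F.isLaw hB
  have hsup : ∀ ω, 0 < q ω → B ω := by
    intro ω h
    rw [hq, cond_pos_iff F.isLaw.nonneg] at h
    exact of_eq_true h.2
  rw [← hq]
  obtain ⟨Z, hZ⟩ : ∃ Z : F.Ω → _, Z = fun ω => (d.u' (slam F ⌊N.w0 * J⌋₊ ω), F.W ω) := ⟨_, rfl⟩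
  rw [← hZ]
  have hZ1 : ∀ ω ω', Z ω = Z ω' → d.u' (slam F ⌊N.w0 * J⌋₊ ω) = d.u' (slam F ⌊N.w0 * J⌋₊ ω') ∧
      F.T ω = F.T ω' := by
    intro ω ω' h
    rw [hZ] at h
    have h2 := Prod.ext_iff.1 h
    exact ⟨h2.1, (Prod.ext_iff.1 h2.2).1⟩
  have q0 := hql.nonneg
  have c1 := CH_le_add q0 (fun ω (i : Fin 3) => F.X J ω (c i)) (fun ω => F.X J ω (c 0)) Z
  have c2 := CH_le_add q0 (fun ω (i : Fin 3) => F.X J ω (c i)) (fun ω => F.X J ω (c 1))
    (fun ω => (F.X J ω (c 0), Z ω))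
  have b1 : CH q (fun ω => F.X J ω (c 0)) Z ≤ (1 - N.β 0 + φ) * J * Real.log 2 + Real.log 5 := by
    refine (CH_le_int q0 hql.sum_one _ _ (fun _ => 2 ^ J * (2 / 2 ^ d.gU 0))
      fun ω ω' h h' hZZ => ?_).trans ?_
    · obtain ⟨k1, k2⟩ := hZ1 _ _ hZZ
      exact X_box d (hBA _ (hsup _ h)) (hBA _ (hsup _ h')) (by norm_num) k1 k2
        (fun j hj => absurd hj (Nat.not_lt_zero j))
    · rw [Ex_const hql.sum_one]
      exact log_box h0 hφ0 (d.numU 0 (by norm_num))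
  have b2 : CH q (fun ω => F.X J ω (c 1)) (fun ω => (F.X J ω (c 0), Z ω)) ≤
      (1 - N.β 1 + φ) * J * Real.log 2 + Real.log 5 := by
    refine (CH_le_int q0 hql.sum_one _ _ (fun _ => 2 ^ J * (2 / 2 ^ d.gU 1))
      fun ω ω' h h' hZZ => ?_).trans ?_
    · obtain ⟨k1, k2⟩ := hZ1 _ _ (Prod.ext_iff.1 hZZ).2
      refine X_box d (hBA _ (hsup _ h)) (hBA _ (hsup _ h')) (by norm_num) k1 k2 fun j hj => ?_
      have e1 : j = 0 := by omega
      subst e1
      exact (Prod.ext_iff.1 hZZ).1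
    · rw [Ex_const hql.sum_one]
      exact log_box h1 hφ0 (d.numU 1 (by norm_num))
  have b3 : CH q (fun ω (i : Fin 3) => F.X J ω (c i))
      (fun ω => (F.X J ω (c 1), (F.X J ω (c 0), Z ω))) = 0 := by
    refine CH_eq_zero q0 fun ω ω' h h' hZZ => ?_
    have hX1 : F.X J ω (c 1) = F.X J ω' (c 1) := (Prod.ext_iff.1 hZZ).1
    have hX0 : F.X J ω (c 0) = F.X J ω' (c 0) :=
      (Prod.ext_iff.1 (Prod.ext_iff.1 hZZ).2).1
    obtain ⟨k1, k2⟩ := hZ1 _ _ (Prod.ext_iff.1 (Prod.ext_iff.1 hZZ).2).2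
    have hω := hBA _ (hsup _ h)
    have hω' := hBA _ (hsup _ h')
    have hu' : d.u (ptr F J ω) = d.u (ptr F J ω') := by
      rw [d.clsU ω hω, d.clsU ω' hω', k1]
    have hpx : ∀ i < 3, px c (ptr F J ω) i = px c (ptr F J ω') i := by
      intro i hi
      unfold px
      by_cases h0 : i = 0
      · rw [if_pos h0, if_pos h0]
        change ((F.T ω : ℕ) : ℝ) / 2 ^ J = ((F.T ω' : ℕ) : ℝ) / 2 ^ J
        rw [k2]
      · rw [if_neg h0, if_neg h0]
        change ((F.X J ω (c (i - 1)) : ℤ) : ℝ) / 2 ^ J = ((F.X J ω' (c (i - 1)) : ℤ) : ℝ) / 2 ^ J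
        have h3 : i - 1 = 0 ∨ i - 1 = 1 := by omega
        rcases h3 with h3 | h3
        · rw [h3, hX0]
        · rw [h3, hX1]
    have hsl := (aff_slope (d.aff (d.u (ptr F J ω)) 4) (d.tri _ 4)).2 _ _ hpx
    have hpos : ∀ ω₁ : F.Ω, A ω₁ → d.u (ptr F J ω₁) = d.u (ptr F J ω) →
        |eval (px c (ptr F J ω₁)) (d.Q (d.u (ptr F J ω)) 4)| ≤ 4 := by
      intro ω₁ h₁ hu₁
      have a1 := d.posN ω₁ h₁
      unfold ntc at a1
      rw [hu₁] at a1
      have a2 : (1 : ℝ) / 2 ^ d.gU 3 ≤ 1 := by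
        rw [div_le_one (by positivity)]
        exact one_le_pow₀ (by norm_num)
      have a3 := X_near F ω₁ (c 3)
      have a4 : (1 : ℝ) / 2 ^ J ≤ 1 := by
        rw [div_le_one (by positivity)]
        exact one_le_pow₀ (by norm_num)
      have a5 := hx ω₁ (c 3)
      have e2 : px c (ptr F J ω₁) (3 + 1) = (F.X J ω₁ (c 3) : ℝ) / 2 ^ J := px_succ c _ 3
      rw [e2] at a1
      change |_ - eval (px c (ptr F J ω₁)) (d.Q (d.u (ptr F J ω)) 4)| ≤ _ at a1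
      rw [abs_le] at a1 a3 a5 ⊢
      constructor <;> linarith [a1.1, a1.2, a3.1, a3.2, a5.1, a5.2]
    have g1 := hpos ω hω rfl
    have g2 := hpos ω' hω' hu'.symm
    have g3 := hs ω (hsup _ h)
    have e4 : px c (ptr F J ω) 3 = (F.X J ω (c 2) : ℝ) / 2 ^ J := px_succ c _ 2
    have e5 : px c (ptr F J ω') 3 = (F.X J ω' (c 2) : ℝ) / 2 ^ J := px_succ c _ 2
    have g4 : |sQ d (d.u (ptr F J ω))| *
        |(F.X J ω (c 2) : ℝ) / 2 ^ J - (F.X J ω' (c 2) : ℝ) / 2 ^ J| ≤ 8 := by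
      rw [← abs_mul]
      unfold sQ
      rw [← e4, ← e5, ← hsl]
      rw [abs_le] at g1 g2 ⊢
      constructor <;> linarith [g1.1, g1.2, g2.1, g2.2]
    have hX2 : F.X J ω (c 2) = F.X J ω' (c 2) := by
      by_contra hne
      have p1 : (0 : ℝ) < 2 ^ J := by positivity
      have n1 : (1 : ℝ) ≤ |((F.X J ω (c 2) - F.X J ω' (c 2) : ℤ) : ℝ)| := by
        rw [← Int.cast_abs]
        exact_mod_cast Int.one_le_abs (sub_ne_zero.2 hne)
      have n2 : |(F.X J ω (c 2) : ℝ) / 2 ^ J - (F.X J ω' (c 2) : ℝ) / 2 ^ J| =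
          |((F.X J ω (c 2) - F.X J ω' (c 2) : ℤ) : ℝ)| / 2 ^ J := by
        rw [← sub_div, abs_div, abs_of_pos p1]
        push_cast
        rfl
      rw [n2, mul_div_assoc', div_le_iff₀ p1] at g4
      have n3 : (2 : ℝ) ^ (2 * J) < 8 * 2 ^ J := by
        have h5 : |sQ d (d.u (ptr F J ω))| ≤ |sQ d (d.u (ptr F J ω))| *
            |((F.X J ω (c 2) - F.X J ω' (c 2) : ℤ) : ℝ)| :=
          le_mul_of_one_le_right (abs_nonneg _) n1
        linarith
      have n4 : (2 : ℝ) ^ (2 * J) = 2 ^ J * 2 ^ J := by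
        rw [two_mul, pow_add]
      have n5 : (16 : ℝ) ≤ 2 ^ J := by
        have h6 : (2 : ℝ) ^ 4 ≤ 2 ^ J := pow_le_pow_right₀ (by norm_num) hJ
        norm_num at h6
        linarith
      rw [n4] at n3
      nlinarith
    funext i
    fin_cases i
    · exact hX0
    · exact hX1
    · exact hX2
  rw [b3] at c2
  linarith

end mem

/-- **The slopes of the height are not too large.** -/
theorem mkS {S : PCl m}
    (hpos : ∀ (τ : ℝ) (J : ℕ) (F : Fam m J) (A : F.Ω → Prop), S.St τ J F A → 0 < Pe F.p A)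
    (hx : ∀ (τ : ℝ) (J : ℕ) (F : Fam m J) (A : F.Ω → Prop), S.St τ J F A →
      ∀ ω i, |F.x ω i| ≤ 2)
    {c : ℕ → Fin m} {N : MNum} {K D : ℕ} {bb : ℝ}
    (hex : ExvY S N.w0 (fun J F ω (i : Fin 3) => F.X J ω (c i)) bb) (h0 : N.β 0 ≤ 1)
    (h1 : N.β 1 ≤ 1) (hb : (1 - N.β 0) + (1 - N.β 1) < bb) :
    MkS S c N K D (|N.β 3| + |N.sN| + 5) := by
  obtain ⟨τ₁, hτ₁, J₁, hex⟩ := hex
  have hl0 : 0 < Real.log 2 := Real.log_pos one_lt_two
  obtain ⟨δ, hδ⟩ : ∃ δ, δ = bb - ((1 - N.β 0) + (1 - N.β 1)) := ⟨_, rfl⟩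
  have hδ0 : 0 < δ := by
    rw [hδ]
    linarith
  obtain ⟨φ, hφ⟩ : ∃ φ, φ = min (1 / 10) (δ / 8) := ⟨_, rfl⟩
  have hφ0 : 0 < φ := by
    rw [hφ]
    exact lt_min (by norm_num) (by positivity)
  have hφ1 : φ ≤ 1 / 10 := by
    rw [hφ]
    exact min_le_left _ _
  have hφδ : φ ≤ δ / 8 := by
    rw [hφ]
    exact min_le_right _ _
  obtain ⟨J₂, hJ₂⟩ := exists_nat_gt (Real.log 2 / (τ₁ / 2))
  obtain ⟨J₃, hJ₃⟩ := exists_nat_gt (4 * Real.log 5 / (δ * Real.log 2))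
  refine ⟨φ, hφ0, τ₁ / 2, by positivity, max (max J₁ J₂) (max J₃ 4), ?_⟩
  intro J hJ F A hA d
  have k1 : J₁ ≤ J := (le_max_left _ _).trans ((le_max_left _ _).trans hJ)
  have k2 : (J₂ : ℝ) ≤ J := by
    exact_mod_cast (le_max_right J₁ J₂).trans ((le_max_left _ _).trans hJ)
  have k3 : (J₃ : ℝ) ≤ J := by
    exact_mod_cast (le_max_left J₃ 4).trans ((le_max_right _ _).trans hJ)
  have k4 : 4 ≤ J := (le_max_right J₃ 4).trans ((le_max_right _ _).trans hJ)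
  have k5 : (4 : ℝ) ≤ J := by exact_mod_cast k4
  by_contra hcon
  push Not at hcon
  obtain ⟨B, hB⟩ : ∃ B : F.Ω → Prop, B = fun ω => A ω ∧
    ¬ d.mo ω ≤ 2 ^ ⌊(|N.β 3| + |N.sN| + 5) * J⌋₊ := ⟨_, rfl⟩
  have hPA := hpos _ J F A hA
  have hPB : Pe F.p A / 2 ≤ Pe F.p B := by
    have h2 := Pe_spl F.p A (fun ω => d.mo ω ≤ 2 ^ ⌊(|N.β 3| + |N.sN| + 5) * J⌋₊)
    rw [hB]
    linarith
  have hBA : Sub B A := fun ω h => by
    rw [hB] at h
    exact h.1
  have hSB : S.St τ₁ J F B := by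
    have h2 := S.res (τ := τ₁ / 2) (τ' := τ₁ / 2) (by positivity) hA hBA (by
      refine le_trans ?_ hPB
      have h3 : Real.log 2 / (τ₁ / 2) ≤ J := (hJ₂.trans_le k2).le
      rw [div_le_iff₀ (by positivity)] at h3
      have h4 : Real.exp (-(τ₁ / 2 * J)) ≤ 1 / 2 := by
        have h5 : -(τ₁ / 2 * (J : ℝ)) ≤ Real.log (1 / 2) := by
          rw [one_div, Real.log_inv]
          linarith
        exact (Real.exp_le_exp.2 h5).trans (Real.exp_log (by norm_num)).le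
      have h6 := mul_le_mul_of_nonneg_right h4 hPA.le
      linarith)
    rwa [add_halves] at h2
  have hs : ∀ ω, B ω → 2 ^ (2 * J) < |sQ d (d.u (ptr F J ω))| := by
    intro ω hω
    by_contra h2
    push Not at h2
    have h3 := mk_up d hφ0.le hφ1 (by omega) (hBA ω hω) h2
    rw [hB] at hω
    exact hω.2 h3
  have g1 := hex J k1 F B hSB d.U d.u d.u' (fun ω hω => d.clsU ω (hBA ω hω))
  have g2 := big_up d hφ0.le k4 h0 h1 (hx _ J F A hA) (hpos _ J F B hSB) hBA hs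
  have g3 := g1.trans g2
  have h5 : 0 < δ * Real.log 2 := mul_pos hδ0 hl0
  have g4 : 4 * Real.log 5 < J * (δ * Real.log 2) := by
    have h4 := hJ₃.trans_le k3
    rwa [div_lt_iff₀ h5] at h4
  have g5 : bb = δ + ((1 - N.β 0) + (1 - N.β 1)) := by
    rw [hδ]
    ring
  have g6 : 0 ≤ (δ / 8 - φ) * J * Real.log 2 :=
    mul_nonneg (mul_nonneg (by linarith) (by linarith)) hl0.le
  rw [g5] at g3
  have g7 : 0 < Real.log 5 := Real.log_pos (by norm_num)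
  nlinarith

end Pool.MKS71
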