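import Pool.Agent.H1.PLN.All

/-!
# The velocities at a point are not on a conic: real windows

`plnC`, `plnS`, `conIn_of`, `con_cls`, `con_all`: the same statements as in `H26/PLN/{Cor,Cls}` and
`H1/PLN/{Inp,Inp2,All}` with a real window `w0`; the number of `c 1` is only used at rational
windows which are not smaller.
-/

set_option autoImplicit false

namespace Pool.PLN71

open Finset Real MvPolynomial
open Pool.Agent.H49.Ent Pool.Agent.H32.Dense Pool.STK Pool.KA Pool.KSAT Pool.K2S Pool.PB Pool.S6C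
open Pool.GEN Pool.CHT Pool.PLN26
open Pool.GRW (TmWn)
open Pool.LBT (ThrOf)
open Pool.KM7 (P2 P2_isLaw P2_swap P2_pos)
open Pool.PLN (qd Nq Ln1 Ln2 ThrStmt ex ex_pos ex_add ex_le ex_neg ex_pow ex_le_one one_le_ex
  ex_floor floor_ex const_le_ex ex_zero pe_le_add pe_ex' pe_mono pe_nonneg ex_two_pow)

variable {m J : ℕ}

/-- **The planes of two samples of a line through which the conics of the exact points are
small**, have different slopes. -/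
theorem plnC (h3 : ThrStmt) : ∃ N₃ : ℕ, ∀ w0 θ g b ε' ρ' : ℝ, 0 < w0 → 0 ≤ b →
    N₃ * b < ε' → 0 < ρ' → g + b < 1 → b < θ * w0 → w0 ≤ g → ∃ σ φ : ℝ, 0 < σ ∧ 0 < φ ∧
    ∀ {m : ℕ} {S : PCl m} {P : List (Fin m) × Fin m → ℝ → ℝ → ℝ} (c : ℕ → Fin m),
    ThrOf (chsys m θ) S P → (∃ W : ℚ, w0 ≤ W ∧ W ≤ 1 ∧ bet P c 1 W W ≤ g + σ) → ∀ c₀ : ℝ, 0 < c₀ →
    Bas S (fun J F A => ∀ (G0 : ℕ) (a : PtT F → Fin 3 → ℝ) (a' : LnT F → Fin 3 → ℝ)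
      (R : PtT F → Fin 6 → ℝ) (Ez : F.Ω → ℝ), |(G0 : ℝ) - g * J| ≤ φ * J →
      (∀ ω, A ω → a (ptr F J ω) = a' (slam F ⌊w0 * J⌋₊ ω)) →
      (∀ ω, A ω → |a (ptr F J ω) 2| ≤ Real.exp (φ * J)) → (∀ ξ, Nq (R ξ)) →
      (∀ ω, Ez ω = 2 ^ G0 / 2 ^ ⌊w0 * J⌋₊ *
        (F.d ω (c 1) - a (ptr F J ω) 1 - a (ptr F J ω) 2 * F.d ω (c 0))) →
      Pe (Pool.Agent.H49.Ent.cond F.p A True) (fun ω => ¬ |Ez ω| ≤ ex (-b) J) ≤ c₀ / 2 →
      Pe (P2 (Pool.Agent.H49.Ent.cond F.p A True) (slam F ⌊w0 * J⌋₊))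
        (fun v => ∃ α β α' β' : ℝ, |β| ≤ ex (-b) J ∧ |β'| ≤ ex (-b) J ∧
          Ln1 (R (ptr F J v.1)) (ex ε' J) α β ∧ Ln1 (R (ptr F J v.2)) (ex ε' J) α' β' ∧
          |Ez v.1 - α - β * F.d v.1 (c 0)| ≤ ex ε' J ∧
          |Ez v.1 - α' - β' * F.d v.1 (c 0)| ≤ ex ε' J ∧ |β - β'| < ex ρ' J) ≤ c₀) := by
  classical
  obtain ⟨N, C, hC, hL⟩ := two_list h3
  refine ⟨N + 1, ?_⟩
  intro w0 θ g b ε' ρ' hW' hb hbε hρ' hgb hbθ hWg
  push_cast at hbε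
  obtain ⟨ρ, hρ⟩ : ∃ ρ, ρ = (ε' - (N + 1) * b) / (2 * (N + 1)) := ⟨_, rfl⟩
  have hN0 : (0 : ℝ) < 2 * (N + 1) := by positivity
  have hρ0 : 0 < ρ := by
    rw [hρ]
    exact div_pos (by linarith) hN0
  have hρN : (N + 1) * ρ = (ε' - (N + 1) * b) / 2 := by
    rw [hρ]
    field_simp
  have hNN : (0 : ℝ) ≤ N := Nat.cast_nonneg N
  have hρε : ρ ≤ ε' := by nlinarith
  obtain ⟨η, hη⟩ : ∃ η, η = (ε' - (N + 1) * b) / 2 := ⟨_, rfl⟩
  have hη0 : 0 < η := by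
    rw [hη]
    linarith
  have hρη : N * ρ + N * b + η ≤ ε' := by nlinarith
  obtain ⟨μ, hμ⟩ : ∃ μ, μ = min (min (θ * w0 - b) (1 - g - b)) (min ρ ρ') / 4 := ⟨_, rfl⟩
  have hμ0 : 0 < μ := by
    rw [hμ]
    exact div_pos (lt_min (lt_min (by linarith) (by linarith)) (lt_min hρ0 hρ')) (by norm_num)
  have hμ1 : 4 * μ ≤ θ * w0 - b := by
    rw [hμ]
    linarith [(min_le_left (min (θ * w0 - b) (1 - g - b)) (min ρ ρ')).trans
      (min_le_left _ _)]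
  have hμ2 : 4 * μ ≤ 1 - g - b := by
    rw [hμ]
    linarith [(min_le_left (min (θ * w0 - b) (1 - g - b)) (min ρ ρ')).trans
      (min_le_right _ _)]
  have hμ3 : 4 * μ ≤ ρ := by
    rw [hμ]
    linarith [(min_le_right (min (θ * w0 - b) (1 - g - b)) (min ρ ρ')).trans
      (min_le_left _ _)]
  have hμ4 : 4 * μ ≤ ρ' := by
    rw [hμ]
    linarith [(min_le_right (min (θ * w0 - b) (1 - g - b)) (min ρ ρ')).trans
      (min_le_right _ _)]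
  refine ⟨μ / 8, μ / 8, by linarith, by linarith, ?_⟩
  intro m S P c hP hbet c₀ hc₀
  obtain ⟨W, hwW', hW1, hbet⟩ := hbet
  have hθ0 : 0 < θ := by
    by_contra h0
    push Not at h0
    have := mul_nonpos_of_nonpos_of_nonneg h0 hW'.le
    linarith
  have hθW : θ * w0 ≤ θ * W := mul_le_mul_of_nonneg_left hwW' hθ0.le
  have hW0 : 0 ≤ W := by
    have : (0 : ℝ) ≤ W := hW'.le.trans hwW'
    exact_mod_cast this
  obtain ⟨δ, hδ, τ, hτ, J₁, hnoc⟩ := noc hP c W (b + μ) (μ / 8) hW0 hW1 (by linarith)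
    (by linarith) (by linarith)
  obtain ⟨J₂, hJ₂⟩ := exp_small hδ (show (0 : ℝ) < c₀ / 8 by linarith)
  obtain ⟨J₃, hJ₃⟩ := const_le_ex (C * 3 ^ N) hη0
  obtain ⟨J₄, hJ₄⟩ := const_le_ex 12 (show 0 < μ / 2 by linarith)
  obtain ⟨J₅, hJ₅⟩ := exists_nat_ge (1 / w0 + 8 / μ : ℝ)
  refine ⟨τ, hτ, max (max (max J₁ J₂) (max J₃ J₄)) J₅, ?_⟩
  intro J hJ F A hFA G0 a a' R Ez hG0 haa ha hR hEzd hEz
  have j1 : J ≥ J₁ := (le_max_left _ _).trans ((le_max_left _ _).trans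
    ((le_max_left _ _).trans hJ))
  have j2 : J ≥ J₂ := (le_max_right _ _).trans ((le_max_left _ _).trans
    ((le_max_left _ _).trans hJ))
  have j3 : J ≥ J₃ := (le_max_left _ _).trans ((le_max_right _ _).trans
    ((le_max_left _ _).trans hJ))
  have j4 : J ≥ J₄ := (le_max_right _ _).trans ((le_max_right _ _).trans
    ((le_max_left _ _).trans hJ))
  have j5 : (1 / w0 + 8 / μ : ℝ) ≤ J := by
    have : (J₅ : ℝ) ≤ J := by exact_mod_cast (le_max_right _ _).trans hJ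
    exact hJ₅.trans this
  have hJ0 : (0 : ℝ) ≤ J := Nat.cast_nonneg J
  have hWJ : 1 ≤ w0 * J := by
    have h1 : 1 / w0 ≤ J := by
      have : 0 ≤ 8 / μ := by positivity
      linarith
    rw [div_le_iff₀ hW'] at h1
    linarith
  have hμJ : 8 ≤ μ * J := by
    have h1 : 8 / μ ≤ J := by
      have : 0 ≤ 1 / w0 := by positivity
      linarith
    rw [div_le_iff₀ hμ0] at h1
    linarith
  rcases (pe_nonneg F.isLaw.nonneg A).eq_or_lt with h0 | hPA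
  · have hz : ∀ ω, Pool.Agent.H49.Ent.cond F.p A True ω = 0 := by
      intro ω
      unfold Pool.Agent.H49.Ent.cond
      have e1 : law F.p A True = 0 := h0.symm
      rw [e1, div_zero, ite_self]
    have hz2 : ∀ v : F.Ω × F.Ω, P2 (Pool.Agent.H49.Ent.cond F.p A True)
        (slam F ⌊w0 * J⌋₊) v = 0 := by
      intro v
      unfold Pool.KM7.P2 Pool.Agent.H49.Ent.glue
      rw [hz, zero_mul, zero_div, ite_self]
    rw [Pool.JVE.pe_sum]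
    refine (Finset.sum_nonpos fun v _ => ?_).trans hc₀.le
    rw [hz2, ite_self]
  obtain ⟨w, hw⟩ : ∃ w, w = ⌊w0 * J⌋₊ := ⟨_, rfl⟩
  have hw1 : 1 ≤ w := by
    rw [hw]
    exact (Nat.one_le_floor_iff _).2 hWJ
  have hwW : (w : ℝ) ≤ w0 * J := by
    rw [hw]
    exact Nat.floor_le (by linarith)
  have hwf : w ≤ ⌊(W : ℝ) * J⌋₊ := by
    rw [hw]
    exact Nat.floor_le_floor (mul_le_mul_of_nonneg_right hwW' hJ0)
  obtain ⟨q₁, hq₁⟩ : ∃ q₁, q₁ = ⌊μ * (J : ℝ)⌋₊ := ⟨_, rfl⟩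
  have hq1 : (q₁ : ℝ) ≤ μ * J := by
    rw [hq₁]
    exact Nat.floor_le (by linarith)
  have hq2 : μ * J < q₁ + 1 := by
    rw [hq₁]
    exact Nat.lt_floor_add_one _
  have hq3 : 7 ≤ q₁ := by
    have : (6 : ℝ) < q₁ := by linarith
    exact_mod_cast this
  have hqe : ex μ J ≤ 1 / 2 ^ q₁ := by
    rw [hq₁]
    exact ex_floor hμ0.le J
  obtain ⟨e₀, he₀⟩ : ∃ e₀, e₀ = ⌊(b + μ) * (J : ℝ)⌋₊ := ⟨_, rfl⟩
  have he1 : (e₀ : ℝ) ≤ (b + μ) * J := by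
    rw [he₀]
    exact Nat.floor_le (by positivity)
  have he2 : ex (-(b + μ)) J ≤ 2 * 2 ^ e₀ := by
    rw [he₀]
    exact ex_le_two_pow _ _
  rw [← hw] at haa hEzd ⊢
  obtain ⟨g1, g2⟩ := abs_le.1 hG0
  -- the ratio of the scales
  obtain ⟨sc, hsc⟩ : ∃ sc : ℝ, sc = 2 ^ w / 2 ^ G0 := ⟨_, rfl⟩
  have hsc0 : 0 < sc := by
    rw [hsc]
    positivity
  have hsc1 : sc ≤ ex (-(μ / 8)) J := by
    have e1 : (2 : ℝ) ^ w ≤ ex (-w0) J := two_pow_le_ex hwW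
    have e2 : (1 : ℝ) / 2 ^ G0 ≤ ex (g - μ / 8) J := inv_two_pow_le_ex (by nlinarith)
    calc sc = 2 ^ w * (1 / 2 ^ G0) := by
          rw [hsc]
          ring
      _ ≤ ex (-w0) J * ex (g - μ / 8) J :=
          mul_le_mul e1 e2 (by positivity) (ex_pos _ _).le
      _ = ex (-w0 + (g - μ / 8)) J := (ex_add _ _ _).symm
      _ ≤ ex (-(μ / 8)) J := ex_le (by linarith) J
  have hEzs : ∀ ω, F.d ω (c 1) - a (ptr F J ω) 1 - a (ptr F J ω) 2 * F.d ω (c 0) =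
      sc * Ez ω := by
    intro ω
    rw [hEzd, hsc]
    field_simp
  obtain ⟨L, hL⟩ := hL (ex ε' J) (ex ρ J) (3 * ex (-b) J) (ex_pos _ _).le (ex_pos _ _)
    (ex_le_one hρ0.le J) (by
      have := one_le_ex (show -b ≤ 0 by linarith) J
      linarith) (by
      rw [ex_pow, mul_pow, ex_pow]
      have e1 := hJ₃ J j3
      calc C * (3 ^ N * ex (N * -b) J) * ex ε' J = C * 3 ^ N * ex (N * -b + ε') J := by
            rw [ex_add]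
            ring
        _ ≤ ex (-η) J * ex (N * -b + ε') J :=
            mul_le_mul_of_nonneg_right e1 (ex_pos _ _).le
        _ = ex (-η + (N * -b + ε')) J := (ex_add _ _ _).symm
        _ ≤ ex (N * ρ) J := ex_le (by nlinarith) J)
  obtain ⟨T, hT⟩ : ∃ T : Fin 2 → PtT F → ℝ, T = fun i y => a y 2 + sc * (L (R y) i).2 := ⟨_, rfl⟩
  obtain ⟨T₀, hT₀⟩ : ∃ T₀ : Fin 2 → PtT F → ℝ, T₀ = fun i y => a y 1 + sc * (L (R y) i).1 :=
    ⟨_, rfl⟩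
  have hlaw : IsLaw (Pool.Agent.H49.Ent.cond F.p A True) := isLaw_cond F.isLaw hPA
  have key : ∀ x : Fin 2 × Fin 2, Pe (P2 (Pool.Agent.H49.Ent.cond F.p A True) (slam F w))
      (fun v => (1 + |T x.1 (ptr F J v.1)| ≤ 2 ^ (e₀ + 1) ∧ |T x.1 (ptr F J v.1)| ≤ 2 ^ e₀ ∧
        |F.d v.1 (c 1) - T₀ x.1 (ptr F J v.1) - T x.1 (ptr F J v.1) * F.d v.1 (c 0)| ≤
          2 ^ w / 2 ^ (G0 + q₁)) ∧
        |T x.1 (ptr F J v.1) - T x.2 (ptr F J v.2)| ≤ 2 ^ w / 2 ^ (G0 + q₁ + 2)) ≤ c₀ / 8 := by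
    intro x
    have h1 := hnoc J j1 F A hFA w e₀ (e₀ + 1) (G0 + q₁ - 2) (G0 + q₁) (T x.1) (T₀ x.1)
      (fun ω => T x.2 (ptr F J ω)) hw1 hwf (le_of_eq he₀) (by omega) (by
        have h2 : ((G0 + q₁ + (e₀ + 1) : ℕ) : ℝ) ≤ J := by
          push_cast
          nlinarith
        exact_mod_cast h2) (by
        have h2 : ⌊(bet P c 1 W W + μ / 8) * (J : ℝ)⌋₊ ≤ G0 + q₁ - 2 := by
          refine Nat.floor_le_of_le ?_
          have h4 : 2 ≤ G0 + q₁ := by omega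
          rw [Nat.cast_sub h4]
          push_cast
          have h5 : (bet P c 1 W W + μ / 8) * (J : ℝ) ≤ (g + μ / 8 + μ / 8) * J :=
            mul_le_mul_of_nonneg_right (by linarith) hJ0
          nlinarith
        omega) (Pool.Agent.H49.Ent.cond F.p A True) 1 hlaw zero_le_one hPA
      (fun ω => cond_mem F.isLaw.nonneg) (cond_mul F.isLaw.nonneg hPA)
    rw [one_mul] at h1
    exact h1.trans (hJ₂ J j2)
  have hnn : ∀ v, 0 ≤ P2 (Pool.Agent.H49.Ent.cond F.p A True) (slam F w) v :=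
    (P2_isLaw hlaw _).nonneg
  have hfst := pe_fst hlaw (slam F w) (fun ω => ¬ |Ez ω| ≤ ex (-b) J)
  rw [← hfst] at hEz
  refine (pe_le_add hnn (B := fun v => ¬ |Ez v.1| ≤ ex (-b) J)
    (C := fun v => ∃ x : Fin 2 × Fin 2,
      (1 + |T x.1 (ptr F J v.1)| ≤ 2 ^ (e₀ + 1) ∧ |T x.1 (ptr F J v.1)| ≤ 2 ^ e₀ ∧
        |F.d v.1 (c 1) - T₀ x.1 (ptr F J v.1) - T x.1 (ptr F J v.1) * F.d v.1 (c 0)| ≤
          2 ^ w / 2 ^ (G0 + q₁)) ∧
        |T x.1 (ptr F J v.1) - T x.2 (ptr F J v.2)| ≤ 2 ^ w / 2 ^ (G0 + q₁ + 2)) ?_).trans ?_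
  · rintro v hv ⟨α, β, α', β', h1, h2, h4, h5, h6, h7, h8⟩
    by_cases h9 : |Ez v.1| ≤ ex (-b) J
    · right
      obtain ⟨p1, p2, hs⟩ := (P2_pos hlaw v).1 hv
      have A1 : A v.1 := cond_mem F.isLaw.nonneg p1
      have A2 : A v.2 := cond_mem F.isLaw.nonneg p2
      have haeq : a (ptr F J v.2) = a (ptr F J v.1) := by
        rw [haa _ A1, haa _ A2, hs]
      have hd := F.dir v.1 (c 0)
      have eb : 1 ≤ ex (-b) J := one_le_ex (by linarith) J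
      have eε : ex ε' J ≤ 1 := ex_le_one (by nlinarith) J
      have eρ1 : ex ρ J ≤ 1 := ex_le_one hρ0.le J
      have hmul : ∀ x : ℝ, |x| ≤ ex (-b) J → |x * F.d v.1 (c 0)| ≤ ex (-b) J := by
        intro x hx
        rw [abs_mul]
        calc |x| * |F.d v.1 (c 0)| ≤ ex (-b) J * 1 :=
              mul_le_mul hx hd (abs_nonneg _) (ex_pos _ _).le
          _ = _ := mul_one _
      have hα : |α| ≤ 3 * ex (-b) J := by
        have h10 := hmul β h1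
        rw [abs_le] at h6 h9 h10 ⊢
        constructor <;> linarith [h6.1, h6.2, h9.1, h9.2, h10.1, h10.2]
      have hα' : |α'| ≤ 3 * ex (-b) J := by
        have h10 := hmul β' h2
        rw [abs_le] at h7 h9 h10 ⊢
        constructor <;> linarith [h7.1, h7.2, h9.1, h9.2, h10.1, h10.2]
      obtain ⟨i, i1, i2⟩ := hL _ (hR _) α β hα (by linarith) h4
      obtain ⟨i', i1', i2'⟩ := hL _ (hR _) α' β' hα' (by linarith) h5
      refine ⟨(i, i'), ?_⟩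
      -- the scales
      have s1 : 12 * ex (4 * μ) J ≤ 1 / 2 ^ q₁ := by
        refine le_trans ?_ hqe
        calc 12 * ex (4 * μ) J ≤ ex (-(μ / 2)) J * ex (4 * μ) J :=
              mul_le_mul_of_nonneg_right (hJ₄ J j4) (ex_pos _ _).le
          _ = ex (-(μ / 2) + 4 * μ) J := (ex_add _ _ _).symm
          _ ≤ ex μ J := ex_le (by linarith) J
      have s2 : ex ρ J ≤ ex (4 * μ) J := ex_le hμ3 J
      have s3 : ex ε' J ≤ ex (4 * μ) J := ex_le (hμ3.trans hρε) J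
      have s4 : ex ρ' J ≤ ex (4 * μ) J := ex_le hμ4 J
      have s5 : (2 : ℝ) ^ w / 2 ^ (G0 + q₁) = sc * (1 / 2 ^ q₁) := by
        rw [hsc, pow_add]
        field_simp
      have s6 : (2 : ℝ) ^ w / 2 ^ (G0 + q₁ + 2) = sc * (1 / 2 ^ q₁ / 4) := by
        rw [hsc, pow_add, pow_add]
        field_simp
        norm_num
      -- the size
      have hsize : |T i (ptr F J v.1)| ≤ 2 ^ e₀ := by
        have t1 : |T i (ptr F J v.1)| ≤ |a (ptr F J v.1) 2| +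
            sc * |(L (R (ptr F J v.1)) i).2| := by
          rw [hT]
          refine (abs_add_le _ _).trans ?_
          rw [abs_mul, abs_of_pos hsc0]
        have t2 : |(L (R (ptr F J v.1)) i).2| ≤ 2 * ex (-b) J := by
          rw [abs_le] at h1 i2 ⊢
          constructor <;> linarith [h1.1, h1.2, i2.1, i2.2]
        have t3 : |a (ptr F J v.1) 2| ≤ ex (-(μ / 4)) J := by
          refine ((ha _ A1).trans (exp_le_ex (by linarith) J)).trans (le_of_eq ?_)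
          congr 1
          ring
        have t4 : sc * |(L (R (ptr F J v.1)) i).2| ≤ 2 * ex (-(μ / 4 + b)) J := by
          calc sc * |(L (R (ptr F J v.1)) i).2| ≤ ex (-(μ / 8)) J * (2 * ex (-b) J) :=
                mul_le_mul hsc1 t2 (abs_nonneg _) (ex_pos _ _).le
            _ = 2 * ex (-(μ / 8) + -b) J := by
                rw [ex_add]
                ring
            _ ≤ 2 * ex (-(μ / 4 + b)) J :=
                mul_le_mul_of_nonneg_left (ex_le (by linarith) J) (by norm_num)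
        have t5 : ex (-(μ / 4)) J ≤ ex (-(μ / 4 + b)) J := ex_le (by linarith) J
        have t6 : 12 * ex (-(μ / 4 + b)) J ≤ 2 * 2 ^ e₀ := by
          refine le_trans ?_ he2
          calc 12 * ex (-(μ / 4 + b)) J ≤ ex (-(μ / 2)) J * ex (-(μ / 4 + b)) J :=
                mul_le_mul_of_nonneg_right (hJ₄ J j4) (ex_pos _ _).le
            _ = ex (-(μ / 2) + -(μ / 4 + b)) J := (ex_add _ _ _).symm
            _ ≤ ex (-(b + μ)) J := ex_le (by linarith) J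
        have t7 := ex_pos (-(μ / 4 + b)) J
        linarith
      refine ⟨⟨?_, hsize, ?_⟩, ?_⟩
      · have t1 : (1 : ℝ) ≤ 2 ^ e₀ := one_le_pow₀ (by norm_num)
        rw [pow_succ]
        show 1 + |T i (ptr F J v.1)| ≤ 2 ^ e₀ * 2
        linarith
      · rw [s5]
        have t1 : F.d v.1 (c 1) - T₀ i (ptr F J v.1) - T i (ptr F J v.1) * F.d v.1 (c 0) =
            sc * (Ez v.1 - (L (R (ptr F J v.1)) i).1 -
              (L (R (ptr F J v.1)) i).2 * F.d v.1 (c 0)) := by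
          have := hEzs v.1
          rw [hT, hT₀]
          linear_combination this
        show |F.d v.1 (c 1) - T₀ i (ptr F J v.1) - T i (ptr F J v.1) * F.d v.1 (c 0)| ≤ _
        rw [t1, abs_mul, abs_of_pos hsc0]
        refine mul_le_mul_of_nonneg_left ?_ hsc0.le
        have t2 : |(β - (L (R (ptr F J v.1)) i).2) * F.d v.1 (c 0)| ≤ ex ρ J := by
          rw [abs_mul]
          calc |β - (L (R (ptr F J v.1)) i).2| * |F.d v.1 (c 0)| ≤ ex ρ J * 1 :=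
                mul_le_mul i2 hd (abs_nonneg _) (ex_pos _ _).le
            _ = _ := mul_one _
        have t3 : Ez v.1 - (L (R (ptr F J v.1)) i).1 -
            (L (R (ptr F J v.1)) i).2 * F.d v.1 (c 0) =
            (Ez v.1 - α - β * F.d v.1 (c 0)) + (α - (L (R (ptr F J v.1)) i).1) +
              (β - (L (R (ptr F J v.1)) i).2) * F.d v.1 (c 0) := by ring
        rw [t3]
        have t4 := ex_pos (4 * μ) J
        rw [abs_le] at h6 i1 t2 ⊢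
        constructor <;> linarith [h6.1, h6.2, i1.1, i1.2, t2.1, t2.2]
      · rw [s6]
        have t1 : T i (ptr F J v.1) - T i' (ptr F J v.2) =
            sc * ((L (R (ptr F J v.1)) i).2 - (L (R (ptr F J v.2)) i').2) := by
          rw [hT]
          show a (ptr F J v.1) 2 + _ - (a (ptr F J v.2) 2 + _) = _
          rw [haeq]
          ring
        show |T i (ptr F J v.1) - T i' (ptr F J v.2)| ≤ _
        rw [t1, abs_mul, abs_of_pos hsc0]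
        refine mul_le_mul_of_nonneg_left ?_ hsc0.le
        have t4 := ex_pos (4 * μ) J
        rw [abs_le] at i2 i2' ⊢
        rw [abs_lt] at h8
        constructor <;> linarith [i2.1, i2.2, i2'.1, i2'.2, h8.1, h8.2]
    · exact Or.inl h9
  · have h6 := pe_ex' (Finset.univ : Finset (Fin 2 × Fin 2)) hnn (A := fun v =>
      ∃ x : Fin 2 × Fin 2,
      (1 + |T x.1 (ptr F J v.1)| ≤ 2 ^ (e₀ + 1) ∧ |T x.1 (ptr F J v.1)| ≤ 2 ^ e₀ ∧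
        |F.d v.1 (c 1) - T₀ x.1 (ptr F J v.1) - T x.1 (ptr F J v.1) * F.d v.1 (c 0)| ≤
          2 ^ w / 2 ^ (G0 + q₁)) ∧
        |T x.1 (ptr F J v.1) - T x.2 (ptr F J v.2)| ≤ 2 ^ w / 2 ^ (G0 + q₁ + 2))
      (fun x v => (1 + |T x.1 (ptr F J v.1)| ≤ 2 ^ (e₀ + 1) ∧ |T x.1 (ptr F J v.1)| ≤ 2 ^ e₀ ∧
        |F.d v.1 (c 1) - T₀ x.1 (ptr F J v.1) - T x.1 (ptr F J v.1) * F.d v.1 (c 0)| ≤
          2 ^ w / 2 ^ (G0 + q₁)) ∧
        |T x.1 (ptr F J v.1) - T x.2 (ptr F J v.2)| ≤ 2 ^ w / 2 ^ (G0 + q₁ + 2))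
      (fun x _ => key x) (by
        rintro v - ⟨x, hx⟩
        exact ⟨x, Finset.mem_univ x, hx⟩)
    have h7 : (((Finset.univ : Finset (Fin 2 × Fin 2)).card : ℕ) : ℝ) = 4 := by
      rw [Finset.card_univ, Fintype.card_prod, Fintype.card_fin]
      norm_num
    rw [h7] at h6
    linarith

end Pool.PLN71

namespace Pool.PLN71

open Finset Real MvPolynomial
open Pool.Agent.H49.Ent Pool.Agent.H32.Dense Pool.STK Pool.KA Pool.KSAT Pool.K2S Pool.PB Pool.STAT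
  Pool.GEN Pool.S6C Pool.M3F Pool.CLO37
open Pool.PLN
open Pool.GRW (TmWn)
open Pool.LBT (ThrOf)
open Pool.FLF (Fam.sub)
open Pool.STAT.CLO (Inj)

variable {m : ℕ}

/-- **The planes at different times are different.** -/
theorem plnS (h3 : ThrStmt) : ∃ N₃ : ℕ, ∀ w0 θ g b ε' ρ' : ℝ, 0 < w0 → 0 ≤ b →
    N₃ * b < ε' → 0 < ρ' → g + b < 1 → b < θ * w0 → w0 ≤ g → ∃ σ : ℝ, 0 < σ ∧
    ∀ {m : ℕ} {S : PCl m} {P : List (Fin m) × Fin m → ℝ → ℝ → ℝ} (c : ℕ → Fin m) (N : Nums)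
      (K : ℕ), ThrOf (CHT.chsys m θ) S P → (∃ W : ℚ, w0 ≤ W ∧ W ≤ 1 ∧ CHT.bet P c 1 W W ≤ g + σ) → N.w0 = w0 → N.g0 1 = g →
      (∀ c₁ : ℝ, 0 < c₁ → EzS S c N K b c₁) → ∀ c₀ : ℝ, 0 < c₀ →
        PlnS S c N K b ε' ρ' c₀ := by
  obtain ⟨N₃, h⟩ := Pool.PLN71.plnC h3
  refine ⟨N₃, ?_⟩
  intro w0 θ g b ε' ρ' k1 k2 k3 k4 k5 k6 k7
  obtain ⟨σ, φ₀, hσ, hφ₀, h⟩ := h w0 θ g b ε' ρ' k1 k2 k3 k4 k5 k6 k7
  refine ⟨σ, hσ, ?_⟩
  intro m S P c N K hP hbet hw hg hE c₀ hc₀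
  obtain ⟨φ, hφ, τ₁, hτ₁, J₁, h1⟩ := hE (c₀ / 2) (by linarith)
  obtain ⟨τ₂, hτ₂, J₂, h2⟩ := h c hP hbet c₀ hc₀
  refine ⟨min φ φ₀, lt_min hφ hφ₀, min τ₁ τ₂, lt_min hτ₁ hτ₂, max J₁ J₂, ?_⟩
  intro J hJ F A hF d R hR
  have hJ0 : (0 : ℝ) ≤ J := Nat.cast_nonneg J
  have hm1 : min φ φ₀ ≤ φ := min_le_left _ _
  have hm2 : min φ φ₀ * (J : ℝ) ≤ φ₀ * J :=
    mul_le_mul_of_nonneg_right (min_le_right _ _) hJ0
  have hEz := h1 J ((le_max_left _ _).trans hJ) F A (S.mono (min_le_left _ _) hF) (upD hm1 d)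
  have hz := d.numz.trans hm2
  have hc1 : ∀ ω, A ω → d.zz (ptr F J ω) = d.zz' (slam F ⌊N.w0 * J⌋₊ ω) := d.lab0.cls
  have hs : ∀ ω, A ω → |d.a (d.zz (ptr F J ω)) 2| ≤ Real.exp (φ₀ * J) := fun ω hω =>
    (d.siz0 ω hω 2).trans (Real.exp_le_exp.2 hm2)
  have hd : ∀ ω, d.Ez ω = 2 ^ d.G0 / 2 ^ ⌊N.w0 * J⌋₊ *
    (F.d ω (c 1) - d.a (d.zz (ptr F J ω)) 1 - d.a (d.zz (ptr F J ω)) 2 * F.d ω (c 0)) :=
    fun ω => rfl
  rw [hw] at hc1 hd ⊢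
  rw [hg] at hz
  exact h2 J ((le_max_right _ _).trans hJ) F A (S.mono (min_le_right _ _) hF) d.G0
    (fun y => d.a (d.zz y)) (fun s => d.a (d.zz' s)) R d.Ez hz
    (fun ω hω => by
      show d.a (d.zz (ptr F J ω)) = d.a (d.zz' (slam F ⌊w0 * J⌋₊ ω))
      rw [hc1 ω hω]) hs hR hd hEz

/-- **The inputs**: the times, the slopes, the planes, the velocities and the copies hold in every
class with **(H2)**. -/
theorem conIn_of : ∃ Nt : ℝ, 1 ≤ Nt ∧ ∀ {m : ℕ} {S : PCl m} {c : ℕ → Fin m} {N : Nums}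
    {K D K' : ℕ} {CD lam e he hm al : ℝ} {g₀ : ℝ → ℝ} {Nc : ℚ → ℚ → ℝ}
    {P : List (Fin m) × Fin m → ℝ → ℝ → ℝ} {θ : ℝ},
    (∀ (τ : ℝ) (J : ℕ) (F : Fam m J) (A : F.Ω → Prop), S.St τ J F A →
      Real.exp (-(τ * J)) ≤ Pe F.p A) →
    (∀ ε : ℝ, 0 < ε → Bas S (fun J F A => ∀ h : 0 < Pe F.p A, (Fam.sub F A h).Tm (ε * J))) →
    ActM Nc al g₀ → 0 < al → (∀ ε : ℝ, 0 < ε → 0 < g₀ ε) → ActB Nc S (c 0) →
    TmWn S N.w0 → ThrOf (CHT.chsys m θ) S P → H2S S N.w0 N.w1 e → 0 ≤ e →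
    0 < N.w0 → N.w0 ≤ N.w1 → N.w1 < 1 →
    N.w0 ≤ N.g0 1 →
    (∀ σ : ℝ, 0 < σ → ∃ W : ℚ, N.w0 ≤ W ∧ W ≤ 1 ∧ CHT.bet P c 1 W W ≤ N.g0 1 + σ) →
    N.g0 1 + hm < 1 → hm < θ * N.w0 →
    (∀ c₀ : ℝ, 0 < c₀ → FalS S c N K D he c₀) →
    (∀ q h c₀ : ℝ, 0 < q → q ≤ hm → 0 < c₀ → CD * q / c₀ ≤ h → LrS S c N K D q h c₀) →
    (∀ (n : ℕ) (q h b c₀ : ℝ), 0 < q → q ≤ hm → 0 < b → b ≤ hm → 0 ≤ h → h + b < he →
      0 < c₀ → PolS S c N K D K' n lam q h b he c₀) →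
    (∀ b c₀ : ℝ, 0 < b → b ≤ hm → 0 < c₀ → WinS S c N K K' b c₀) →
    ConIn S c N K D K' CD Nt lam e he hm Nc := by
  obtain ⟨N₃, hN₃⟩ := Pool.PLN71.plnS thrStmt
  refine ⟨N₃ + 1, by linarith [(Nat.cast_nonneg N₃ : (0 : ℝ) ≤ N₃)], ?_⟩
  intro m S c N K D K' CD lam e he hm al g₀ Nc P θ hmem hTm hact hal hg₀ hB hT hP h2 he0 hW0
    h01 h1 hg hbet hgm hθ hF hL hPl hWi
  have hN0 : (0 : ℝ) ≤ N₃ := Nat.cast_nonneg N₃
  have hE : ∀ b c₀ : ℝ, 0 < b → 0 < c₀ → EzS S c N K b c₀ := fun b c₀ hb hc =>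
    Pool.PLA.ezs (fun τ J F A hA => lt_of_lt_of_le (Real.exp_pos _) (hmem τ J F A hA)) hTm
      hW0.le (by linarith) hb hc
  refine ⟨hmem, hW0.le, h01, h1.le, hF, hL, hPl,
    fun b c₀ hb _ hc => hE b c₀ hb hc, hWi, fun b c₀ hb _ hc => ?_,
    fun b ε' c₀ hb hε _ hc => ?_, fun b ε' ρ' c₀ hb hρ hε hεm hc => ?_,
    fun q q₁ n M hq hq1 hqq hsep => sep_S2 hB he0 h2 hq hq1.le hqq n M hsep⟩
  · exact timS hT hW0.le (by linarith) hb hc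
  · refine slpS thrStmt hB (act_pos hact hal hg₀) hb ?_ hc fun c₁ hc₁ => hE _ c₁ (half_pos hb) hc₁
    nlinarith
  · have hρ0 : 0 < ρ' := by nlinarith
    have e1 : N₃ * b < ε' := by nlinarith
    have e2 : b < ε' := by nlinarith
    obtain ⟨σ, hσ, h⟩ := hN₃ N.w0 θ (N.g0 1) b ε' ρ' hW0 hb.le e1 hρ0 (by linarith) (by linarith) hg
    exact h c N K hP (hbet σ hσ) rfl rfl (fun c₁ hc₁ => hE b c₁ hb hc₁) c₀ hc

/-- **The velocities at a point are not on a conic**, in every class with **(H2)**, **(FALLN)** and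
**(L1)**. -/
theorem con_cls (al : ℝ) (hal : 0 < al) (D : ℕ) (CD : ℝ) (hCD : 0 < CD) :
    ∃ εa c₁ Hc : ℝ, 0 < εa ∧ 0 < c₁ ∧ 0 < Hc ∧
    ∀ {m : ℕ} {S : PCl m} {c : ℕ → Fin m} {N : Nums} {K : ℕ} {lam e he h θ : ℝ} {g₀ : ℝ → ℝ}
      {Nc : ℚ → ℚ → ℝ} {P : List (Fin m) × Fin m → ℝ → ℝ → ℝ},
      (∀ (τ : ℝ) (J : ℕ) (F : Fam m J) (A : F.Ω → Prop), S.St τ J F A →
        F.Tr ∧ F.Tm (τ * J) ∧ F.Rb (τ * J) ∧ Real.exp (-(τ * J)) ≤ Pe F.p A) →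
      ActM Nc al g₀ → (∀ ε : ℝ, 0 < ε → 0 < g₀ ε) → ActB Nc S (c 0) →
      ThrOf (CHT.chsys m θ) S P → H2S S N.w0 N.w1 e → 0 ≤ e →
      0 < N.w0 → N.w0 ≤ N.w1 → N.w1 < 1 → N.g 0 < 1 → N.g 1 < 1 →
      N.w0 ≤ N.g0 1 →
      (∀ σ : ℝ, 0 < σ → ∃ W : ℚ, N.w0 ≤ W ∧ W ≤ 1 ∧ CHT.bet P c 1 W W ≤ N.g0 1 + σ) →
      0 < h → h ≤ g₀ εa → h < 1 - N.w0 → h < 1 - N.g0 1 → h < θ * N.w0 →
      N.w1 - N.w0 < lam → N.g 0 - N.w0 < lam → N.g 1 - N.g0 1 < lam → lam ≤ c₁ * h →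
      e ≤ c₁ * h → Hc * h + D * (N.w1 - N.w0) ≤ he →
      (∀ c₀ : ℝ, 0 < c₀ → FalS S c N K D he c₀) →
      (∀ q h' c₀ : ℝ, 0 < q → q ≤ h → 0 < c₀ → CD * q / c₀ ≤ h' → LrS S c N K D q h' c₀) →
      ∀ c₀ : ℝ, 0 < c₀ → ConS S c N K h c₀ := by
  obtain ⟨Nt, hNt, hin⟩ := Pool.PLN71.conIn_of
  obtain ⟨εa, c₁, Hc, hεa, hc₁, hHc, hcon⟩ := con al hal D CD Nt hNt Pool.PLN.pEndStmt
  refine ⟨εa, c₁, Hc, hεa, hc₁, hHc, ?_⟩
  intro m S c N K lam e he h θ g₀ Nc P hmem hact hg₀ hB hT h2 he0 hW0 h01 h1 hN0 hN1 hg hbet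
    hh hhg hh0 hh1 hhθ hl0 hl1 hl2 hlh heh hhe hF hL c₀ hc₀
  have hTm := (Pool.CHT.tmH_of_reg hmem).2
  have hpos : ∀ (τ : ℝ) (J : ℕ) (F : Fam m J) (A : F.Ω → Prop), S.St τ J F A →
      0 < Pe F.p A := fun τ J F A hS => lt_of_lt_of_le (Real.exp_pos _) (hmem τ J F A hS).2.2.2
  have hw0 : 0 ≤ N.w0 := hW0.le
  have hQ : ActQ Nc al := hact.q hg₀
  -- the box
  obtain ⟨lam₀, hlam₀⟩ : ∃ x : ℝ, x = (lam + max (N.w1 - N.w0)
      (max (N.g 0 - N.w0) (N.g 1 - N.g0 1))) / 2 := ⟨_, rfl⟩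
  have m1 : max (N.w1 - N.w0) (max (N.g 0 - N.w0) (N.g 1 - N.g0 1)) < lam :=
    max_lt hl0 (max_lt hl1 hl2)
  have m2 := le_max_left (N.w1 - N.w0) (max (N.g 0 - N.w0) (N.g 1 - N.g0 1))
  have m3 := (le_max_left (N.g 0 - N.w0) (N.g 1 - N.g0 1)).trans
    (le_max_right (N.w1 - N.w0) (max (N.g 0 - N.w0) (N.g 1 - N.g0 1)))
  have m4 := (le_max_right (N.g 0 - N.w0) (N.g 1 - N.g0 1)).trans
    (le_max_right (N.w1 - N.w0) (max (N.g 0 - N.w0) (N.g 1 - N.g0 1)))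
  have hBox : ∀ c₁ : ℝ, 0 < c₁ → BoxS S c N K lam₀ c₁ := fun c₁ hc₁ =>
    Pool.PLA.boxs hpos hTm hal hQ hB hw0 h01 h1 hN1 (by linarith) (by linarith) (by linarith) hc₁
  have hE : ∀ b c₀ : ℝ, 0 < b → 0 < c₀ → EzS S c N K b c₀ := fun b c₀ hb hc =>
    Pool.PLA.ezs hpos hTm hw0 (by linarith) hb hc
  refine hcon S c N K ((K + 1) * D) lam e he h g₀ Nc hact hh hhg (by linarith) (by linarith)
    hlh heh hhe ?_ c₀ hc₀
  refine hin (fun τ J F A hS => (hmem τ J F A hS).2.2.2) hTm hact hal hg₀ hB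
    (tmWn_reg hmem N.w0) hT h2 he0 hW0 h01 h1 hg hbet (by linarith) hhθ hF hL ?_ ?_
  · intro n q h' b c₀ hq hqh hb hbh hh' hhb hc₀
    refine polS hmem hw0 h01 h1 hN0 hN1 hq.le (by linarith) (by linarith) le_rfl hl0
      (lam₀ := lam₀) (by linarith) hb hh' hhb hc₀ hBox (fun c₁ hc₁ => hE _ c₁ (by linarith) hc₁)
      fun c₂ hc₂ => ?_
    refine ⟨min h (b / 16 * c₂ / CD), hL _ _ c₂ (lt_min hh (by positivity)) (min_le_left _ _)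
      hc₂ ?_⟩
    rw [div_le_iff₀ hc₂]
    have e1 : min h (b / 16 * c₂ / CD) ≤ b / 16 * c₂ / CD := min_le_right _ _
    have e2 := mul_le_mul_of_nonneg_left e1 hCD.le
    have e3 : CD * (b / 16 * c₂ / CD) = b / 16 * c₂ := by field_simp
    linarith
  · intro b c₀ hb _ hc₀
    exact winS hmem (by linarith) h1 hb hc₀

/-- **The velocities at a point are not on a conic.** `be0`, `be1`: the numbers of `c 0`, `c 1`,
`c 2` at the windows `W` and `w1`. -/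
theorem con_all (al : ℝ) (hal : 0 < al) : ∃ εa c₁ C₁ : ℝ, 0 < εa ∧ 0 < c₁ ∧ 1 ≤ C₁ ∧
    ∀ {m : ℕ} {S : PCl m} {c : ℕ → Fin m} {θ : ℝ} {g₀ : ℝ → ℝ} {Nc : ℚ → ℚ → ℝ}
      {P : List (Fin m) × Fin m → ℝ → ℝ → ℝ},
      (∀ (τ : ℝ) (J : ℕ) (F : Fam m J) (A : F.Ω → Prop), S.St τ J F A →
        F.Tr ∧ F.Tm (τ * J) ∧ F.Rb (τ * J) ∧ Real.exp (-(τ * J)) ≤ Pe F.p A) →
      ActM Nc al g₀ → (∀ ε : ℝ, 0 < ε → 0 < g₀ ε) → ActB Nc S (c 0) →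
      ThrOf (CHT.chsys m θ) S P → Inj c 3 →
    ∀ {W w1 : ℝ} {be0 be1 : ℕ → ℝ} {e e₀ e₀' γ h : ℝ}, 0 < W → W ≤ w1 → w1 < 1 →
      (∀ ρ : ℝ, 0 < ρ → ExvY S w1 (fun J F ω (i : Fin 2) => F.X J ω (c i))
        ((∑ l ∈ range 2, (1 - be1 l)) - ρ)) →
      (∀ l < 2, be1 l < 1) → (∀ l < 2, w1 ≤ be1 l) → W ≤ be0 1 → W ≤ be0 2 →
      (∀ σ : ℝ, 0 < σ → ∃ W' : ℚ, W ≤ W' ∧ W' ≤ 1 ∧ CHT.bet P c 1 W' W' ≤ be0 1 + σ) →
      Pool.CHT.RelvC S c 3 be0 W W e₀ → 0 < e₀' → e₀' < e₀ →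
      0 < γ → H2S S W w1 e → 0 ≤ e →
      0 < h → h ≤ g₀ εa → h < 1 - W → h < 1 - be0 1 → h < θ * W →
      w1 - W < c₁ * h → be1 0 - W < c₁ * h → be1 1 - be0 1 < c₁ * h → e ≤ c₁ * h →
    ∃ φ₂ : ℝ, 0 < φ₂ ∧ ∀ K : ℕ, ∃ φ₁ : ℝ, 0 < φ₁ ∧ ∀ N : Nums, N.w0 = W → N.w1 = w1 →
      (∀ l < 2, N.g l = be1 l) → (∀ l < 2, N.g0 l = be0 l) →
      (N.g0 2 - N.s0) - be0 2 ≤ φ₁ → be0 2 - (N.g0 2 - N.s0) ≤ φ₂ →
      (∀ l < 2, N.g l + 2 * γ ≤ N.g 2) → w1 + 2 * γ ≤ N.g 2 → N.g0 2 < 1 →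
      N.g0 2 ≤ max (N.g0 1) (N.g0 2 - N.s0) + e₀' → C₁ * h ≤ N.mv → C₁ * h ≤ N.g 2 - N.g0 2 →
      ∀ c₀ : ℝ, 0 < c₀ → ConS S c N K h c₀ := by
  obtain ⟨D, hD⟩ := Pool.FAL.falS
  obtain ⟨C, hC, hfal⟩ := hD D le_rfl
  have hD0 : (0 : ℝ) ≤ D := Nat.cast_nonneg D
  obtain ⟨εa, c₁, Hc, hεa, hc₁, hHc, hcon⟩ := Pool.PLN71.con_cls al hal D (12 * D + 12) (by linarith)
  obtain ⟨c₂, hc₂⟩ : ∃ c₂ : ℝ, c₂ = min c₁ 1 := ⟨_, rfl⟩
  have hc₂0 : 0 < c₂ := by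
    rw [hc₂]
    exact lt_min hc₁ one_pos
  have hc₂1 : c₂ ≤ c₁ := by
    rw [hc₂]
    exact min_le_left _ _
  have hc₂2 : c₂ ≤ 1 := by
    rw [hc₂]
    exact min_le_right _ _
  refine ⟨εa, c₂, C * (Hc + D) + 1, hεa, hc₂0, ?_, ?_⟩
  · have : 0 ≤ C * (Hc + D) := mul_nonneg (by linarith) (by linarith)
    linarith
  intro m S c θ g₀ Nc P hmem hact hg₀ hB hT hc W w1 be0 be1 e e₀ e₀' γ h hW hw hw1 hex hb1 hb2 hb3
    hb4 hb5 hrel he₀' hee hγ h2 he hh hhg hh0 hh1 hhθ k1 k2 k3 k4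
  have hW0 : 0 < W := hW
  obtain ⟨he', hhe⟩ : ∃ x : ℝ, x = (Hc + D) * h := ⟨_, rfl⟩
  have hhe0 : 0 < he' := by
    rw [hhe]
    exact mul_pos (by linarith) hh
  obtain ⟨φ₂, hφ₂, H⟩ := hfal S hmem c W w1 be0 be1 e₀ e₀' γ hc hW0 (by linarith) (by linarith)
    hw1.le hb2 hb4 hex hrel he₀' hee hγ he' hhe0
  refine ⟨φ₂, hφ₂, fun K => ?_⟩
  obtain ⟨φ₁, hφ₁, H⟩ := H K
  refine ⟨φ₁, hφ₁, fun N n0 n1 n2 n3 n4 n5 n6 n7 n8 n9 n10 n11 c₀ hc₀ => ?_⟩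
  have h01 : N.w0 ≤ N.w1 := by
    rw [n0, n1]
    exact hw
  have hCh : C * he' ≤ (C * (Hc + D) + 1) * h := by
    rw [hhe]
    nlinarith
  have e2 : c₂ * h ≤ c₁ * h := mul_le_mul_of_nonneg_right hc₂1 hh.le
  have e3 : c₂ * h ≤ 1 * h := mul_le_mul_of_nonneg_right hc₂2 hh.le
  have hLr : ∀ q h' c₀ : ℝ, 0 < q → 0 < c₀ → (12 * D + 12) * q / c₀ ≤ h' →
      LrS S c N K D q h' c₀ := by
    intro q h' c₀ hq hc₀ hle
    refine lrS hmem (by rw [n0]; exact hW0.le) h01 (by rw [n1]; exact hw1)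
      (by rw [n2 0 (by norm_num)]; exact hb1 0 (by norm_num))
      (by rw [n2 1 (by norm_num)]; exact hb1 1 (by norm_num)) (by rw [n1]; linarith)
      (by rw [n3 1 (by norm_num)]; linarith) (fun ρ hρ => ?_) hq hc₀ hle
    rw [n1]
    have e4 : ∑ l ∈ range 2, (1 - N.g l) = ∑ l ∈ range 2, (1 - be1 l) :=
      Finset.sum_congr rfl fun l hl => by rw [n2 l (Finset.mem_range.1 hl)]
    rw [e4]
    exact hex ρ hρ
  refine hcon (θ := θ) hmem hact hg₀ hB hT (by rw [n0, n1]; exact h2) he (by rw [n0]; exact hW) h01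
    (by rw [n1]; exact hw1)
    (by rw [n2 0 (by norm_num)]; exact hb1 0 (by norm_num))
    (by rw [n2 1 (by norm_num)]; exact hb1 1 (by norm_num))
    (by rw [n0, n3 1 (by norm_num)]; exact hb3) (by rw [n0, n3 1 (by norm_num)]; exact hb5) hh hhg
    (by rw [n0]; exact hh0) (by rw [n3 1 (by norm_num)]; exact hh1) (by rw [n0]; exact hhθ)
    (lam := c₂ * h)
    (by rw [n0, n1]; exact k1) (by rw [n0, n2 0 (by norm_num)]; exact k2)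
    (by rw [n3 1 (by norm_num), n2 1 (by norm_num)]; exact k3) e2 (k4.trans e2) (he := he') ?_
    ?_ (fun q h' c₀ hq _ hc₀ hle => hLr q h' c₀ hq hc₀ hle) c₀ hc₀
  · rw [n0, n1, hhe]
    have : D * (w1 - W) ≤ D * h := mul_le_mul_of_nonneg_left (by linarith) hD0
    linarith
  · intro c₀ hc₀
    refine H N n0 n1 (fun l hl => by rw [n2 l hl]; linarith)
      (fun l hl => by rw [n3 l hl]; simp [hφ₁.le]) n4 n5 n6 n7 n8 n9 (hCh.trans n10)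
      (hCh.trans n11) c₀ hc₀ (he' * (c₀ / 4) / (12 * D + 12)) (hLr _ _ _ (by positivity)
        (by positivity) ?_)
    rw [div_le_iff₀ (by positivity)]
    field_simp
    exact le_rfl

end Pool.PLN71
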