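import Pool.Agent.H71.MKC.Plm
import Pool.Agent.H22.M.Out

/-!
# The statement `DetS`, and the mass of the ten pairs
-/

set_option autoImplicit false

namespace Pool.MKC

open Finset Real MvPolynomial
open Pool.Agent.H49.Ent Pool.Agent.H32.Dense Pool.STK Pool.KA Pool.KSAT Pool.K2S Pool.PB
  Pool.STAT Pool.GEN Pool.M3F Pool.KM7 Pool.S6C Pool.JPR Pool.JPN
open Pool.PM (PDat DetS prs fiv pA PlnM)

/-- **(M1)**. -/
theorem detS : ∃ C : ℝ, 0 ≤ C ∧ ∀ {m : ℕ}, KP 3 → ∀ {S : PCl m} {w₀ w₁ : ℝ}, w₀ ≤ w₁ →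
    w₁ ≤ 1 → Pool.GRW.TmWn S w₀ → ∀ {c : ℕ → Fin m} {b₀ : ℝ},
    ExvY S w₁ (fun J F ω (i : Fin 3) => F.X J ω (c i)) b₀ →
    (∀ j, j ≠ c 3 → ∃ i : Fin 3, c i = j) → ∀ {r : ℝ → ℝ}, Pool.ALL.RateOf S (c 3) r →
    DetS S c r w₀ w₁ b₀ C := by
  obtain ⟨C, hC, key⟩ := m1_five
  refine ⟨2 * C, by positivity, ?_⟩
  intro m hKP S w₀ w₁ hw hw1 htm c b₀ hex hN r hr κ ρ hκ hρ
  obtain ⟨κ', hκ'⟩ : ∃ κ', κ' = min (κ / 5) 1 := ⟨_, rfl⟩
  have k0 : 0 < κ' := by rw [hκ']; exact lt_min (by positivity) one_pos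
  have k1 : κ' ≤ 1 := by rw [hκ']; exact min_le_right _ _
  have k2 : κ' ≤ κ / 5 := by rw [hκ']; exact min_le_left _ _
  refine (key hKP hw hw1 htm hex hN hr k0 k1 hρ).mono 0 ?_
  rintro J - F A ⟨hA, hmain⟩
  intro K n₀ hK D hD hw₀ hw₁ R t hRL hRLn ht hgL hg3 hb hnum
  have hl := isLaw_cond F.isLaw hA
  have hP := PC_isLaw hl (slam F ⌊w₀ * J⌋₊) (ptr F J)
  have hD' : PlnM hK F A c ⌊w₀ * J⌋₊ ⌊w₁ * J⌋₊ D.h D.θ D.d D.L D.Ln D.sg D.Pn D.G D.η D.g D.P D.z₀
      D.z₀' D.z₁ D.z₁' D.lf D.br D.a D.b D.χ D.M D.E := by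
    have h1 := hD
    unfold PDat.Ok at h1
    rw [hw₀, hw₁] at h1
    exact h1
  have v1 : 0 ≤ √((D.L : ℝ) - R) := Real.sqrt_nonneg _
  have v2 : √((((t + 1 : ℕ) : ℝ) + 1) * R) ≤ 2 * √(((t : ℝ) + 1) * R) := by
    have e1 : ∀ y : ℝ, (2 : ℝ) * √y = √(4 * y) := fun y => by
      rw [Real.sqrt_mul (by norm_num) y]
      congr 1
      rw [show (4 : ℝ) = 2 ^ 2 by norm_num, Real.sqrt_sq (by norm_num)]
    rw [e1]
    refine Real.sqrt_le_sqrt ?_
    have t0 : (0 : ℝ) ≤ t := Nat.cast_nonneg t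
    have R0 : (0 : ℝ) ≤ R := Nat.cast_nonneg R
    push_cast
    nlinarith
  have hJ0 : (0 : ℝ) ≤ J := Nat.cast_nonneg J
  have t0 : (0 : ℝ) ≤ t := Nat.cast_nonneg t
  have m1 := hmain hD' (R := R) (hh := t + 1) hRL hRLn (by omega) (by omega) hgL hg3 (by omega)
    (by
      refine le_trans (le_of_eq ?_) hb
      rw [Finset.sum_range]) (by
      refine lt_of_le_of_lt (add_le_add_right ?_ _) hnum
      rw [mul_comm 2 C, mul_assoc]
      refine mul_le_mul_of_nonneg_left ?_ hC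
      have v3 : 0 ≤ ρ * J := by positivity
      push_cast at v2 ⊢
      linarith)
  rw [hw₀]
  refine (Pe_sup hP ?_).trans (m1.le.trans (by linarith))
  intro e he hev
  obtain ⟨h6, hdet⟩ := hev
  have hs := spp hA he
  have h2R : (2 : ℝ) ^ (D.L - R) * 2 ^ R = 2 ^ D.L := by
    rw [← pow_add]
    congr 1
    omega
  have hM : ∀ {Mv : ℝ}, Mv * 2 ^ R ≤ 2 ^ D.L → Mv ≤ 2 ^ (D.L - R) := by
    intro Mv h
    rw [← h2R] at h
    exact le_of_mul_le_mul_right h (by positivity)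
  have q01 := h6 (0, 1) (by decide)
  have q02 := h6 (0, 2) (by decide)
  have q12 := h6 (1, 2) (by decide)
  have q34 := h6 (3, 4) (by decide)
  have q35 := h6 (3, 5) (by decide)
  have q45 := h6 (4, 5) (by decide)
  have e02 : (smp e 0, smp e 2) = e.1.2 := Prod.ext hs.o12.symm rfl
  have e35 : (smp e 3, smp e 5) = e.2.2 := Prod.ext hs.o22.symm rfl
  refine ⟨⟨q01.1, ?_, q12.1, q34.1, ?_, q45.1, hM q01.2, hM ?_, hM q34.2, hM ?_⟩, ?_⟩
  · have := q02.1
    rw [e02] at this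
    exact this
  · have := q35.1
    rw [e35] at this
    exact this
  · have := q02.2
    rw [e02] at this
    exact this
  · have := q35.2
    rw [e35] at this
    exact this
  · unfold PDat.Dets at hdet
    push Not at hdet
    obtain ⟨q, hq, hlt⟩ := hdet
    have h1 : (1 : ℝ) / 2 ^ (t + 1) ≤ 1 / 2 ^ t :=
      div_le_div_of_nonneg_left (by norm_num) (by positivity)
        (pow_le_pow_right₀ (by norm_num) (Nat.le_succ t))
    have h2 := h1.trans hlt.le
    have hq' : q ∈ [((0 : Fin 6), (2 : Fin 4)), (0, 3), (4, 2), (4, 3), (5, 3)] := hq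
    simp only [List.mem_cons, List.not_mem_nil, or_false] at hq'
    rcases hq' with rfl | rfl | rfl | rfl | rfl
    · exact ⟨0, h2⟩
    · exact ⟨1, h2⟩
    · exact ⟨2, h2⟩
    · exact ⟨3, h2⟩
    · exact ⟨4, h2⟩

/-! ### The mass of the ten pairs -/

section mass

variable {Ω : Type} [Fintype Ω] {GT PT : Type} {p : Ω → ℝ}

omit [Fintype Ω] in
/-- Image laws only depend on the support. -/
theorem psh_congr {E : Type} [Fintype E] {P : E → ℝ} {pr pr' : E → Ω} (hP : ∀ e, 0 ≤ P e)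
    (h : Psh P pr p) (he : ∀ e, 0 < P e → pr e = pr' e) : Psh P pr' p := by
  classical
  intro ω
  rw [← h ω]
  unfold law
  refine Finset.sum_congr rfl fun e _ => ?_
  rcases (hP e).eq_or_lt with h0 | h0
  · rw [← h0]
    split_ifs <;> rfl
  · rw [he e h0]

theorem psh_prs (hp : IsLaw p) (g : Ω → GT) (pt : Ω → PT) :
    ∀ q ∈ prs, Psh (PC p g pt) (fun e => (smp e q.1, smp e q.2)) (P2 p g) := by
  have hP := PC_isLaw hp g pt
  have sw : ∀ {pr : C8 Ω → Ω × Ω}, Psh (PC p g pt) pr (P2 p g) →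
      Psh (PC p g pt) (fun e => (pr e).swap) (P2 p g) := fun h =>
    (P2_psh_swap p g).comp h
  have k01 : Psh (PC p g pt) (fun e => (smp e 0, smp e 1)) (P2 p g) := PC_11 hp g pt
  have k02 : Psh (PC p g pt) (fun e => (smp e 0, smp e 2)) (P2 p g) :=
    psh_congr hP.nonneg (PC_12 hp g pt) fun e he => by
      have := (PC_pos hp g pt he).2.1
      exact Prod.ext this.symm rfl
  have k12 : Psh (PC p g pt) (fun e => (smp e 1, smp e 2)) (P2 p g) := PC_ab hp g pt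
  have k34 : Psh (PC p g pt) (fun e => (smp e 3, smp e 4)) (P2 p g) := PC_21 hp g pt
  have k35 : Psh (PC p g pt) (fun e => (smp e 3, smp e 5)) (P2 p g) :=
    psh_congr hP.nonneg (PC_22 hp g pt) fun e he => by
      have := (PC_pos hp g pt he).2.2.1
      exact Prod.ext this.symm rfl
  have k45 : Psh (PC p g pt) (fun e => (smp e 4, smp e 5)) (P2 p g) := PC_ab' hp g pt
  intro q hq
  have hq' : q ∈ [((0 : Fin 6), (1 : Fin 6)), (1, 0), (0, 2), (2, 0), (1, 2), (3, 4), (4, 3),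
    (3, 5), (5, 3), (4, 5)] := hq
  simp only [List.mem_cons, List.not_mem_nil, or_false] at hq'
  rcases hq' with rfl | rfl | rfl | rfl | rfl | rfl | rfl | rfl | rfl | rfl
  · exact k01
  · exact sw k01
  · exact k02
  · exact sw k02
  · exact k12
  · exact k34
  · exact sw k34
  · exact k35
  · exact sw k35
  · exact k45

/-- A finite number of events. -/
theorem Pe_list (hp : IsLaw p) {ι : Type} (l : List ι) (D : ι → Ω → Prop) {η : ℝ}
    (h : ∀ q ∈ l, Pe p (fun ω => ¬ D q ω) ≤ η) :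
    Pe p (fun ω => ¬ ∀ q ∈ l, D q ω) ≤ l.length * η := by
  classical
  induction l with
  | nil =>
    have : Pe p (fun ω => ¬ ∀ q ∈ ([] : List ι), D q ω) = 0 := by
      rw [K2S.Pe_eq]
      refine Finset.sum_eq_zero fun ω _ => ?_
      rw [if_neg]
      simp
    rw [this]
    simp
  | cons q l ih =>
    have h1 := ih fun x hx => h x (List.mem_cons_of_mem _ hx)
    have h2 := h q List.mem_cons_self
    have h3 := Pe_two hp (A := fun ω => ¬ ∀ x ∈ q :: l, D x ω) (B := fun ω => ¬ D q ω)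
      (C := fun ω => ¬ ∀ x ∈ l, D x ω) (fun ω hω => by
        by_contra hcon
        push Not at hcon
        refine hω fun x hx => ?_
        rcases List.mem_cons.1 hx with rfl | hx
        · exact hcon.1
        · exact hcon.2 x hx)
    rw [List.length_cons]
    push_cast
    linarith

/-- **The mass of the ten pairs.** -/
theorem six_mass10 (hp : IsLaw p) (g : Ω → GT) (pt : Ω → PT) (E : Ω × Ω → Prop) {η : ℝ}
    (hE : 1 - η ≤ Pe (P2 p g) E) :
    1 - 10 * η ≤ Pe (PC p g pt) (fun e => ∀ q ∈ prs, E (smp e q.1, smp e q.2)) := by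
  have hP := PC_isLaw hp g pt
  have h2 := P2_isLaw hp g
  have hc : Pe (P2 p g) (fun e => ¬ E e) ≤ η := by
    have := Pe_neg h2 E
    linarith
  have h1 := Pe_list hP prs (fun q e => E (smp e q.1, smp e q.2)) (η := η) fun q hq =>
    (Pe_psh (psh_prs hp g pt q hq) (fun e => ¬ E e)).le.trans hc
  have h3 := Pe_neg hP (fun e => ∀ q ∈ prs, E (smp e q.1, smp e q.2))
  have h4 : ((prs.length : ℕ) : ℝ) = 10 := by
    have : prs.length = 10 := rfl
    rw [this]
    norm_num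
  rw [h4] at h1
  linarith

end mass

/-- The mass of `D.Six R`. -/
theorem six_massD {m J K n₀ : ℕ} {F : Fam m J} (D : PDat F K n₀) {A : F.Ω → Prop}
    (hA : 0 < Pe F.p A) {R : ℕ} {η : ℝ}
    (hE : 1 - η ≤ Pe (P2 (pA F A) (slam F D.w₀))
      (fun e => D.E e ∧ D.M e * 2 ^ R ≤ 2 ^ D.L)) :
    1 - 10 * η ≤ Pe (PC (pA F A) (slam F D.w₀) (ptr F J)) (D.Six R) :=
  six_mass10 (isLaw_cond F.isLaw hA) (slam F D.w₀) (ptr F J)
    (fun e => D.E e ∧ D.M e * 2 ^ R ≤ 2 ^ D.L) hE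

end Pool.MKC
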