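import Pool.Agent.H22.M.Out
import Pool.Agent.H15.R2E.Plr
import Pool.Agent.H53.JM.FullE
import Pool.Agent.H53.JM.Nf

/-!
# Plan M: separated gradients give full rows (`TubRS`)

`tubRS`: the rows in the tube (`tub_rows`) for the law of pairs restricted to the event (`full_E`),
compared with the rate of the height (`nf_pair`).
-/

set_option autoImplicit false

namespace Pool.MKC

open Finset Real
open Pool.Agent.H49.Ent Pool.Agent.H32.Dense Pool.STK Pool.KA Pool.KSAT Pool.K2S Pool.PB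
  Pool.STAT Pool.GEN Pool.M3F Pool.KM7 Pool.S6C Pool.JPN Pool.JPR
open Pool.PM (PDat PlnM Thk nfr TubRS pA tub_rows Lin)

section nf

variable {r : ℝ → ℝ} (hl : LipschitzWith 1 r) (hm : Monotone r)

include hl in
theorem nfr_nonneg {u v : ℝ} (h : u ≤ v) : 0 ≤ nfr r u v := by
  have h1 := hl.dist_le_mul v u
  rw [NNReal.coe_one, one_mul, Real.dist_eq, Real.dist_eq, abs_of_nonneg (by linarith :
    (0 : ℝ) ≤ v - u)] at h1
  unfold nfr
  linarith [(abs_le.1 h1).2]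

include hm in
theorem nfr_le {u v : ℝ} (h : u ≤ v) : nfr r u v ≤ v - u := by
  have h1 := hm h
  unfold nfr
  linarith

theorem nfr_add (u v w : ℝ) : nfr r u v + nfr r v w = nfr r u w := by
  unfold nfr
  ring

/-- The measure of the nonfull rows, in rows. -/
theorem nfr_rows (hl : LipschitzWith 1 r) (hm : Monotone r) {J p sg Pn G n₁ n₂ : ℕ} {R : ℝ}
    (hJ : 0 < J) (hsp : sg ≤ p) (hpP : p ≤ Pn) (h1 : p + G ≤ n₁) (h12 : n₁ ≤ n₂)
    (h2 : n₂ ≤ Pn + G)
    (hR : ((n₂ : ℝ) - n₁) * Real.log 2 ≤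
      (r (((n₂ - (sg + G) : ℕ) : ℝ) / J) - r (((n₁ - (sg + G) : ℕ) : ℝ) / J)) *
        Real.log 2 * J + R) :
    nfr r ((p - sg : ℕ) / J) ((Pn - sg : ℕ) / J) * J ≤
      ((n₁ : ℝ) - p - G) + ((Pn : ℝ) + G - n₂) + 2 * R := by
  have hJ0 : (0 : ℝ) < J := by exact_mod_cast hJ
  have hl2 : 1 / 2 < Real.log 2 := by
    have := Real.log_two_gt_d9
    linarith only [this]
  obtain ⟨a, ha⟩ : ∃ a : ℝ, a = ((n₁ - (sg + G) : ℕ) : ℝ) / J := ⟨_, rfl⟩
  obtain ⟨b, hb⟩ : ∃ b : ℝ, b = ((n₂ - (sg + G) : ℕ) : ℝ) / J := ⟨_, rfl⟩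
  obtain ⟨u, hu⟩ : ∃ u : ℝ, u = ((p - sg : ℕ) : ℝ) / J := ⟨_, rfl⟩
  obtain ⟨v, hv⟩ : ∃ v : ℝ, v = ((Pn - sg : ℕ) : ℝ) / J := ⟨_, rfl⟩
  rw [← ha, ← hb] at hR
  rw [← hu, ← hv]
  have ha' : a * J = n₁ - (sg + G) := by
    rw [ha, div_mul_cancel₀ _ hJ0.ne', Nat.cast_sub (by omega)]
    push_cast
    ring
  have hb' : b * J = n₂ - (sg + G) := by
    rw [hb, div_mul_cancel₀ _ hJ0.ne', Nat.cast_sub (by omega)]
    push_cast
    ring
  have hu' : u * J = p - sg := by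
    rw [hu, div_mul_cancel₀ _ hJ0.ne', Nat.cast_sub (by omega)]
  have hv' : v * J = Pn - sg := by
    rw [hv, div_mul_cancel₀ _ hJ0.ne', Nat.cast_sub (by omega)]
  have a1 : (p : ℝ) + G ≤ n₁ := by exact_mod_cast h1
  have a2 : (n₁ : ℝ) ≤ n₂ := by exact_mod_cast h12
  have a3 : (n₂ : ℝ) ≤ Pn + G := by exact_mod_cast h2
  have i1 : u ≤ a := le_of_mul_le_mul_right (by rw [ha', hu']; linarith) hJ0
  have i2 : a ≤ b := le_of_mul_le_mul_right (by rw [ha', hb']; linarith) hJ0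
  have i3 : b ≤ v := le_of_mul_le_mul_right (by rw [hv', hb']; linarith) hJ0
  have k1 := mul_le_mul_of_nonneg_right (nfr_le hm i1) hJ0.le
  have k2 := mul_le_mul_of_nonneg_right (nfr_le hm i3) hJ0.le
  have k3 := nfr_nonneg hl i2
  have k4 : nfr r u v = nfr r u a + nfr r a b + nfr r b v := by
    rw [nfr_add, nfr_add]
  have k5 : nfr r a b * J ≤ 2 * R := by
    have l1 : nfr r a b * J * Real.log 2 ≤ R := by
      have l2 : (b - a) * J = (n₂ : ℝ) - n₁ := by
        rw [sub_mul, ha', hb']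
        ring
      unfold nfr
      have l3 : (b - a - (r b - r a)) * J * Real.log 2 =
          (b - a) * J * Real.log 2 - (r b - r a) * Real.log 2 * J := by ring
      rw [l3, l2]
      linarith only [hR]
    have l4 : 0 ≤ nfr r a b * J := mul_nonneg k3 hJ0.le
    nlinarith only [l1, hl2, l4]
  rw [k4, add_mul, add_mul]
  rw [sub_mul, ha', hu'] at k1
  rw [sub_mul, hv', hb'] at k2
  linarith only [k1, k2, k5]

end nf

/-- The numbers of the mesh. -/
theorem tub_sz {J len X S : ℕ} {th s ρ : ℝ} (hρ : 0 < ρ) (hJ : 0 < J) (hth : 3 * (ρ * J) ≤ th)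
    (hs : s = √(th * len)) (hX : s ≤ X) (hX1 : 1 ≤ X) (hS : S * X ≤ len) (hlen : len ≤ J) :
    (S : ℝ) * th ≤ s ∧ (S : ℝ) ≤ 1 / (3 * ρ) := by
  have hJ0 : (0 : ℝ) < J := by exact_mod_cast hJ
  have hth0 : 0 < th := lt_of_lt_of_le (by positivity) hth
  have hs0 : 0 ≤ s := by rw [hs]; exact Real.sqrt_nonneg _
  have hS0 : (0 : ℝ) ≤ S := Nat.cast_nonneg S
  have hSX : (S : ℝ) * X ≤ len := by exact_mod_cast hS
  have hlJ : (len : ℝ) ≤ J := by exact_mod_cast hlen
  rcases Nat.eq_zero_or_pos S with h0 | h0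
  · rw [h0]
    push_cast
    exact ⟨by linarith, by positivity⟩
  · have hS1 : (1 : ℝ) ≤ S := by exact_mod_cast h0
    have hX1' : (1 : ℝ) ≤ X := by exact_mod_cast hX1
    have hl0 : (0 : ℝ) < len := by nlinarith
    have hss : s * s = th * len := by
      rw [hs]
      exact Real.mul_self_sqrt (by positivity)
    have hspos : 0 < s := by
      rw [hs]
      exact Real.sqrt_pos.2 (by positivity)
    have h1 : (S : ℝ) * s ≤ len := (mul_le_mul_of_nonneg_left hX hS0).trans hSX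
    have h2 : (S : ℝ) * th ≤ s := by
      have h3 : (S : ℝ) * s * s ≤ len * s := mul_le_mul_of_nonneg_right h1 hs0
      rw [mul_assoc, hss] at h3
      have h4 : (len : ℝ) * (S * th) ≤ len * s := by linarith
      exact le_of_mul_le_mul_left h4 hl0
    refine ⟨h2, ?_⟩
    have h5 : (S : ℝ) * (S * th) ≤ S * s := mul_le_mul_of_nonneg_left h2 hS0
    have h6 : (S : ℝ) * th ≤ S * (S * th) :=
      le_mul_of_one_le_left (by positivity) hS1
    have h7 : (S : ℝ) * (3 * (ρ * J)) ≤ J :=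
      (mul_le_mul_of_nonneg_left hth hS0).trans (h6.trans (h5.trans (h1.trans hlJ)))
    rw [le_div_iff₀ (by positivity)]
    refine le_of_mul_le_mul_right ?_ hJ0
    linarith

/-- The size of the error. -/
theorem tub_end {J G h len : ℕ} {ρ C1 s c N : ℝ} (hC1 : 0 ≤ C1) (hρ : 0 < ρ) (hJ : 0 < J)
    (hs : s = √((3 * (ρ * J) + h) * len)) (hc : c + 2 * C1 ≤ ρ * J)
    (hN : N * J ≤ (3 + 4 * C1) * s + G + 5 * (ρ * J) + 2 * C1 * (3 * (ρ * J) + h) + (c + 2 * C1)) :
    N ≤ 8 * (C1 + 1) * (((G : ℝ) + h) / J + ρ + √(((h : ℝ) / J + ρ) * (len / J))) := by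
  have hJ0 : (0 : ℝ) < J := by exact_mod_cast hJ
  have hh0 : (0 : ℝ) ≤ h := Nat.cast_nonneg h
  have hG0 : (0 : ℝ) ≤ G := Nat.cast_nonneg G
  have hl0 : (0 : ℝ) ≤ len := Nat.cast_nonneg len
  obtain ⟨T, hT⟩ : ∃ T : ℝ, T = √(((h : ℝ) / J + ρ) * (len / J)) := ⟨_, rfl⟩
  have hT0 : 0 ≤ T := by rw [hT]; exact Real.sqrt_nonneg _
  have hsT : s ≤ 2 * (T * J) := by
    rw [hs]
    refine Real.sqrt_le_iff.2 ⟨by positivity, ?_⟩
    have h1 : T * T = ((h : ℝ) / J + ρ) * (len / J) := by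
      rw [hT]
      exact Real.mul_self_sqrt (by positivity)
    have h2 : (T * J) * (T * J) = (h + ρ * J) * len := by
      have h3 : (T * J) * (T * J) = (T * T) * (J * J) := by ring
      rw [h3, h1]
      field_simp
    have h4 : (2 * (T * J)) ^ 2 = 4 * ((T * J) * (T * J)) := by ring
    rw [h4, h2]
    have h5 : (3 * (ρ * J) + h) * len ≤ 4 * ((h + ρ * J) * len) := by
      have h6 : 0 ≤ ρ * J * len := by positivity
      have h7 : 0 ≤ (h : ℝ) * len := by positivity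
      nlinarith
    exact h5
  rw [← hT]
  refine le_of_mul_le_mul_right ?_ hJ0
  have h8 : 8 * (C1 + 1) * (((G : ℝ) + h) / J + ρ + T) * J =
      8 * (C1 + 1) * (G + h + ρ * J + T * J) := by
    field_simp
  rw [h8]
  refine hN.trans ?_
  have h9 : (3 + 4 * C1) * s ≤ (3 + 4 * C1) * (2 * (T * J)) :=
    mul_le_mul_of_nonneg_left hsT (by positivity)
  have g1 : 0 ≤ C1 * G := by positivity
  have g2 : 0 ≤ C1 * h := by positivity
  have g3 : 0 ≤ C1 * (ρ * J) := by positivity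
  have g4 : 0 ≤ C1 * (T * J) := by positivity
  have g5 : 0 ≤ T * J := by positivity
  have g6 : 0 ≤ ρ * J := by positivity
  nlinarith only [h9, g1, g2, g3, g4, g5, g6, hc, hh0, hG0]

/-- **(M3) Separated gradients give full rows.** -/
theorem tubRS : ∃ C : ℝ, 0 ≤ C ∧ ∀ {m : ℕ}, KP 3 → ∀ {S : PCl m} {w₀ w₁ : ℝ}, w₀ ≤ w₁ →
    w₁ ≤ 1 → Pool.GRW.TmWn S w₀ → ∀ {c : ℕ → Fin m} {b₀ : ℝ},
    ExvY S w₁ (fun J F ω (i : Fin 3) => F.X J ω (c i)) b₀ →
    (∀ j, j ≠ c 3 → ∃ i : Fin 3, c i = j) → ∀ {r : ℝ → ℝ}, Pool.ALL.RateOf S (c 3) r →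
    TubRS S c r w₀ w₁ b₀ C := by
  classical
  obtain ⟨C1, hC1, key⟩ := tub_rows
  refine ⟨8 * (C1 + 1), by positivity, ?_⟩
  intro m hKP S w₀ w₁ hw hw1 htm c b₀ hex hN r hr K n₀ hK κ ρ hκ hρ
  obtain ⟨c₀, C2, hC2, key⟩ := key K
  -- the mesh of the profile
  obtain ⟨Sm, hSm⟩ : ∃ Sm : ℝ, Sm = 1 / (3 * ρ) + 1 := ⟨_, rfl⟩
  have hSm0 : 0 < Sm := by rw [hSm]; positivity
  obtain ⟨ε, hε⟩ : ∃ ε : ℝ, ε = min (ρ / 2) (ρ / (2 * ((C2 + 1) * Sm))) := ⟨_, rfl⟩
  have hε0 : 0 < ε := by rw [hε]; positivity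
  have hε1 : ε ≤ ρ / 2 := by rw [hε]; exact min_le_left _ _
  have hε2 : C2 * Sm * ε ≤ ρ / 2 := by
    have h1 : ε ≤ ρ / (2 * ((C2 + 1) * Sm)) := by rw [hε]; exact min_le_right _ _
    rw [le_div_iff₀ (by positivity)] at h1
    have h2 : 0 ≤ Sm * ε := by positivity
    nlinarith only [h1, h2]
  obtain ⟨Pp, hPp⟩ := exists_nat_gt (2 / ε)
  obtain ⟨κ', hκ'⟩ : ∃ κ' : ℝ, κ' = min κ 1 / ((Pp : ℝ) + 1) := ⟨_, rfl⟩
  have hPp0 : (0 : ℝ) ≤ Pp := Nat.cast_nonneg Pp
  have hκ0 : 0 < κ' := by rw [hκ']; positivity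
  have hκ1 : κ' ≤ 1 := by
    rw [hκ', div_le_one (by positivity)]
    exact (min_le_right _ _).trans (by linarith)
  have hκ2 : κ' * ((Pp : ℝ) + 1) ≤ κ := by
    rw [hκ', div_mul_cancel₀ _ (by positivity)]
    exact min_le_left _ _
  have hpos : Bas S (fun _ F A => 0 < Pe F.p A) := by
    refine (full_E (k := 3) hKP (hw.trans hw1) htm hex (Φ := fun _ _ _ => True)
      ⟨1, one_pos, 0, fun _ _ _ _ _ => trivial⟩ (κ := 1) one_pos le_rfl hρ).mono 0 ?_
    rintro J - F A ⟨h1, -⟩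
    exact h1
  have hfull := full_E (k := 3) hKP (hw.trans hw1) htm hex (nf_pair hr hpos hρ) hκ0 hκ1 hρ
  -- large `J`
  obtain ⟨N₁, hN₁⟩ := exists_nat_gt ((8 + Real.log n₀) / ρ)
  obtain ⟨N₂, hN₂⟩ := exists_nat_gt ((6 + 3 * c₀ + 2 * C1) / ρ)
  obtain ⟨N₃, hN₃⟩ := exists_nat_gt (2 * (C2 * Sm * (2 + c₀)) / ρ)
  obtain ⟨N₄, hN₄⟩ := exists_nat_gt ((c₀ : ℝ))
  refine hfull.mono (N₁ + N₂ + N₃ + N₄ + 1) ?_
  rintro J hJN F A ⟨hA, hmain⟩
  intro D hD hw₀ hw₁ hLd hgJ hb p E' hsp hpP hPJ hE' hmass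
  rw [← hw₀] at hmain
  rw [← hw₁] at hmain
  have hJ : 0 < J := by omega
  have hJ0 : (0 : ℝ) < J := by exact_mod_cast hJ
  have b1 : 8 + Real.log n₀ ≤ ρ * J := by
    rw [div_lt_iff₀ hρ] at hN₁
    have : (N₁ : ℝ) ≤ J := by exact_mod_cast (by omega : N₁ ≤ J)
    nlinarith only [this, hN₁, hρ]
  have b2 : 6 + 3 * c₀ + 2 * C1 ≤ ρ * J := by
    rw [div_lt_iff₀ hρ] at hN₂
    have : (N₂ : ℝ) ≤ J := by exact_mod_cast (by omega : N₂ ≤ J)
    nlinarith only [this, hN₂, hρ]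
  have b3 : C2 * Sm * (2 + c₀) ≤ ρ / 2 * J := by
    rw [div_lt_iff₀ hρ] at hN₃
    have : (N₃ : ℝ) ≤ J := by exact_mod_cast (by omega : N₃ ≤ J)
    nlinarith only [this, hN₃, hρ]
  have b4 : c₀ ≤ J := by
    have : c₀ < N₄ := by exact_mod_cast hN₄
    omega
  have hc0 : (0 : ℝ) ≤ c₀ := Nat.cast_nonneg c₀
  -- the parameters
  obtain ⟨len, hlen⟩ : ∃ len : ℕ, len = D.Pn - p := ⟨_, rfl⟩
  obtain ⟨th, hth⟩ : ∃ th : ℝ, th = 3 * (ρ * J) + D.h := ⟨_, rfl⟩
  obtain ⟨s, hs⟩ : ∃ s : ℝ, s = √(th * len) := ⟨_, rfl⟩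
  obtain ⟨X, hX⟩ : ∃ X : ℕ, X = ⌊s⌋₊ + 1 := ⟨_, rfl⟩
  obtain ⟨hh, hhh⟩ : ∃ hh : ℕ, hh = ⌊ε * J⌋₊ + 1 + c₀ := ⟨_, rfl⟩
  have hs0 : 0 ≤ s := by rw [hs]; exact Real.sqrt_nonneg _
  have h0 : (0 : ℝ) ≤ D.h := Nat.cast_nonneg _
  have hρJ : 0 < ρ * J := by positivity
  have hεJ : 0 < ε * J := by positivity
  have hth0 : 0 ≤ th := by rw [hth]; positivity
  have x1 : s ≤ X := by
    rw [hX]
    push_cast
    exact (Nat.lt_floor_add_one _).le
  have x2 : (X : ℝ) ≤ s + 1 := by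
    rw [hX]
    push_cast
    have := Nat.floor_le hs0
    linarith
  have y1 : ε * J ≤ hh := by
    rw [hhh]
    push_cast
    have := (Nat.lt_floor_add_one (ε * J)).le
    linarith
  have y2 : (hh : ℝ) ≤ ε * J + 1 + c₀ := by
    rw [hhh]
    push_cast
    have := Nat.floor_le hεJ.le
    linarith
  have hlen' : (len : ℝ) = (D.Pn : ℝ) - p := by rw [hlen, Nat.cast_sub hpP]
  have hN' : nfr r ((p - D.sg : ℕ) / J) ((D.Pn - D.sg : ℕ) / J) * J ≤
      (3 + 4 * C1) * s + D.G + 5 * (ρ * J) + 2 * C1 * (3 * (ρ * J) + D.h) +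
        ((6 + 3 * c₀) + 2 * C1) := by
    have q1 : 0 ≤ C1 * s := by positivity
    have q2 : 0 ≤ C1 * (ρ * J) := by positivity
    have q3 : 0 ≤ C1 * D.h := by positivity
    have q4 : ε * J ≤ ρ / 2 * J := mul_le_mul_of_nonneg_right hε1 hJ0.le
    by_cases hcase : D.Pn < p + D.G + (2 * X + 2 * hh + c₀ + 1)
    · have c1 : (D.Pn : ℝ) < p + D.G + (2 * X + 2 * hh + c₀ + 1) := by exact_mod_cast hcase
      have hle : (((p - D.sg : ℕ) : ℝ)) / J ≤ ((D.Pn - D.sg : ℕ) : ℝ) / J := by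
        refine div_le_div_of_nonneg_right ?_ hJ0.le
        exact_mod_cast Nat.sub_le_sub_right hpP _
      have c2 := mul_le_mul_of_nonneg_right (nfr_le hr.mono hle) hJ0.le
      rw [sub_mul, div_mul_cancel₀ _ hJ0.ne', div_mul_cancel₀ _ hJ0.ne'] at c2
      have c3 : ((p - D.sg : ℕ) : ℝ) = p - D.sg := Nat.cast_sub hsp
      have c4 : ((D.Pn - D.sg : ℕ) : ℝ) = D.Pn - D.sg := Nat.cast_sub (hsp.trans hpP)
      nlinarith only [c1, c2, c3, c4, q1, q2, q3, q4, x2, y2, hs0, hC1, hρJ]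
    · push Not at hcase
      obtain ⟨hi, hhi⟩ : ∃ hi : ℕ, hi = D.Pn - (2 * X + 2 * hh + c₀ + 1) := ⟨_, rfl⟩
      have hD' : PlnM hK F A c D.w₀ D.w₁ D.h D.θ D.d D.L D.Ln D.sg D.Pn D.G D.η D.g D.P D.z₀
          D.z₀' D.z₁ D.z₁' D.lf D.br D.a D.b D.χ D.M D.E := hD
      have hbig : p + D.G + c₀ < hh * (Pp + 1) := by
        have e1 : (p : ℝ) + D.G ≤ J := by
          have : p + D.G ≤ J := by omega
          exact_mod_cast this
        have e2 : (c₀ : ℝ) ≤ J := by exact_mod_cast b4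
        have e3 : 2 * (J : ℝ) < ε * J * (Pp + 1) := by
          rw [div_lt_iff₀ hε0] at hPp
          have e4 := mul_lt_mul_of_pos_right hPp hJ0
          nlinarith only [e4, hεJ]
        have e5 : ε * J * ((Pp : ℝ) + 1) ≤ hh * (Pp + 1) :=
          mul_le_mul_of_nonneg_right y1 (by positivity)
        have e6 : (p : ℝ) + D.G + c₀ < hh * (Pp + 1) := by linarith only [e1, e2, e3, e5]
        exact_mod_cast e6
      obtain ⟨n₁, n₂, S', E'', f1, f2, f3, f4, f5, f6, f7, f8⟩ :=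
        key hD' hA (by rw [hw₀, hw₁]; exact Nat.floor_mono (mul_le_mul_of_nonneg_right hw hJ0.le))
          (by
            rw [hw₁]
            exact Nat.floor_le_of_le (by nlinarith only [hw1, hJ0])) hgJ hLd X hh Pp p hi
          (by omega) (by omega) hbig (by omega) (by omega) (by omega)
      have hl := isLaw_cond F.isLaw hA
      have hP2 := P2_isLaw hl (slam F D.w₀)
      have g1 : κ' ≤ Pe (P2 (Pool.Agent.H49.Ent.cond F.p A True) (slam F D.w₀)) E'' := by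
        have g2 : κ ≤ ((Pp : ℝ) + 1) *
            Pe (P2 (Pool.Agent.H49.Ent.cond F.p A True) (slam F D.w₀)) E'' := by
          refine hmass.trans (le_trans ?_ f2)
          exact Pe_mono hP2 fun e he => hE' e he
        refine le_of_mul_le_mul_right ?_ (by positivity : (0 : ℝ) < (Pp : ℝ) + 1)
        linarith only [g2, hκ2]
      obtain ⟨B, Q, h1, h2, h3, h4, h5, h6, h7, h8⟩ := hmain E'' g1
      have k1 := f8 (Q := Q) (E₀ := (b₀ - ρ) * Real.log 2 * J) (th := th) h4 (fun e he =>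
        ⟨(h6 e he).1, by
          have := h7 e
          by_contra hcon
          push Not at hcon
          have hz : P2 (Pool.Agent.H49.Ent.cond F.p A True) (slam F D.w₀) e = 0 :=
            le_antisymm hcon (hP2.nonneg e)
          rw [hz, mul_zero] at this
          linarith⟩) hth0 h8 (by
            have l2 : Real.log 2 ≤ 1 := by
              have := Real.log_two_lt_d9
              linarith only [this]
            have l0 : 0 < Real.log 2 := Real.log_pos one_lt_two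
            have l7 : Real.log 7 ≤ 21 / 10 := by
              have e1 : Real.log 7 ≤ Real.log (2 ^ 3) :=
                Real.log_le_log (by norm_num) (by norm_num)
              rw [Real.log_pow] at e1
              push_cast at e1
              have e2 : Real.log 7 ≤ 3 * Real.log 2 := e1
              linarith only [e2, Real.log_two_lt_d9]
            have l9 : Real.log (2 * 2 ^ (D.d - D.L + D.h + 2) + 3) ≤
                ((D.d : ℝ) - D.L + D.h + 4) * Real.log 2 := by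
              have e1 : (2 : ℝ) * 2 ^ (D.d - D.L + D.h + 2) + 3 ≤ 2 ^ (D.d - D.L + D.h + 4) := by
                have e2 : (2 : ℝ) ^ (D.d - D.L + D.h + 4) = 4 * 2 ^ (D.d - D.L + D.h + 2) := by
                  rw [show D.d - D.L + D.h + 4 = (D.d - D.L + D.h + 2) + 2 by ring, pow_add]
                  ring
                have e3 : (4 : ℝ) ≤ 2 ^ (D.d - D.L + D.h + 2) := by
                  calc (4 : ℝ) = 2 ^ 2 := by norm_num
                    _ ≤ 2 ^ (D.d - D.L + D.h + 2) := pow_le_pow_right₀ (by norm_num) (by omega)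
                rw [e2]
                linarith only [e3]
              refine (Real.log_le_log (by positivity) e1).trans (le_of_eq ?_)
              rw [Real.log_pow]
              push_cast
              rw [Nat.cast_sub hLd]
            have l10 : ∑ i : Fin 3, ((J : ℝ) - D.g i - D.d) =
                (∑ i ∈ range 3, ((J : ℝ) - D.g i)) - 3 * D.d := by
              rw [Finset.sum_range, Finset.sum_sub_distrib]
              simp
            rw [l10, hth]
            have l11 : ((∑ i ∈ range 3, ((J : ℝ) - D.g i)) - 3 * D.d) * Real.log 2 ≤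
                ((b₀ + ρ) * J + D.L - 3 * D.d) * Real.log 2 :=
              mul_le_mul_of_nonneg_right (by linarith only [hb]) l0.le
            have l12 : ρ * J * Real.log 2 ≤ ρ * J := mul_le_of_le_one_right hρJ.le l2
            have l13 : (D.h : ℝ) * Real.log 2 ≤ D.h := mul_le_of_le_one_right h0 l2
            nlinarith only [l11, l12, l13, l9, l7, Real.log_two_lt_d9, b1])
      have k2 := h3 (F.Ω × F.Ω) Q Prod.fst h4 h5 3 (fun i : Fin 3 => c i) hN _
        (WW 3 F c D.P D.z₀ D.z₀' D.g D.d D.w₀ D.br) (fun e e' _ _ h => (Prod.ext_iff.1 h).1)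
        (D.sg + D.G) n₁ n₂ (by omega) (by omega) (by omega)
      have k3 := nfr_rows hr.lip hr.mono (R := ρ * J + (C1 * (((S' : ℝ) + 1) * th + X) +
        C2 * (((S' : ℝ) + 1) * (1 + hh)))) hJ hsp hpP f3 (by omega : n₁ ≤ n₂) (by omega) (by
          unfold Pool.R1.Rows at k1
          linarith only [k1, k2])
      have m0 : (S' : ℝ) * X = (n₂ : ℝ) - n₁ := by
        rw [f7]
        push_cast
        ring
      have m1 : S' * X ≤ len := by
        have : n₂ = n₁ + S' * X := f7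
        omega
      obtain ⟨m2, m3⟩ := tub_sz (J := J) (len := len) (X := X) (S := S') (th := th) (s := s) hρ hJ
        (by rw [hth]; linarith only [h0]) hs x1 (by omega) m1 (by omega)
      have a1 : (n₁ : ℝ) ≤ p + D.G + X := by exact_mod_cast f4
      have a2 : (hi : ℝ) ≤ n₂ := by exact_mod_cast f5
      have a3 : (hi : ℝ) = D.Pn - (2 * X + 2 * hh + c₀ + 1) := by
        rw [hhi, Nat.cast_sub (by omega)]
        push_cast
        ring
      have a4 : C2 * (((S' : ℝ) + 1) * (1 + hh)) ≤ ρ * J := by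
        have e1 : (S' : ℝ) + 1 ≤ Sm := by rw [hSm]; linarith only [m3]
        have e2 : ((S' : ℝ) + 1) * (1 + hh) ≤ Sm * (2 + c₀ + ε * J) :=
          mul_le_mul e1 (by linarith only [y2]) (by positivity) hSm0.le
        have e3 := mul_le_mul_of_nonneg_left e2 hC2
        have e4 : C2 * (Sm * (2 + c₀ + ε * J)) = C2 * Sm * (2 + c₀) + C2 * Sm * ε * J := by ring
        have e5 : C2 * Sm * ε * J ≤ ρ / 2 * J := mul_le_mul_of_nonneg_right hε2 hJ0.le
        linarith only [e3, e4, e5, b3]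
      have a5 : C1 * (((S' : ℝ) + 1) * th + X) ≤ C1 * (2 * s + th + 1) := by
        refine mul_le_mul_of_nonneg_left ?_ hC1
        linarith only [m2, x2]
      rw [← hth]
      nlinarith only [k3, a1, a2, a3, a4, a5, x2, y2, q4, hs0, hρJ]
  rw [← hlen]
  exact tub_end (h := D.h) (len := len) (s := s) hC1 hρ hJ (by rw [hs, hth])
    (by linarith only [b2]) hN'

end Pool.MKC
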