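import Pool.Agent.H22.M.Asm
import Pool.Agent.H71.MKC.Det
import Pool.Agent.H71.MKC.Tbr

/-!
# Plan M: the assembly, with the determinants and the tube inserted

`asm_M`: `asm` with `DetS`, `TubRS`, `SixM` proved; there remain `PlnMS`, `HypS` and `CasM`, with one
universal constant.
-/

set_option autoImplicit false

namespace Pool.MKC

open Finset Real
open Pool.Agent.H49.Ent Pool.Agent.H32.Dense Pool.STK Pool.KA Pool.KSAT Pool.K2S Pool.PB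
  Pool.STAT Pool.GEN Pool.M3F Pool.KM7 Pool.S6C Pool.JPN Pool.JPR
open Pool.PM (PDat PlnM Thk nfr TubRS DetS HypS CasM SixM PlnMS pA)

variable {m : ℕ}

theorem sixM : SixM m := fun _ _ _ _ D _ _ hA hE => six_massD D hA hE

theorem detS_mono {S : PCl m} {c : ℕ → Fin m} {r : ℝ → ℝ} {w₀ w₁ b C C' : ℝ}
    (h : DetS S c r w₀ w₁ b C) (hC : C ≤ C') : DetS S c r w₀ w₁ b C' := by
  intro κ ρ hκ hρ
  refine (h κ ρ hκ hρ).mono 0 ?_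
  intro J _ F A h1 K n₀ hK D a1 a2 a3 R t a4 a5 a6 a7 a8 a9 a10
  refine h1 K n₀ hK D a1 a2 a3 R t a4 a5 a6 a7 a8 a9 (lt_of_le_of_lt ?_ a10)
  have h0 : 0 ≤ ρ * J + √((D.L : ℝ) - R) + √(((t : ℝ) + 1) * R) + (t + 1) := by positivity
  have := mul_le_mul_of_nonneg_right hC h0
  linarith

theorem tubRS_mono {S : PCl m} {c : ℕ → Fin m} {r : ℝ → ℝ} {w₀ w₁ b C C' : ℝ}
    (h : TubRS S c r w₀ w₁ b C) (hC : C ≤ C') : TubRS S c r w₀ w₁ b C' := by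
  intro K n₀ hK κ ρ hκ hρ
  refine (h K n₀ hK κ ρ hκ hρ).mono 0 ?_
  intro J _ F A h1 D a1 a2 a3 a4 a5 a6 p E' a7 a8 a9 a10 a11
  refine (h1 D a1 a2 a3 a4 a5 a6 p E' a7 a8 a9 a10 a11).trans ?_
  exact mul_le_mul_of_nonneg_right hC (by positivity)

theorem hypS_mono {S : PCl m} {c : ℕ → Fin m} {w₀ Pa C C' : ℝ}
    (h : HypS S c w₀ Pa C) (hC : C ≤ C') : HypS S c w₀ Pa C' := by
  intro κ h₀ hκ hh
  refine (h κ h₀ hκ hh).mono 0 ?_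
  intro J _ F A h1 K n₀ hK D a1 a2 R t a3 a4 a5 a6 a7
  refine h1 K n₀ hK D a1 a2 R t a3 a4 a5 a6 (le_trans ?_ a7)
  have := mul_le_mul_of_nonneg_right hC (by positivity : (0 : ℝ) ≤ (D.h : ℝ) + 1)
  linarith

theorem casM_mono {C C' : ℕ} (h : CasM m C) (hC : C ≤ C') : CasM m C' := by
  intro η₂ Nl hη h1
  obtain ⟨κ, hκ, h2⟩ := h η₂ Nl hη h1
  refine ⟨κ, hκ, ?_⟩
  intro J F A c K n₀ hK D hD hA hη' X t hX hL hLd ht ht'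
  have hm : C * (D.h + 1) ≤ C' * (D.h + 1) := Nat.mul_le_mul_right _ hC
  obtain ⟨R, b1, b2, b3, b4⟩ := h2 F A c K n₀ hK D hD hA hη' X t hX hL hLd (by omega) (by omega)
  refine ⟨R, b1, b2, b3, ?_⟩
  rcases b4 with b4 | ⟨p, b4, b5⟩ | ⟨b4, b5⟩
  · exact Or.inl (by omega)
  · exact Or.inr (Or.inl ⟨p, by omega, b5⟩)
  · refine Or.inr (Or.inr ⟨by omega, b5.trans ?_⟩)
    have hl := isLaw_cond F.isLaw hA
    have hP2 := P2_isLaw hl (slam F D.w₀)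
    have h3 : 1 - D.η ≤ Pe (P2 (Pool.Agent.H49.Ent.cond F.p A True) (slam F D.w₀)) D.E := hD.mass
    have h4 : Pe (P2 (Pool.Agent.H49.Ent.cond F.p A True) (slam F D.w₀)) D.E ≤ 1 := by
      classical
      rw [Pe_eq, ← hP2.sum_one]
      refine Finset.sum_le_sum fun e _ => ?_
      split_ifs
      exacts [le_rfl, hP2.nonneg e]
    refine mul_le_mul_of_nonneg_right (by exact_mod_cast hC) (by linarith)

/-- **The assembly**, `M1`, `M3` inserted. `C2`, `C4`: the constants of `HypS` and `CasM`. -/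
theorem asm_M (C2 C4 : ℕ) : ∃ C : ℕ, 1 ≤ C ∧ ∀ {m : ℕ}, KP 3 → CasM m C4 → ∀ {S : PCl m}, S.Ne →
    ∀ {c : ℕ → Fin m} {w₀ w₁ : ℝ}, w₀ ≤ w₁ → w₁ ≤ 1 → Pool.GRW.TmWn S w₀ → ∀ {b : ℝ},
    ExvY S w₁ (fun J F ω (i : Fin 3) => F.X J ω (c i)) b →
    (∀ j, j ≠ c 3 → ∃ i : Fin 3, c i = j) → ∀ {r : ℝ → ℝ}, Pool.ALL.RateOf S (c 3) r →
    ∀ {β : ℕ → ℝ}, HypS S c w₀ (β 3) C2 → ∀ {y P1 sg mv cc Cp : ℝ}, 2 ≤ Cp →
    PlnMS S c β w₀ w₁ y P1 sg mv cc (1 / (100 * ((C : ℝ) + 10))) Cp →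
    ∑ i ∈ range 3, (1 - β i) - mv - y ≤ b → 0 ≤ y → 0 ≤ sg → P1 + sg ≤ 1 → cc ≤ P1 + sg →
    β 3 ≤ P1 → ∀ {s θ : ℝ}, 0 < s → 16 * (C + 1) * (2 * Cp + 5) * s ≤ θ → Cp * y ≤ s →
    Cp * (s + θ) ≤ mv → Cp * (s + θ) ≤ cc →
    nfr r (β 3) P1 ≤ 64 * (C + 1) * (2 * Cp + 5) * (θ + √(θ * (P1 - β 3))) := by
  obtain ⟨C1, hC1, h1⟩ := detS
  obtain ⟨C3, hC3, h3⟩ := tubRS
  obtain ⟨N1, hN1⟩ := exists_nat_ge C1
  obtain ⟨N3, hN3⟩ := exists_nat_ge C3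
  refine ⟨N1 + N3 + C2 + C4 + 1, by omega, ?_⟩
  intro m hKP hcas S hne c w₀ w₁ hw hw1 htm b hex hN r hr β hhyp y P1 sg mv cc Cp hCp hPl hb hy hsg
    hPs hcc hP1 s θ hs hθs hys hmv hc
  have hpos : Bas S (fun _ F A => 0 < Pe F.p A) := by
    refine (full_E (k := 3) hKP (hw.trans hw1) htm hex (Φ := fun _ _ _ => True)
      ⟨1, one_pos, 0, fun _ _ _ _ _ => trivial⟩ (κ := 1) one_pos le_rfl
      (one_pos : (0 : ℝ) < 1)).mono 0 ?_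
    rintro J - F A ⟨g1, -⟩
    exact g1
  refine Pool.PM.asm hne hpos hr.lip hr.mono hCp (by omega) hPl
    (detS_mono (h1 hKP hw hw1 htm hex hN hr) ?_) (hypS_mono hhyp ?_)
    (tubRS_mono (h3 hKP hw hw1 htm hex hN hr) ?_) (casM_mono hcas (by omega)) sixM hb hy hsg hPs hcc
    hP1 hs hθs hys hmv hc
  · push_cast
    linarith [(Nat.cast_nonneg N3 : (0 : ℝ) ≤ N3), (Nat.cast_nonneg C2 : (0 : ℝ) ≤ C2),
      (Nat.cast_nonneg C4 : (0 : ℝ) ≤ C4)]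
  · push_cast
    linarith [(Nat.cast_nonneg N3 : (0 : ℝ) ≤ N3), (Nat.cast_nonneg N1 : (0 : ℝ) ≤ N1),
      (Nat.cast_nonneg C4 : (0 : ℝ) ≤ C4)]
  · push_cast
    linarith [(Nat.cast_nonneg N1 : (0 : ℝ) ≤ N1), (Nat.cast_nonneg C2 : (0 : ℝ) ≤ C2),
      (Nat.cast_nonneg C4 : (0 : ℝ) ≤ C4)]

end Pool.MKC
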