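import Pool.Agent.H53.JM.FullE

/-!
# Six samples

`PC p g pt`: the law of six samples: `o`, `a`, `b` conditionally independent given `g`; `o'` a copy
of `o` given `pt`; `a'`, `b'` copies of `o'` given `g`. Marginals, the entropy of a function of one
sample given all the other ones, restriction to an event, the choice of the best samples.
-/

set_option autoImplicit false

namespace Pool.MKC

open Finset Real
open Pool.Agent.H49.Ent Pool.Agent.H32.Dense Pool.STK Pool.KA Pool.KSAT Pool.K2S Pool.PB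
  Pool.GEN Pool.KM7 Pool.S6C Pool.M3F Pool.JPR

section Two

variable {Ω : Type} [Fintype Ω] {GT : Type} {p : Ω → ℝ}

/-- Conditional independence, second sample. -/
theorem P2_two (hp : IsLaw p) (g : Ω → GT) {S T : Type} (X : Ω → S) (Y : Ω → T)
    (hY : Det p Y g) :
    CH (P2 p g) (fun e => X e.2) (fun e => (Y e.2, e.1)) = CH p X Y := by
  have h2 := (P2_isLaw hp g).nonneg
  have key : ∀ {U : Type} (Z : Ω → U), Det p Z g →
      H (P2 p g) (fun e => (Z e.2, e.1)) = H p (fun ω : Ω => ω) + H p Z - H p g := by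
    intro U Z hZ
    have h1 := P2_H hp g Z
    have h3 : H (P2 p g) (fun e => (Z e.2, e.1)) =
        H (P2 p g) (fun w => (w.1, (Z w.2, g w.2))) := by
      refine H_congr h2 ?_ ?_
      · intro a b _ _ h
        have e1 := (Prod.ext_iff.mp h).1
        have e2 := (Prod.ext_iff.mp (Prod.ext_iff.mp h).2).1
        exact Prod.ext e2 e1
      · intro a b ha hb h
        have e1 : Z a.2 = Z b.2 := (Prod.ext_iff.mp h).1
        have e2 : a.1 = b.1 := (Prod.ext_iff.mp h).2
        have e3 : g a.2 = g b.2 := by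
          rw [← ((P2_pos hp a).mp ha).2.2, ← ((P2_pos hp b).mp hb).2.2, e2]
        exact Prod.ext e2 (Prod.ext e1 e3)
    have h4 : H p (fun ω => (Z ω, g ω)) = H p Z := by
      refine H_congr hp.nonneg ?_ ?_
      · intro a b ha hb h
        exact Prod.ext h (hZ a b ha hb h)
      · intro a b _ _ h
        exact (Prod.ext_iff.mp h).1
    rw [h3, h1, h4]
  have hXY : Det p (fun ω => (X ω, Y ω)) g := fun a b ha hb h =>
    hY a b ha hb (Prod.ext_iff.mp h).2
  have k1 := key Y hY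
  have k2 := key (fun ω => (X ω, Y ω)) hXY
  have k3 : H (P2 p g) (fun e => (X e.2, (Y e.2, e.1))) =
      H (P2 p g) (fun e => ((X e.2, Y e.2), e.1)) := by
    refine H_congr h2 ?_ ?_
    · intro a b _ _ h
      have e1 : (X a.2, Y a.2) = (X b.2, Y b.2) := (Prod.ext_iff.mp h).1
      have e2 : a.1 = b.1 := (Prod.ext_iff.mp h).2
      exact Prod.ext (Prod.ext_iff.mp e1).1 (Prod.ext (Prod.ext_iff.mp e1).2 e2)
    · intro a b _ _ h
      have e1 : X a.2 = X b.2 := (Prod.ext_iff.mp h).1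
      have e2 : (Y a.2, a.1) = (Y b.2, b.1) := (Prod.ext_iff.mp h).2
      exact Prod.ext (Prod.ext e1 (Prod.ext_iff.mp e2).1) (Prod.ext_iff.mp e2).2
  unfold CH
  rw [k3, k1, k2]
  ring

/-- Conditional independence, first sample. -/
theorem P2_one (hp : IsLaw p) (g : Ω → GT) {S T : Type} (X : Ω → S) (Y : Ω → T)
    (hY : Det p Y g) :
    CH (P2 p g) (fun e => X e.1) (fun e => (Y e.1, e.2)) = CH p X Y := by
  classical
  have hsw : Psh (P2 p g) Prod.swap (P2 p g) := by
    intro e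
    unfold law
    rw [Finset.sum_eq_single e.swap]
    · rw [if_pos (Prod.swap_swap e)]
      exact P2_swap p g e
    · intro b _ hb
      rw [if_neg]
      intro h
      exact hb (by rw [← h, Prod.swap_swap])
    · intro h
      exact absurd (Finset.mem_univ _) h
  rw [← P2_two hp g X Y hY]
  exact hsw.CH_eq (fun e => X e.2) (fun e => (Y e.2, e.1))

omit [Fintype Ω] in
/-- A law of bounded density, pushed forward. -/
theorem dens_psh {E : Type} [Fintype E] {P Q : E → ℝ} {pr : E → Ω} {C : ℝ}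
    (hP : Psh P pr p) (hd : ∀ e, Q e ≤ C * P e) (ω : Ω) : law Q pr ω ≤ C * p ω := by
  rw [← hP ω]
  unfold law
  rw [Finset.mul_sum]
  refine Finset.sum_le_sum fun e _ => ?_
  split_ifs
  · exact hd e
  · rw [mul_zero]

theorem law_psh {E : Type} [Fintype E] {Q : E → ℝ} (hQ : IsLaw Q) (pr : E → Ω) :
    Psh Q pr (law Q pr) ∧ IsLaw (law Q pr) := by
  have h1 : Psh Q pr (law Q pr) := fun ω => rfl
  refine ⟨h1, fun ω => law_nonneg hQ.nonneg _ _, ?_⟩
  have h5 := h1.Ex_eq (fun _ => (1 : ℝ))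
  unfold Ex at h5
  simp only [mul_one] at h5
  rw [← h5, hQ.sum_one]

/-- **Restriction to an event of an extension**: the marginal is the conditional law of an event,
the density is bounded. -/
theorem tiltG {E₀ : Type} [Fintype E₀] {P : E₀ → ℝ} (hP : IsLaw P) {pr : E₀ → Ω}
    (hpr : Psh P pr p) (hp : IsLaw p) (E : E₀ → Prop) {c : ℝ} (hc : 0 < c) (hE : c ≤ Pe P E) :
    ∃ (B : Ω → Prop) (Q : E₀ → ℝ), c / 2 ≤ Pe p B ∧ IsLaw Q ∧
      Psh Q pr (Pool.Agent.H49.Ent.cond p B True) ∧ (∀ e, 0 < Q e → E e) ∧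
      (∀ e, 0 < Q e → B (pr e)) ∧ ∀ e, Q e ≤ 4 / c ^ 2 * P e := by
  classical
  have hq0 := hP.nonneg
  -- the conditional probability of the event, unnormalized
  obtain ⟨a, ha⟩ : ∃ a : Ω → ℝ, a = fun ω => ∑ e, if pr e = ω then (if E e then P e else 0) else 0 :=
    ⟨_, rfl⟩
  have ha0 : ∀ ω, 0 ≤ a ω := by
    intro ω
    rw [ha]
    refine Finset.sum_nonneg fun e _ => ?_
    split_ifs
    · exact hq0 _
    · exact le_rfl
    · exact le_rfl
  have hfst : ∀ ω, (∑ e, if pr e = ω then P e else 0) = p ω := fun ω => by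
    rw [← hpr ω]
    unfold law
    refine Finset.sum_congr rfl fun e _ => ?_
    split_ifs <;> rfl
  have hap : ∀ ω, a ω ≤ p ω := by
    intro ω
    rw [← hfst ω, ha]
    refine Finset.sum_le_sum fun e _ => ?_
    split_ifs
    · exact le_rfl
    · exact hq0 _
    · exact le_rfl
  have hswap : ∀ f : E₀ → ℝ, (∑ ω, ∑ e, if pr e = ω then f e else 0) = ∑ e, f e := by
    intro f
    rw [Finset.sum_comm]
    refine Finset.sum_congr rfl fun e _ => ?_
    rw [Finset.sum_ite_eq]
    simp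
  have hsum : ∑ ω, a ω = Pe P E := by
    rw [K2S.Pe_eq, ha]
    exact hswap _
  obtain ⟨B, hB⟩ : ∃ B : Ω → Prop, B = fun ω => 0 < p ω ∧ c / 2 * p ω ≤ a ω := ⟨_, rfl⟩
  have hPB : c / 2 ≤ Pe p B := by
    have h1 : ∑ ω, a ω ≤ Pe p B + c / 2 := by
      have h2 : ∀ ω, a ω ≤ (if B ω then p ω else 0) + c / 2 * p ω := by
        intro ω
        by_cases h3 : B ω
        · rw [if_pos h3]
          have h4 := hap ω
          have h5 : 0 ≤ c / 2 * p ω := mul_nonneg (by positivity) (hp.nonneg ω)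
          linarith
        · rw [if_neg h3, zero_add]
          rcases (hp.nonneg ω).eq_or_lt with h4 | h4
          · have := hap ω
            rw [← h4] at this
            rw [← h4, mul_zero]
            exact this
          · rw [hB] at h3
            by_contra h5
            exact h3 ⟨h4, (not_le.1 h5).le⟩
      have h3 := Finset.sum_le_sum fun ω (_ : ω ∈ (univ : Finset Ω)) => h2 ω
      rw [Finset.sum_add_distrib, ← Finset.mul_sum, hp.sum_one, mul_one, ← K2S.Pe_eq] at h3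
      exact h3
    rw [hsum] at h1
    linarith
  have hPB0 : 0 < Pe p B := lt_of_lt_of_le (by positivity) hPB
  obtain ⟨Q, hQ⟩ : ∃ Q : E₀ → ℝ, Q = fun e =>
    if E e ∧ B (pr e) then P e * (p (pr e) / (a (pr e) * Pe p B)) else 0 := ⟨_, rfl⟩
  have hBa : ∀ ω, B ω → 0 < a ω ∧ p ω / (a ω * Pe p B) ≤ 4 / c ^ 2 := by
    intro ω h
    rw [hB] at h
    obtain ⟨h1, h2⟩ := h
    have h3 : 0 < c / 2 * p ω := by positivity
    have h4 : 0 < a ω := h3.trans_le h2
    refine ⟨h4, ?_⟩
    rw [div_le_div_iff₀ (by positivity) (by positivity)]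
    have h5 : c / 2 * p ω * (c / 2) ≤ a ω * Pe p B :=
      mul_le_mul h2 hPB (by positivity) h4.le
    nlinarith
  have hQ0 : ∀ e, 0 ≤ Q e := by
    intro e
    rw [hQ]
    simp only
    split_ifs with h
    · exact mul_nonneg (hq0 e) (div_nonneg (hp.nonneg _) (mul_nonneg (ha0 _) hPB0.le))
    · exact le_rfl
  have hrow : ∀ ω, (∑ e, if pr e = ω then Q e else 0) = Pool.Agent.H49.Ent.cond p B True ω := by
    intro ω
    rw [cond_ev]
    by_cases h : B ω
    · rw [if_pos h]
      have h1 : ∀ e, (if pr e = ω then Q e else 0) =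
          (if pr e = ω then (if E e then P e else 0) else 0) * (p ω / (a ω * Pe p B)) := by
        intro e
        by_cases h2 : pr e = ω
        · rw [if_pos h2, if_pos h2, hQ]
          simp only
          rw [h2]
          by_cases h3 : E e
          · rw [if_pos ⟨h3, h⟩, if_pos h3]
          · rw [if_neg (fun h4 => h3 h4.1), if_neg h3, zero_mul]
        · rw [if_neg h2, if_neg h2, zero_mul]
      rw [Finset.sum_congr rfl fun e _ => h1 e, ← Finset.sum_mul]
      have h4 : (∑ e, if pr e = ω then (if E e then P e else 0) else 0) = a ω := by rw [ha]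
      rw [h4]
      have h5 := (hBa ω h).1
      field_simp
    · rw [if_neg h]
      refine Finset.sum_eq_zero fun e _ => ?_
      by_cases h2 : pr e = ω
      · rw [if_pos h2, hQ]
        simp only
        rw [if_neg]
        rintro ⟨-, h3⟩
        rw [h2] at h3
        exact h h3
      · rw [if_neg h2]
  have hlaw : ∀ ω, law Q pr ω = Pool.Agent.H49.Ent.cond p B True ω := by
    intro ω
    rw [← hrow ω]
    unfold law
    refine Finset.sum_congr rfl fun e _ => ?_
    split_ifs <;> rfl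
  refine ⟨B, Q, hPB, ⟨hQ0, ?_⟩, hlaw, ?_, ?_, ?_⟩
  · rw [← hswap Q, Finset.sum_congr rfl fun ω _ => hrow ω]
    exact (isLaw_cond hp hPB0).sum_one
  · intro e he
    rw [hQ] at he
    simp only at he
    split_ifs at he with h
    · exact h.1
    · exact absurd he (lt_irrefl _)
  · intro e he
    rw [hQ] at he
    simp only at he
    split_ifs at he with h
    · exact h.2
    · exact absurd he (lt_irrefl _)
  · intro e
    rw [hQ]
    simp only
    split_ifs with h
    · rw [mul_comm]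
      exact mul_le_mul_of_nonneg_right (hBa _ h.2).2 (hq0 e)
    · exact mul_nonneg (by positivity) (hq0 e)

end Two

/-! ### The law of the six samples -/

section Six

variable {Ω : Type} [Fintype Ω] {GT PT : Type} {p : Ω → ℝ}

/-- The law of three samples with the same `g` (the first one twice). -/
noncomputable def P3 (p : Ω → ℝ) (g : Ω → GT) : (Ω × Ω) × (Ω × Ω) → ℝ := P2 (P2 p g) Prod.fst

/-- **The law of six samples.** -/
noncomputable def PC (p : Ω → ℝ) (g : Ω → GT) (pt : Ω → PT) :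
    ((Ω × Ω) × (Ω × Ω)) × ((Ω × Ω) × (Ω × Ω)) → ℝ := P2 (P3 p g) (fun x => pt x.1.1)

theorem P3_isLaw (hp : IsLaw p) (g : Ω → GT) : IsLaw (P3 p g) :=
  P2_isLaw (P2_isLaw hp g) _

theorem PC_isLaw (hp : IsLaw p) (g : Ω → GT) (pt : Ω → PT) : IsLaw (PC p g pt) :=
  P2_isLaw (P3_isLaw hp g) _

theorem P3_1 (hp : IsLaw p) (g : Ω → GT) : Psh (P3 p g) Prod.fst (P2 p g) :=
  P2_fst (P2_isLaw hp g) _

theorem P3_2 (hp : IsLaw p) (g : Ω → GT) : Psh (P3 p g) Prod.snd (P2 p g) :=
  P2_snd (P2_isLaw hp g) _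

theorem PC_11 (hp : IsLaw p) (g : Ω → GT) (pt : Ω → PT) :
    Psh (PC p g pt) (fun e => e.1.1) (P2 p g) :=
  (P3_1 hp g).comp (P2_fst (P3_isLaw hp g) _)

theorem PC_12 (hp : IsLaw p) (g : Ω → GT) (pt : Ω → PT) :
    Psh (PC p g pt) (fun e => e.1.2) (P2 p g) :=
  (P3_2 hp g).comp (P2_fst (P3_isLaw hp g) _)

theorem PC_21 (hp : IsLaw p) (g : Ω → GT) (pt : Ω → PT) :
    Psh (PC p g pt) (fun e => e.2.1) (P2 p g) :=
  (P3_1 hp g).comp (P2_snd (P3_isLaw hp g) _)

theorem PC_22 (hp : IsLaw p) (g : Ω → GT) (pt : Ω → PT) :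
    Psh (PC p g pt) (fun e => e.2.2) (P2 p g) :=
  (P3_2 hp g).comp (P2_snd (P3_isLaw hp g) _)

theorem PC_o (hp : IsLaw p) (g : Ω → GT) (pt : Ω → PT) :
    Psh (PC p g pt) (fun e => e.1.1.1) p := (P2_fst hp g).comp (PC_11 hp g pt)

theorem PC_o' (hp : IsLaw p) (g : Ω → GT) (pt : Ω → PT) :
    Psh (PC p g pt) (fun e => e.2.1.1) p := (P2_fst hp g).comp (PC_21 hp g pt)

theorem P3_pos (hp : IsLaw p) (g : Ω → GT) {x : (Ω × Ω) × (Ω × Ω)} (hx : 0 < P3 p g x) :
    0 < P2 p g x.1 ∧ 0 < P2 p g x.2 ∧ x.1.1 = x.2.1 :=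
  (P2_pos (P2_isLaw hp g) x).1 hx

/-- The support. -/
theorem PC_pos (hp : IsLaw p) (g : Ω → GT) (pt : Ω → PT)
    {e : ((Ω × Ω) × (Ω × Ω)) × ((Ω × Ω) × (Ω × Ω))} (he : 0 < PC p g pt e) :
    (0 < P2 p g e.1.1 ∧ 0 < P2 p g e.1.2 ∧ 0 < P2 p g e.2.1 ∧ 0 < P2 p g e.2.2) ∧
      e.1.1.1 = e.1.2.1 ∧ e.2.1.1 = e.2.2.1 ∧ pt e.1.1.1 = pt e.2.1.1 := by
  obtain ⟨h1, h2, h3⟩ := (P2_pos (P3_isLaw hp g) e).1 he
  obtain ⟨a1, a2, a3⟩ := P3_pos hp g h1
  obtain ⟨b1, b2, b3⟩ := P3_pos hp g h2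
  exact ⟨⟨a1, a2, b1, b2⟩, a3, b3, h3⟩

section rest

variable (hp : IsLaw p) (g : Ω → GT) (pt : Ω → PT) {S : Type} (X : Ω → S)

include hp

theorem P3_rest2 : CH (P3 p g) (fun x => X x.2.2) (fun x => (x.2.1, x.1)) = CH p X g := by
  have h1 := P2_two (P2_isLaw hp g) (Prod.fst : Ω × Ω → Ω) (fun y => X y.2) (fun y => y.1)
    (fun _ _ _ _ h => h)
  exact h1.trans (P2_CH hp g X)

theorem P3_rest1 : CH (P3 p g) (fun x => X x.1.2) (fun x => (x.1.1, x.2)) = CH p X g := by
  have h1 := P2_one (P2_isLaw hp g) (Prod.fst : Ω × Ω → Ω) (fun y => X y.2) (fun y => y.1)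
    (fun _ _ _ _ h => h)
  exact h1.trans (P2_CH hp g X)

/-- The entropy of a function of `b`, given all the other samples. -/
theorem rest_b : CH (PC p g pt) (fun e => X e.1.2.2) (fun e => ((e.1.2.1, e.1.1), e.2)) =
    CH p X g := by
  have h1 := P2_one (P3_isLaw hp g) (fun x => pt x.1.1) (fun x => X x.2.2)
    (fun x => (x.2.1, x.1)) (fun x x' _ _ h => by
      have h2 : x.1 = x'.1 := (Prod.ext_iff.1 h).2
      change pt x.1.1 = pt x'.1.1
      rw [h2])
  exact h1.trans (P3_rest2 hp g X)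

theorem rest_a : CH (PC p g pt) (fun e => X e.1.1.2) (fun e => ((e.1.1.1, e.1.2), e.2)) =
    CH p X g := by
  have h1 := P2_one (P3_isLaw hp g) (fun x => pt x.1.1) (fun x => X x.1.2)
    (fun x => (x.1.1, x.2)) (fun x x' _ _ h => by
      have h2 : x.1.1 = x'.1.1 := (Prod.ext_iff.1 h).1
      change pt x.1.1 = pt x'.1.1
      rw [h2])
  exact h1.trans (P3_rest1 hp g X)

theorem rest_b' : CH (PC p g pt) (fun e => X e.2.2.2) (fun e => ((e.2.2.1, e.2.1), e.1)) =
    CH p X g := by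
  have h1 := P2_two (P3_isLaw hp g) (fun x => pt x.1.1) (fun x => X x.2.2)
    (fun x => (x.2.1, x.1)) (fun x x' _ _ h => by
      have h2 : x.1 = x'.1 := (Prod.ext_iff.1 h).2
      change pt x.1.1 = pt x'.1.1
      rw [h2])
  exact h1.trans (P3_rest2 hp g X)

theorem rest_a' : CH (PC p g pt) (fun e => X e.2.1.2) (fun e => ((e.2.1.1, e.2.2), e.1)) =
    CH p X g := by
  have h1 := P2_two (P3_isLaw hp g) (fun x => pt x.1.1) (fun x => X x.1.2)
    (fun x => (x.1.1, x.2)) (fun x x' _ _ h => by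
      have h2 : x.1.1 = x'.1.1 := (Prod.ext_iff.1 h).1
      change pt x.1.1 = pt x'.1.1
      rw [h2])
  exact h1.trans (P3_rest1 hp g X)

end rest

end Six

end Pool.MKC
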