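import Pool.Agent.H71.MKC.Ful
import Pool.Agent.H53.JM.Inp
import Pool.Agent.H53.JM.Tri

/-!
# The inputs from the class for six samples

`WC`: all times, the side information, the label `z₀'` and the cell of `o`, and a branch.
`inpC`: the position of `o` is full given the label of one of the six samples and `WC`.
`nat`: the natural coordinate, with values in `[-1, 1]`. `base_dig`: the digits of the natural
coordinates of the calm places are full, if the falling place is a function of the calm ones.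
-/

set_option autoImplicit false

namespace Pool.MKC

open Finset Real MvPolynomial
open Pool.Agent.H49.Ent Pool.Agent.H32.Dense Pool.STK Pool.KA Pool.KSAT Pool.PB
  Pool.STAT Pool.GEN Pool.M3F Pool.KM7 Pool.JPN

variable {m J k : ℕ} {F : Fam m J} {V₀ V₁ : Type}

/-- The side information of the six samples. -/
noncomputable def WC (k : ℕ) (F : Fam m J) (c : ℕ → Fin m) (P : V₀ → ℕ → PN) (z₀ : PtT F → V₀)
    (z₀' : LnT F → V₀) (g : ℕ → ℕ) (d w₀ : ℕ) {n₀ : ℕ} (br : C8 F.Ω → Fin n₀)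
    (e : C8 F.Ω) : ((ℕ × F.ζ) × (ℕ × ℕ × ℕ × ℕ)) × (V₀ × ((Fin k → ℤ) × Fin n₀)) :=
  (TT F e, (z₀' (slam F w₀ e.1.1.1), (ce k F c P z₀ g d e.1.1.1, br e)))

variable {c : ℕ → Fin m} {P : V₀ → ℕ → PN} {z₀ : PtT F → V₀} {z₀' : LnT F → V₀}
  {z₁ : PtT F → V₁} {z₁' : LnT F → V₁} {g : ℕ → ℕ} {d w₀ w₁ n₀ : ℕ} {br : C8 F.Ω → Fin n₀}
  {A : F.Ω → Prop} {Q : C8 F.Ω → ℝ}

/-- The parts of the side information. -/
theorem wc_fields (hA : ∀ e, 0 < Q e → A e.1.1.1)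
    (h0 : ∀ ω, A ω → z₀ (ptr F J ω) = z₀' (slam F w₀ ω)) (e e' : C8 F.Ω) (he : 0 < Q e)
    (he' : 0 < Q e') (h : WC k F c P z₀ z₀' g d w₀ br e = WC k F c P z₀ z₀' g d w₀ br e') :
    z₀ (ptr F J e.1.1.1) = z₀ (ptr F J e'.1.1.1) ∧ F.T e.1.1.1 = F.T e'.1.1.1 ∧
      F.W e.1.1.1 = F.W e'.1.1.1 ∧ TT F e = TT F e' ∧
      (∀ i : Fin k, ce k F c P z₀ g d e.1.1.1 i = ce k F c P z₀ g d e'.1.1.1 i) ∧ br e = br e' := by
  have a0 : TT F e = TT F e' := (Prod.ext_iff.1 h).1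
  have a1 : F.W e.1.1.1 = F.W e'.1.1.1 := (Prod.ext_iff.1 a0).1
  have a2 : z₀' (slam F w₀ e.1.1.1) = z₀' (slam F w₀ e'.1.1.1) :=
    (Prod.ext_iff.1 (Prod.ext_iff.1 h).2).1
  have a3 : ce k F c P z₀ g d e.1.1.1 = ce k F c P z₀ g d e'.1.1.1 :=
    (Prod.ext_iff.1 (Prod.ext_iff.1 (Prod.ext_iff.1 h).2).2).1
  have a4 : br e = br e' := (Prod.ext_iff.1 (Prod.ext_iff.1 (Prod.ext_iff.1 h).2).2).2
  refine ⟨?_, (Prod.ext_iff.1 a1).1, a1, a0, fun i => congrFun a3 i, a4⟩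
  rw [h0 _ (hA e he), h0 _ (hA e' he'), a2]

/-- The label at the window `w₀` is the same for all six samples. -/
theorem lab_smp {e : C8 F.Ω} (hs : Spp F w₀ A e) (h0 : ∀ ω, A ω → z₀ (ptr F J ω) = z₀' (slam F w₀ ω))
    (i : Fin 6) : z₀' (slam F w₀ (smp e i)) = z₀' (slam F w₀ e.1.1.1) := by
  have h3 : z₀' (slam F w₀ e.2.1.1) = z₀' (slam F w₀ e.1.1.1) := by
    have a1 := h0 _ (hs.mem 3)
    have a2 := h0 _ (hs.mem 0)
    have a3 : ptr F J (smp e 3) = ptr F J (smp e 0) := hs.pt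
    rw [a3, a2] at a1
    exact a1.symm
  fin_cases i
  · rfl
  · change z₀' (slam F w₀ e.1.1.2) = _
    rw [← hs.la]
  · change z₀' (slam F w₀ e.1.2.2) = _
    rw [← hs.lb]
  · exact h3
  · change z₀' (slam F w₀ e.2.1.2) = _
    rw [← hs.la']
    exact h3
  · change z₀' (slam F w₀ e.2.2.2) = _
    rw [← hs.lb']
    exact h3

/-- **Fullness given the label of one of the six samples.** -/
theorem inpC (hQ : IsLaw Q) (hw : w₀ ≤ w₁) (hw₁ : w₁ ≤ J) (hs : ∀ e, 0 < Q e → Spp F w₀ A e)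
    (h0 : ∀ ω, A ω → z₀ (ptr F J ω) = z₀' (slam F w₀ ω))
    (h1 : ∀ ω, A ω → z₁ (ptr F J ω) = z₁' (slam F w₁ ω))
    (hb : ∀ ω, A ω → ∀ i < k, |ntc F c P z₀ ω i| ≤ 1 / 2 ^ g i) {E₀ : ℝ}
    (hE : ∀ (V : Type) (z : PtT F → V) (z' : LnT F → V),
      (∀ ω, A ω → z (ptr F J ω) = z' (slam F w₁ ω)) → ∀ i : Fin 6,
      E₀ ≤ CH Q (fun e (i : Fin k) => F.X J e.1.1.1 (c i))
        (fun e => (z' (slam F w₁ (smp e i)), TT F e))) (i : Fin 6) :
    E₀ - k * (d * Real.log 2 + Real.log 5) - Real.log n₀ ≤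
      CH Q (fun e (i : Fin k) => F.X J e.1.1.1 (c i))
        (fun e => (z₁' (slam F w₁ (smp e i)), WC k F c P z₀ z₀' g d w₀ br e)) := by
  have e0 : ∀ ω, z₀' ((slam F w₁ ω).1, (slam F w₁ ω).2.1, (slam F w₁ ω).2.2 / 2 ^ (w₁ - w₀)) =
      z₀' (slam F w₀ ω) := fun ω => by rw [← slam_coarse F hw hw₁ ω]
  have h2 := hE (V₀ × V₁) (fun x => (z₀ x, z₁ x))
    (fun s => (z₀' (s.1, s.2.1, s.2.2 / 2 ^ (w₁ - w₀)), z₁' s)) (fun ω hω => by
      rw [e0, h0 ω hω, h1 ω hω]) i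
  refine nat_full (pr := fun e : C8 F.Ω => e.1.1.1) hQ br (fun e he => hb _ ((hs e he).mem 0)) ?_ h2
  intro e e' he he' hz hc hbr
  simp only [Prod.mk.injEq] at hz
  obtain ⟨⟨a2, a3⟩, a4⟩ := hz
  rw [e0, e0, lab_smp (hs e he) h0 i, lab_smp (hs e' he') h0 i] at a2
  exact Prod.ext a3 (Prod.ext a4 (Prod.ext a2 (Prod.ext hc hbr)))


/-! ### The natural digits of the calm coordinates -/

/-- The natural coordinate, with values in `[-1, 1]`. -/
noncomputable def nat (F : Fam m J) (c : ℕ → Fin m) (P : V₀ → ℕ → PN) (z₀ : PtT F → V₀)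
    (g : ℕ → ℕ) (ω : F.Ω) (i : ℕ) : ℝ := 2 ^ g i * ntc F c P z₀ ω i

theorem nat_le {ω : F.Ω} {i : ℕ} (h : |ntc F c P z₀ ω i| ≤ 1 / 2 ^ g i) :
    |nat F c P z₀ g ω i| ≤ 1 := by
  unfold nat
  have p1 : (0 : ℝ) < 2 ^ g i := by positivity
  rw [abs_mul, abs_of_pos p1]
  rw [le_div_iff₀ p1] at h
  linarith

theorem fl_nat (F : Fam m J) (c : ℕ → Fin m) (P : V₀ → ℕ → PN) (z₀ : PtT F → V₀)
    (g : ℕ → ℕ) (ω : F.Ω) (i R : ℕ) :
    ⌊(2 : ℝ) ^ R * nat F c P z₀ g ω i⌋ = ⌊(2 : ℝ) ^ (g i + R) * ntc F c P z₀ ω i⌋ := by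
  unfold nat
  congr 1
  rw [pow_add]
  ring

/-- More digits of a number, given fewer digits. -/
theorem dig_near {R R' : ℕ} (h : R ≤ R') {x y : ℝ} (hxy : ⌊(2 : ℝ) ^ R * x⌋ = ⌊(2 : ℝ) ^ R * y⌋) :
    |((⌊(2 : ℝ) ^ R' * x⌋ - ⌊(2 : ℝ) ^ R' * y⌋ : ℤ) : ℝ)| ≤ 2 ^ (R' - R) := by
  obtain ⟨n, rfl⟩ := Nat.exists_eq_add_of_le h
  rw [Nat.add_sub_cancel_left]
  have key : ∀ x : ℝ, ⌊(2 : ℝ) ^ (R + n) * x⌋ / 2 ^ n = ⌊(2 : ℝ) ^ R * x⌋ := by
    intro x
    have h1 : (2 : ℝ) ^ R * x = (2 ^ (R + n) * x) / ((2 ^ n : ℕ) : ℝ) := by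
      rw [pow_add]
      push_cast
      field_simp
    rw [h1, Int.floor_div_natCast]
    push_cast
    rfl
  have a1 := key x
  have a2 := key y
  rw [hxy] at a1
  have p1 : (0 : ℤ) < 2 ^ n := by positivity
  have b1 := Int.emod_nonneg ⌊(2 : ℝ) ^ (R + n) * x⌋ p1.ne'
  have b2 := Int.emod_lt_of_pos ⌊(2 : ℝ) ^ (R + n) * x⌋ p1
  have b3 := Int.emod_nonneg ⌊(2 : ℝ) ^ (R + n) * y⌋ p1.ne'
  have b4 := Int.emod_lt_of_pos ⌊(2 : ℝ) ^ (R + n) * y⌋ p1
  have b5 := Int.emod_add_mul_ediv ⌊(2 : ℝ) ^ (R + n) * x⌋ (2 ^ n)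
  have b6 := Int.emod_add_mul_ediv ⌊(2 : ℝ) ^ (R + n) * y⌋ (2 ^ n)
  rw [a1] at b5
  rw [a2] at b6
  have h2 : |⌊(2 : ℝ) ^ (R + n) * x⌋ - ⌊(2 : ℝ) ^ (R + n) * y⌋| ≤ 2 ^ n := by
    rw [abs_le]
    constructor <;> linarith
  exact_mod_cast h2

/-- Floors of near numbers. -/
theorem flo_near {a b : ℝ} {N : ℕ} (h : |a - b| ≤ N) : |((⌊a⌋ - ⌊b⌋ : ℤ) : ℝ)| ≤ N + 1 := by
  have a1 := Int.floor_le a
  have a2 := Int.lt_floor_add_one a
  have b1 := Int.floor_le b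
  have b2 := Int.lt_floor_add_one b
  rw [abs_le] at h ⊢
  push_cast
  constructor <;> linarith [h.1, h.2]

theorem log_cnt5 (M : ℕ) : Real.log (2 * ((2 : ℝ) ^ M + 1) + 1) ≤ M * Real.log 2 + Real.log 5 := by
  have p1 : (1 : ℝ) ≤ 2 ^ M := one_le_pow₀ (by norm_num)
  rw [← Real.log_pow, ← Real.log_mul (by positivity) (by norm_num)]
  refine Real.log_le_log (by positivity) ?_
  linarith

section dig

variable {V E Γ : Type} [Fintype E] {q : E → ℝ} {pr : E → F.Ω} {PP : V → ℕ → PN} {zz : PtT F → V}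

/-- **The natural digits of the calm coordinates are full**, if the falling coordinate is known up
to `2 ^ M / 2 ^ R'` given `Z` and the calm natural digits of depth `R'`. -/
theorem base_dig {lv : Fin (k + 1)} (hq : IsLaw q) (Z : E → Γ) (htri : ∀ v, TriN (PP v))
    (hvZ : ∀ e e', 0 < q e → 0 < q e' → Z e = Z e' →
      zz (ptr F J (pr e)) = zz (ptr F J (pr e')))
    (hTZ : ∀ e e', 0 < q e → 0 < q e' → Z e = Z e' → F.T (pr e) = F.T (pr e')) {R R' M : ℕ}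
    (hR : R ≤ R') (hg : ∀ i : Fin (k + 1), g i + R' ≤ J)
    (hleaf : ∀ e e', 0 < q e → 0 < q e' → Z e = Z e' →
      (∀ l : Fin k, ⌊(2 : ℝ) ^ R' * nat F c PP zz g (pr e) (lv.succAbove l)⌋ =
        ⌊(2 : ℝ) ^ R' * nat F c PP zz g (pr e') (lv.succAbove l)⌋) →
      |nat F c PP zz g (pr e) lv - nat F c PP zz g (pr e') lv| ≤ 2 ^ M / 2 ^ R') {E₀ : ℝ}
    (hE : E₀ ≤ CH q (fun e (i : Fin (k + 1)) => F.X J (pr e) (c i)) Z) :
    E₀ - (∑ i : Fin (k + 1), ((J : ℝ) - g i - R')) * Real.log 2 - (k + 1) * Real.log 3 -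
        (M * Real.log 2 + Real.log 5) - k * (((R' : ℝ) - R) * Real.log 2 + Real.log 3) ≤
      CH q (fun e (l : Fin k) => ⌊(2 : ℝ) ^ R * nat F c PP zz g (pr e) (lv.succAbove l)⌋) Z := by
  have hq0 := hq.nonneg
  obtain ⟨D, hD⟩ : ∃ D : E → Fin k → ℤ, D = fun e l =>
    ⌊(2 : ℝ) ^ R' * nat F c PP zz g (pr e) (lv.succAbove l)⌋ := ⟨_, rfl⟩
  obtain ⟨N, hN⟩ : ∃ N : E → ℤ, N = fun e => ⌊(2 : ℝ) ^ R' * nat F c PP zz g (pr e) lv⌋ :=
    ⟨_, rfl⟩
  -- the positions given the natural digits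
  have h1 := pos_le (c := c) (P := PP) (z₀ := zz) (pr := pr) (k := k + 1) (D := fun i => g i + R')
    hq (fun e => (N e, (D e, Z e))) htri (fun i hi => hg ⟨i, hi⟩)
    (fun e e' he he' h => hvZ e e' he he' (Prod.ext_iff.1 (Prod.ext_iff.1 h).2).2)
    (fun e e' he he' h => hTZ e e' he he' (Prod.ext_iff.1 (Prod.ext_iff.1 h).2).2)
    (fun e e' he he' h i => by
      have a1 : N e = N e' := (Prod.ext_iff.1 h).1
      have a2 : D e = D e' := (Prod.ext_iff.1 (Prod.ext_iff.1 h).2).1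
      rw [hN] at a1
      rw [hD] at a2
      rcases Fin.eq_self_or_eq_succAbove lv i with hi | ⟨l, rfl⟩
      · subst hi
        simp only [fl_nat] at a1
        exact a1
      · have a3 := congrFun a2 l
        simp only [fl_nat] at a3
        exact a3)
  -- the falling digits
  have h2 := CH_le_int hq0 hq.sum_one N (fun e => (D e, Z e)) (fun _ => (2 : ℝ) ^ M + 1)
    (fun e e' he he' h => by
      have a1 : D e = D e' := (Prod.ext_iff.1 h).1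
      have a2 := hleaf e e' he he' (Prod.ext_iff.1 h).2 (fun l => by
        rw [hD] at a1
        exact congrFun a1 l)
      have p1 : (0 : ℝ) < 2 ^ R' := by positivity
      rw [le_div_iff₀ p1] at a2
      have a3 : |(2 : ℝ) ^ R' * nat F c PP zz g (pr e) lv -
          2 ^ R' * nat F c PP zz g (pr e') lv| ≤ ((2 ^ M : ℕ) : ℝ) := by
        rw [← mul_sub, abs_mul, abs_of_pos p1]
        push_cast
        linarith
      have a4 := flo_near a3
      rw [hN]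
      push_cast at a4 ⊢
      exact a4)
  rw [Ex_const hq.sum_one] at h2
  have h2' := h2.trans (log_cnt5 M)
  -- the calm digits of depth `R'` given the digits of depth `R`
  have h3 := Ful.ch_vec hq D (fun e => ((fun (l : Fin k) =>
      ⌊(2 : ℝ) ^ R * nat F c PP zz g (pr e) (lv.succAbove l)⌋), Z e)) (fun _ => 2 ^ (R' - R))
    (fun i e e' _ _ h _ => by
      have a1 := congrFun (Prod.ext_iff.1 h).1 i
      rw [hD]
      exact dig_near hR a1)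
  have e3 : ∑ _i ∈ range k, Real.log (2 * (2 : ℝ) ^ (R' - R) + 1) ≤
      k * (((R' : ℝ) - R) * Real.log 2 + Real.log 3) := by
    rw [Finset.sum_const, card_range, nsmul_eq_mul]
    refine mul_le_mul_of_nonneg_left ?_ (Nat.cast_nonneg k)
    have a1 : ((R' - R : ℕ) : ℝ) = (R' : ℝ) - R := Nat.cast_sub hR
    have a2 := log_three R R'
    rw [a1] at a2
    push_cast at a2
    exact a2
  have c1 := CH_le_add hq0 (fun e (i : Fin (k + 1)) => F.X J (pr e) (c i)) D Z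
  have c2 := CH_le_add hq0 (fun e (i : Fin (k + 1)) => F.X J (pr e) (c i)) N
    (fun e => (D e, Z e))
  have c3 := CH_le_add hq0 D (fun e (l : Fin k) =>
      ⌊(2 : ℝ) ^ R * nat F c PP zz g (pr e) (lv.succAbove l)⌋) Z
  have e1 : ∑ i ∈ range (k + 1), (((J - (g i + R') : ℕ) : ℝ) * Real.log 2 + Real.log 3) =
      (∑ i : Fin (k + 1), ((J : ℝ) - g i - R')) * Real.log 2 + (k + 1) * Real.log 3 := by
    rw [Finset.sum_add_distrib, ← Finset.sum_mul, Finset.sum_const, card_range, nsmul_eq_mul,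
      Finset.sum_range]
    push_cast
    congr 2
    refine Finset.sum_congr rfl fun i _ => ?_
    rw [Nat.cast_sub (hg i)]
    push_cast
    ring
  rw [e1] at h1
  linarith

end dig

end Pool.MKC
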