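import Pool.Agent.H71.MKC.Mk

/-!
# Marginals of the law of six samples; the five calls
-/

set_option autoImplicit false

namespace Pool.MKC

open Finset Real MvPolynomial
open Pool.Agent.H49.Ent Pool.Agent.H32.Dense Pool.STK Pool.KA Pool.KSAT Pool.K2S Pool.PB
  Pool.STAT Pool.GEN Pool.M3F Pool.KM7 Pool.S6C Pool.JPR Pool.JPN
open Pool.R2M (mk4h tbh C4h tbh_le bas dt)

section mar

variable {Ω : Type} [Fintype Ω] {GT PT : Type} {p : Ω → ℝ}

open Classical in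
theorem P2_val (p : Ω → ℝ) (g : Ω → GT) (o a : Ω) :
    P2 p g (o, a) = if g o = g a then p o * p a / law p g (g o) else 0 := rfl

/-- The two secondary samples are a pair. -/
theorem P3_ab (hp : IsLaw p) (g : Ω → GT) :
    Psh (P3 p g) (fun x => (x.1.2, x.2.2)) (P2 p g) := by
  classical
  rintro ⟨a, b⟩
  have hfst : ∀ o, law (P2 p g) Prod.fst o = p o := P2_fst hp g
  have h3 : ∀ o a' o₁ b', P3 p g ((o, a'), (o₁, b')) =
      if o = o₁ then P2 p g (o, a') * P2 p g (o₁, b') / p o else 0 := by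
    intro o a' o₁ b'
    have := P2_val (P2 p g) Prod.fst (o, a') (o₁, b')
    unfold P3
    rw [this, hfst]
  have h4 : law (P3 p g) (fun x => (x.1.2, x.2.2)) (a, b) =
      ∑ o, P2 p g (o, a) * P2 p g (o, b) / p o := by
    unfold law
    rw [Fintype.sum_prod_type, Fintype.sum_prod_type]
    refine Finset.sum_congr rfl fun o _ => ?_
    rw [Finset.sum_eq_single a]
    · rw [Fintype.sum_prod_type, Finset.sum_eq_single o]
      · rw [Finset.sum_eq_single b]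
        · rw [if_pos rfl, h3, if_pos rfl]
        · intro b' _ hb
          rw [if_neg]
          intro h
          exact hb (Prod.ext_iff.1 h).2
        · intro h
          exact absurd (Finset.mem_univ _) h
      · intro o₁ _ ho
        refine Finset.sum_eq_zero fun b' _ => ?_
        have h7 : P3 p g ((o, a), (o₁, b')) = 0 := by
          rw [h3, if_neg (fun h => ho h.symm)]
        rw [h7]
        split_ifs <;> rfl
      · intro h
        exact absurd (Finset.mem_univ _) h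
    · intro a' _ ha
      rw [Fintype.sum_prod_type]
      refine Finset.sum_eq_zero fun o₁ _ => Finset.sum_eq_zero fun b' _ => ?_
      rw [if_neg]
      intro h
      exact ha (Prod.ext_iff.1 h).1
    · intro h
      exact absurd (Finset.mem_univ _) h
  rw [h4, P2_val]
  have h5 : ∀ o, P2 p g (o, a) * P2 p g (o, b) / p o =
      if g a = g b then (if g o = g a then p o else 0) * (p a * p b / law p g (g a) ^ 2) else 0 := by
    intro o
    rw [P2_val, P2_val]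
    by_cases hab : g a = g b
    · rw [if_pos hab]
      by_cases ho : g o = g a
      · rw [if_pos ho, if_pos (ho.trans hab), if_pos ho, ho]
        rcases eq_or_ne (p o) 0 with h0 | h0
        · rw [h0]
          simp
        · rcases eq_or_ne (law p g (g a)) 0 with h1 | h1
          · rw [h1]
            simp
          · field_simp
      · rw [if_neg ho, if_neg ho]
        simp
    · rw [if_neg hab]
      by_cases ho : g o = g a
      · rw [if_neg (fun h => hab (ho.symm.trans h) : ¬ g o = g b)]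
        simp
      · rw [if_neg ho]
        simp
  rw [Finset.sum_congr rfl fun o _ => h5 o]
  by_cases hab : g a = g b
  · simp only [if_pos hab]
    rw [← Finset.sum_mul]
    have h6 : (∑ o, if g o = g a then p o else 0) = law p g (g a) := by
      unfold law
      refine Finset.sum_congr rfl fun o _ => ?_
      split_ifs <;> rfl
    rw [h6]
    rcases eq_or_ne (law p g (g a)) 0 with h1 | h1
    · rw [h1]
      simp
    · field_simp
  · simp only [if_neg hab]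
    exact Finset.sum_const_zero

theorem PC_ab (hp : IsLaw p) (g : Ω → GT) (pt : Ω → PT) :
    Psh (PC p g pt) (fun e => (e.1.1.2, e.1.2.2)) (P2 p g) :=
  (P3_ab hp g).comp (P2_fst (P3_isLaw hp g) _)

theorem PC_ab' (hp : IsLaw p) (g : Ω → GT) (pt : Ω → PT) :
    Psh (PC p g pt) (fun e => (e.2.1.2, e.2.2.2)) (P2 p g) :=
  (P3_ab hp g).comp (P2_snd (P3_isLaw hp g) _)

end mar


section six

variable {Ω : Type} [Fintype Ω] {GT PT : Type} {p : Ω → ℝ}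

theorem Pe_psh {E : Type} [Fintype E] {P : E → ℝ} {pr : E → Ω} (h : Psh P pr p) (A : Ω → Prop) :
    Pe P (fun e => A (pr e)) = Pe p A := h.law_eq A True

theorem Pe_neg (hp : IsLaw p) (A : Ω → Prop) : Pe p A + Pe p (fun ω => ¬ A ω) = 1 := by
  classical
  rw [K2S.Pe_eq, K2S.Pe_eq, ← Finset.sum_add_distrib, ← hp.sum_one]
  refine Finset.sum_congr rfl fun ω _ => ?_
  by_cases hA : A ω <;> simp [hA]

theorem Pe_two (hp : IsLaw p) {A B C : Ω → Prop} (h : ∀ ω, A ω → B ω ∨ C ω) :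
    Pe p A ≤ Pe p B + Pe p C := by
  classical
  rw [K2S.Pe_eq, K2S.Pe_eq, K2S.Pe_eq, ← Finset.sum_add_distrib]
  refine Finset.sum_le_sum fun ω _ => ?_
  have h0 := hp.nonneg ω
  by_cases hA : A ω
  · rcases h ω hA with hB | hC
    · rw [if_pos hA, if_pos hB]
      split_ifs <;> linarith
    · rw [if_pos hA, if_pos hC]
      split_ifs <;> linarith
  · rw [if_neg hA]
    split_ifs <;> linarith

/-- **All six pairs of samples of one line are good** outside six times the failure. -/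
theorem six_good (hp : IsLaw p) (g : Ω → GT)
    (pt : Ω → PT) (E : Ω × Ω → Prop) {η : ℝ} (hE : 1 - η ≤ Pe (P2 p g) E) :
    1 - 6 * η ≤ Pe (PC p g pt) (fun e => (E e.1.1 ∧ E e.1.2 ∧ E (e.1.1.2, e.1.2.2)) ∧
      E e.2.1 ∧ E e.2.2 ∧ E (e.2.1.2, e.2.2.2)) := by
  classical
  have hP := PC_isLaw hp g pt
  have h2 := P2_isLaw hp g
  have hc : Pe (P2 p g) (fun e => ¬ E e) ≤ η := by
    have := Pe_neg h2 E
    linarith
  have key : ∀ pr : C8 Ω → Ω × Ω, Psh (PC p g pt) pr (P2 p g) →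
      Pe (PC p g pt) (fun e => ¬ E (pr e)) ≤ η := by
    intro pr hpr
    exact (Pe_psh hpr (fun e => ¬ E e)).le.trans hc
  have k1 := key _ (PC_11 hp g pt)
  have k2 := key _ (PC_12 hp g pt)
  have k3 := key _ (PC_ab hp g pt)
  have k4 := key _ (PC_21 hp g pt)
  have k5 := key _ (PC_22 hp g pt)
  have k6 := key _ (PC_ab' hp g pt)
  have n0 := Pe_neg hP (fun e => (E e.1.1 ∧ E e.1.2 ∧ E (e.1.1.2, e.1.2.2)) ∧
      E e.2.1 ∧ E e.2.2 ∧ E (e.2.1.2, e.2.2.2))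
  have n5 := Pe_two hP (A := fun e => ¬ E e.2.2 ∨ ¬ E (e.2.1.2, e.2.2.2))
    (B := fun e => ¬ E e.2.2) (C := fun e => ¬ E (e.2.1.2, e.2.2.2)) (fun e h => h)
  have n4 := Pe_two hP (A := fun e => ¬ E e.2.1 ∨ (¬ E e.2.2 ∨ ¬ E (e.2.1.2, e.2.2.2)))
    (B := fun e => ¬ E e.2.1) (C := fun e => ¬ E e.2.2 ∨ ¬ E (e.2.1.2, e.2.2.2)) (fun e h => h)
  have n2 := Pe_two hP (A := fun e => ¬ E e.1.2 ∨ ¬ E (e.1.1.2, e.1.2.2))
    (B := fun e => ¬ E e.1.2) (C := fun e => ¬ E (e.1.1.2, e.1.2.2)) (fun e h => h)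
  have n1 := Pe_two hP (A := fun e => ¬ E e.1.1 ∨ (¬ E e.1.2 ∨ ¬ E (e.1.1.2, e.1.2.2)))
    (B := fun e => ¬ E e.1.1) (C := fun e => ¬ E e.1.2 ∨ ¬ E (e.1.1.2, e.1.2.2)) (fun e h => h)
  have n3 := Pe_two hP (A := fun e => ¬ ((E e.1.1 ∧ E e.1.2 ∧ E (e.1.1.2, e.1.2.2)) ∧
      E e.2.1 ∧ E e.2.2 ∧ E (e.2.1.2, e.2.2.2)))
    (B := fun e => ¬ E e.1.1 ∨ (¬ E e.1.2 ∨ ¬ E (e.1.1.2, e.1.2.2)))
    (C := fun e => ¬ E e.2.1 ∨ (¬ E e.2.2 ∨ ¬ E (e.2.1.2, e.2.2.2))) (fun e h => by tauto)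
  linarith

/-- The two samples of a pair may be exchanged. -/
theorem P2_psh_swap (p : Ω → ℝ) (g : Ω → GT) : Psh (P2 p g) Prod.swap (P2 p g) := by
  classical
  intro e
  unfold law
  rw [Finset.sum_eq_single e.swap]
  · rw [if_pos (Prod.swap_swap e)]
    exact P2_swap p g e
  · intro b _ hb
    rw [if_neg]
    intro h
    exact hb (by rw [← h, Prod.swap_swap])
  · intro h
    exact absurd (Finset.mem_univ _) h

/-- A pair and the exchanged pair are good. -/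
theorem swp_good (hp : IsLaw p) (g : Ω → GT) (E : Ω × Ω → Prop) {η : ℝ}
    (hE : 1 - η ≤ Pe (P2 p g) E) : 1 - 2 * η ≤ Pe (P2 p g) (fun e => E e ∧ E e.swap) := by
  have h2 := P2_isLaw hp g
  have hc : Pe (P2 p g) (fun e => ¬ E e) ≤ η := by
    have := Pe_neg h2 E
    linarith
  have hs : Pe (P2 p g) (fun e => ¬ E e.swap) ≤ η :=
    (Pe_psh (P2_psh_swap p g) (fun e => ¬ E e)).le.trans hc
  have n1 := Pe_two h2 (A := fun e => ¬ (E e ∧ E e.swap)) (B := fun e => ¬ E e)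
    (C := fun e => ¬ E e.swap) (fun e h => by tauto)
  have n0 := Pe_neg h2 (fun e => E e ∧ E e.swap)
  linarith

/-- **All six pairs and the exchanged pairs are good**. -/
theorem ten_good (hp : IsLaw p) (g : Ω → GT) (pt : Ω → PT) (E : Ω × Ω → Prop) {η : ℝ}
    (hE : 1 - η ≤ Pe (P2 p g) E) :
    1 - 12 * η ≤ Pe (PC p g pt) (fun e =>
      ((E e.1.1 ∧ E e.1.1.swap) ∧ (E e.1.2 ∧ E e.1.2.swap) ∧
        (E (e.1.1.2, e.1.2.2) ∧ E (e.1.2.2, e.1.1.2))) ∧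
      (E e.2.1 ∧ E e.2.1.swap) ∧ (E e.2.2 ∧ E e.2.2.swap) ∧
        (E (e.2.1.2, e.2.2.2) ∧ E (e.2.2.2, e.2.1.2))) := by
  have h1 := six_good hp g pt (fun e => E e ∧ E e.swap) (swp_good hp g E hE)
  have e1 : 1 - 6 * (2 * η) = 1 - 12 * η := by ring
  rw [e1] at h1
  exact h1

end six

/-- The third samples and the bases of the five calls. -/
def cll : Fin 5 → Fin 6 × Fin 2 := ![(0, 0), (0, 1), (4, 0), (4, 1), (5, 1)]

/-- **(MK) The five calls at once**: for the leaves of `a`, `b` and of one of `o`, `a'`, `b'`. -/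
theorem mk_five : ∃ C : ℝ, 0 ≤ C ∧ ∀ {m : ℕ}, KP 3 → ∀ {S : PCl m} {w₀ w₁ : ℝ}, w₀ ≤ w₁ →
    w₁ ≤ 1 → Pool.GRW.TmWn S w₀ → ∀ {c : ℕ → Fin m} {b : ℝ},
    ExvY S w₁ (fun J F ω (i : Fin 3) => F.X J ω (c i)) b → ∀ {N : Fin m},
    (∀ j, j ≠ N → ∃ i : Fin 3, c i = j) → ∀ {r : ℝ → ℝ}, Pool.ALL.RateOf S N r →
    ∀ {κ : ℝ}, 0 < κ → κ ≤ 1 → ∀ {ρ : ℝ}, 0 < ρ →
    Bas S (fun J F A => 0 < Pe F.p A ∧
      ∀ {V₀ V₁ : Type} {lv : Fin 3} {sg P0 L R h : ℕ}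
        {P : V₀ → ℕ → PN} {z₀ : PtT F → V₀} {z₀' : LnT F → V₀} {z₁ : PtT F → V₁}
        {z₁' : LnT F → V₁} {g : ℕ → ℕ} {x : F.Ω → Fin 4 → ℝ} {Gd : C8 F.Ω → Prop},
        Cht F A c N lv ⌊w₀ * J⌋₊ ⌊w₁ * J⌋₊ sg P0 L R h P z₀ z₀' z₁ z₁' g x →
        ∀ {s : Fin 6 → C8 F.Ω → Fin 2 → Fin 2 → ℝ} {al : Fin 6 → C8 F.Ω → Fin 2 → ℝ},
        (∀ i, i ≠ 3 → Lef F c L R h ⌊w₀ * J⌋₊ ⌊w₁ * J⌋₊ P z₀ z₀' z₁' g x Gd i (s i) (al i)) →
        (∑ i : Fin 3, ((J : ℝ) - g i)) - L ≤ (b + ρ) * J →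
        sg ≤ P0 → P0 + R ≤ J + sg →
        (r (((P0 + R - sg : ℕ) : ℝ) / J) - r (((P0 - sg : ℕ) : ℝ) / J)) * Real.log 2 * J +
          C * (ρ * J + √((L : ℝ) - R) + √((h + 1 : ℝ) * R) + (h + 1)) < R * Real.log 2 →
        Pe (PC (Pool.Agent.H49.Ent.cond F.p A True) (slam F ⌊w₀ * J⌋₊) (ptr F J))
          (fun e => Gd e ∧ 1 / 2 ^ h ≤ |s 2 e 1 0 - s 1 e 1 0| ∧
            ∃ q, 1 / 2 ^ h ≤ |dt ![s 1 e, s 2 e, s (cll q).1 e] 1 (cll q).2|) < 5 * κ) := by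
  obtain ⟨C, hC, key⟩ := mk_one
  refine ⟨C, hC, ?_⟩
  intro m hKP S w₀ w₁ hw hw1 htm c b hex N hN r hr κ hκ hκ1 ρ hρ
  refine (key hKP hw hw1 htm hex hN hr hκ hκ1 hρ).mono 0 ?_
  rintro J - F A ⟨hA, hmain⟩
  refine ⟨hA, ?_⟩
  intro V₀ V₁ lv sg P0 L R h P z₀ z₀' z₁ z₁' g x Gd H s al HL hb hsg hP0 hnum
  have hl := isLaw_cond F.isLaw hA
  have hP := PC_isLaw hl (slam F ⌊w₀ * J⌋₊) (ptr F J)
  have one : ∀ q : Fin 5,
      Pe (PC (Pool.Agent.H49.Ent.cond F.p A True) (slam F ⌊w₀ * J⌋₊) (ptr F J))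
        (fun e => Gd e ∧ 1 / 2 ^ h ≤ |s 2 e 1 0 - s 1 e 1 0| ∧
          1 / 2 ^ h ≤ |dt ![s 1 e, s 2 e, s (cll q).1 e] 1 (cll q).2|) < κ := by
    intro q
    refine hmain H (HL 1 (by decide)) (HL 2 (by decide)) (HL (cll q).1 ?_) (cll q).2 hb hsg hP0
      hnum
    fin_cases q <;> decide
  obtain ⟨D, hD⟩ : ∃ D : Fin 5 → C8 F.Ω → Prop, D = fun q e =>
    Gd e ∧ 1 / 2 ^ h ≤ |s 2 e 1 0 - s 1 e 1 0| ∧
      1 / 2 ^ h ≤ |dt ![s 1 e, s 2 e, s (cll q).1 e] 1 (cll q).2| := ⟨_, rfl⟩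
  have one' : ∀ q : Fin 5,
      Pe (PC (Pool.Agent.H49.Ent.cond F.p A True) (slam F ⌊w₀ * J⌋₊) (ptr F J)) (D q) < κ := by
    intro q
    rw [hD]
    exact one q
  have u4 := Pe_two hP (A := fun e => D 3 e ∨ D 4 e) (B := D 3) (C := D 4) (fun e h => h)
  have u3 := Pe_two hP (A := fun e => D 2 e ∨ (D 3 e ∨ D 4 e)) (B := D 2)
    (C := fun e => D 3 e ∨ D 4 e) (fun e h => h)
  have u2 := Pe_two hP (A := fun e => D 1 e ∨ (D 2 e ∨ (D 3 e ∨ D 4 e))) (B := D 1)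
    (C := fun e => D 2 e ∨ (D 3 e ∨ D 4 e)) (fun e h => h)
  have u1 := Pe_two hP (A := fun e => Gd e ∧ 1 / 2 ^ h ≤ |s 2 e 1 0 - s 1 e 1 0| ∧
            ∃ q, 1 / 2 ^ h ≤ |dt ![s 1 e, s 2 e, s (cll q).1 e] 1 (cll q).2|) (B := D 0)
    (C := fun e => D 1 e ∨ (D 2 e ∨ (D 3 e ∨ D 4 e))) (fun e h => by
      obtain ⟨h1, h2, q, h3⟩ := h
      have h4 : D q e := by
        rw [hD]
        exact ⟨h1, h2, h3⟩
      fin_cases q
      · exact Or.inl h4
      · exact Or.inr (Or.inl h4)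
      · exact Or.inr (Or.inr (Or.inl h4))
      · exact Or.inr (Or.inr (Or.inr (Or.inl h4)))
      · exact Or.inr (Or.inr (Or.inr (Or.inr h4))))
  linarith [one' 0, one' 1, one' 2, one' 3, one' 4]

end Pool.MKC
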