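import Pool.Agent.H71.MKC.One

/-!
# Three leaves through a point, at class level
-/

set_option autoImplicit false

namespace Pool.MKC

open Finset Real MvPolynomial
open Pool.Agent.H49.Ent Pool.Agent.H32.Dense Pool.STK Pool.KA Pool.KSAT Pool.K2S Pool.PB
  Pool.STAT Pool.GEN Pool.M3F Pool.KM7 Pool.S6C Pool.JPR Pool.JPN
open Pool.R2M (mk4h tbh C4h tbh_le bas dt)

/-- **(MK) One call, at class level.** Three samples `i0`, `i1`, `i2` of the six, whose leaves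
through the point of `o` have slopes of the falling coordinate with a gap (`i0`, `i1`) and a
determinant bounded from below: if the rows `P0`, .., `P0 + R` of `N` are not full, this has small
probability. -/
theorem mk_one : ∃ C : ℝ, 0 ≤ C ∧ ∀ {m : ℕ}, KP 3 → ∀ {S : PCl m} {w₀ w₁ : ℝ}, w₀ ≤ w₁ → w₁ ≤ 1 →
    Pool.GRW.TmWn S w₀ → ∀ {c : ℕ → Fin m} {b : ℝ},
    ExvY S w₁ (fun J F ω (i : Fin 3) => F.X J ω (c i)) b → ∀ {N : Fin m},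
    (∀ j, j ≠ N → ∃ i : Fin 3, c i = j) → ∀ {r : ℝ → ℝ}, Pool.ALL.RateOf S N r →
    ∀ {κ : ℝ}, 0 < κ → κ ≤ 1 → ∀ {ρ : ℝ}, 0 < ρ →
    Bas S (fun J F A => 0 < Pe F.p A ∧
      ∀ {V₀ V₁ : Type} {lv : Fin 3} {sg P0 L R h : ℕ}
        {P : V₀ → ℕ → PN} {z₀ : PtT F → V₀} {z₀' : LnT F → V₀} {z₁ : PtT F → V₁}
        {z₁' : LnT F → V₁} {g : ℕ → ℕ} {x : F.Ω → Fin 4 → ℝ} {Gd : C8 F.Ω → Prop},
        Cht F A c N lv ⌊w₀ * J⌋₊ ⌊w₁ * J⌋₊ sg P0 L R h P z₀ z₀' z₁ z₁' g x →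
        ∀ {i0 i1 i2 : Fin 6} {s0 s1 s2 : C8 F.Ω → Fin 2 → Fin 2 → ℝ}
        {a0 a1 a2 : C8 F.Ω → Fin 2 → ℝ},
        Lef F c L R h ⌊w₀ * J⌋₊ ⌊w₁ * J⌋₊ P z₀ z₀' z₁' g x Gd i0 s0 a0 →
        Lef F c L R h ⌊w₀ * J⌋₊ ⌊w₁ * J⌋₊ P z₀ z₀' z₁' g x Gd i1 s1 a1 →
        Lef F c L R h ⌊w₀ * J⌋₊ ⌊w₁ * J⌋₊ P z₀ z₀' z₁' g x Gd i2 s2 a2 → ∀ b3 : Fin 2,
        (∑ i : Fin 3, ((J : ℝ) - g i)) - L ≤ (b + ρ) * J →
        sg ≤ P0 → P0 + R ≤ J + sg →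
        (r (((P0 + R - sg : ℕ) : ℝ) / J) - r (((P0 - sg : ℕ) : ℝ) / J)) * Real.log 2 * J +
          C * (ρ * J + √((L : ℝ) - R) + √((h + 1 : ℝ) * R) + (h + 1)) < R * Real.log 2 →
        Pe (PC (Pool.Agent.H49.Ent.cond F.p A True) (slam F ⌊w₀ * J⌋₊) (ptr F J))
          (fun e => Gd e ∧ 1 / 2 ^ h ≤ |s1 e 1 0 - s0 e 1 0| ∧
            1 / 2 ^ h ≤ |dt ![s0 e, s1 e, s2 e] 1 b3|) < κ) := by
  obtain ⟨C, hC, key⟩ := one_law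
  refine ⟨2 * C + 1, by positivity, ?_⟩
  intro m hKP S w₀ w₁ hw hw1 htm c b hex N hN r hr κ hκ hκ1 ρ hρ
  have hpos : Bas S (fun _ F A => 0 < Pe F.p A) :=
    (Pool.JPR.tm_ful (hw.trans hw1) htm (θ := 1) one_pos).mono 0 fun _ _ _ _ h => h.1
  refine (full_C hKP (hw.trans hw1) htm hex (nf_pair hr hpos hρ) hκ hκ1 hρ).mono 0 ?_
  rintro J - F A ⟨hA, hmain⟩
  refine ⟨hA, ?_⟩
  intro V₀ V₁ lv sg P0 L R h P z₀ z₀' z₁ z₁' g x Gd H i0 i1 i2 s0 s1 s2 a0 a1 a2 H0 H1 H2 b3 hb hsg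
    hP0 hnum
  by_contra hcon
  rw [not_lt] at hcon
  have hJ0 : (0 : ℝ) ≤ J := Nat.cast_nonneg J
  have l20 : 0 < Real.log 2 := Real.log_pos one_lt_two
  have l21 : Real.log 2 ≤ 1 := by
    have := Real.log_two_lt_d9
    linarith
  obtain ⟨B, Q, -, -, hΦ, hQ, hpsh, hsup, -, hfull⟩ := hmain _ hcon
  have hww : ⌊w₀ * (J : ℝ)⌋₊ ≤ ⌊w₁ * (J : ℝ)⌋₊ :=
    Nat.floor_le_floor (mul_le_mul_of_nonneg_right hw hJ0)
  have hwJ : ⌊w₁ * (J : ℝ)⌋₊ ≤ J := by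
    have h1 : ⌊w₁ * (J : ℝ)⌋₊ ≤ ⌊(J : ℝ)⌋₊ :=
      Nat.floor_le_floor (by
        calc w₁ * (J : ℝ) ≤ 1 * J := mul_le_mul_of_nonneg_right hw1 hJ0
          _ = J := one_mul _)
    rwa [Nat.floor_natCast] at h1
  have m1 := key (E₀ := (b - ρ) * Real.log 2 * J) (e₀ := 2 * (ρ * J)) hQ hww hwJ H
    (fun e he => (hsup e he).2.2) (fun e he => (hsup e he).1.1) (by positivity)
    (fun V z z' hz i => hfull V z z' hz i) (by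
      have a1 := mul_le_mul_of_nonneg_right hb l20.le
      have a2 : ρ * J * Real.log 2 ≤ ρ * J * 1 :=
        mul_le_mul_of_nonneg_left l21 (by positivity)
      nlinarith) H0 H1 H2 b3
    (fun e he => (hsup e he).1.2.1) (fun e he => (hsup e he).1.2.2)
  have hWF : ∀ e e' : C8 F.Ω, 0 < Q e → 0 < Q e' →
      W3 F c P z₀ z₀' g ⌊w₀ * J⌋₊ e = W3 F c P z₀ z₀' g ⌊w₀ * J⌋₊ e' →
      F.W e.1.1.1 = F.W e'.1.1.1 := fun e e' he he' hz =>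
    (wc_fields (fun e he => (hsup e he).2.2.mem 0) H.cl0 e e' he he' hz).2.2.1
  have m2 := hΦ (C8 F.Ω) Q (fun e => e.1.1.1) hQ hpsh 3 (fun i => c i) hN _
    (fun e => W3 F c P z₀ z₀' g ⌊w₀ * J⌋₊ e) hWF sg P0 (P0 + R) hsg (Nat.le_add_right _ _) hP0
  have m3 : R * Real.log 2 ≤ (r (((P0 + R - sg : ℕ) : ℝ) / J) - r (((P0 - sg : ℕ) : ℝ) / J)) *
      Real.log 2 * J + ρ * J +
      C * (2 * (ρ * J) + √((L : ℝ) - R) + √((h + 1 : ℝ) * R) + (h + 1)) := by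
    refine m1.trans ?_
    gcongr
  have v1 : 0 ≤ √((L : ℝ) - R) := Real.sqrt_nonneg _
  have v2 : 0 ≤ √((h + 1 : ℝ) * R) := Real.sqrt_nonneg _
  have v3 : (0 : ℝ) ≤ h + 1 := by positivity
  have v4 : 0 ≤ ρ * J := by positivity
  have w1 : 0 ≤ C * √((L : ℝ) - R) := mul_nonneg hC v1
  have w2 : 0 ≤ C * √((h + 1 : ℝ) * R) := mul_nonneg hC v2
  have w3 : 0 ≤ C * (h + 1 : ℝ) := mul_nonneg hC v3
  have ex1 : (2 * C + 1) * (ρ * J + √((L : ℝ) - R) + √((h + 1 : ℝ) * R) + (h + 1)) =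
      2 * (C * (ρ * J)) + 2 * (C * √((L : ℝ) - R)) + 2 * (C * √((h + 1 : ℝ) * R)) +
        2 * (C * (h + 1)) + (ρ * J + √((L : ℝ) - R) + √((h + 1 : ℝ) * R) + (h + 1)) := by ring
  have ex2 : C * (2 * (ρ * J) + √((L : ℝ) - R) + √((h + 1 : ℝ) * R) + (h + 1)) =
      2 * (C * (ρ * J)) + C * √((L : ℝ) - R) + C * √((h + 1 : ℝ) * R) + C * (h + 1) := by ring
  rw [ex1] at hnum
  rw [ex2] at m3
  linarith

end Pool.MKC
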