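import Pool.Agent.H71.MKC.Inp
import Pool.Agent.H53.JM.Nf
import Pool.Agent.H99.R2.Mk4h
import Pool.Agent.H67.SPN.Nfb

/-!
# Three leaves through a point, with the law of six samples

`row3`: rows of a natural coordinate and rows of the coordinate. `one_law`: for a law of six samples
with full positions given the label of one sample, three samples whose leaves have a determinant
bounded from below, the rows of the last coordinate given the exact position are full.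
-/

set_option autoImplicit false

namespace Pool.MKC

open Finset Real MvPolynomial
open Pool.Agent.H49.Ent Pool.Agent.H32.Dense Pool.STK Pool.KA Pool.KSAT Pool.K2S Pool.PB
  Pool.STAT Pool.GEN Pool.M3F Pool.KM7 Pool.JPN
open Pool.R2M (mk4h tbh C4h tbh_le bas dt)
open Pool.SPN (nf4b)

/-! ### Rows -/

section row

variable {E Γ : Type} [Fintype E] {Q : E → ℝ}

/-- Floors of near numbers. -/
theorem flr_near {a b t : ℝ} (h : |a - b| ≤ t) : |((⌊a⌋ - ⌊b⌋ : ℤ) : ℝ)| ≤ t + 1 := by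
  have a1 := Int.floor_le a
  have a2 := Int.lt_floor_add_one a
  have b1 := Int.floor_le b
  have b2 := Int.lt_floor_add_one b
  rw [abs_le] at h ⊢
  push_cast
  constructor <;> linarith [h.1, h.2]

/-- **The rows of a natural coordinate.** -/
theorem row3 (hQ : IsLaw Q) {x y : E → ℝ} (Z : E → Γ) {P R h : ℕ}
    (hx : ∀ e, 0 < Q e → |x e| ≤ 2 ^ h)
    (hxy : ∀ e e', 0 < Q e → 0 < Q e' → Z e = Z e' →
      |x e - x e' - 2 ^ P * (y e - y e')| ≤ 2 ^ h / 2 ^ R) :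
    CH Q (fun e => ⌊(2 : ℝ) ^ R * x e⌋) Z ≤
      CH Q (fun e => ⌊(2 : ℝ) ^ (P + R) * y e⌋) (fun e => (⌊(2 : ℝ) ^ P * y e⌋, Z e)) +
        (2 * h * Real.log 2 + 2 * Real.log 9) := by
  have hQ0 := hQ.nonneg
  have p1 : (1 : ℝ) ≤ 2 ^ h := one_le_pow₀ (by norm_num)
  have pR : (1 : ℝ) ≤ 2 ^ R := one_le_pow₀ (by norm_num)
  have pR0 : (0 : ℝ) < 2 ^ R := by linarith
  have q1 : (2 : ℝ) ^ h / 2 ^ R ≤ 2 ^ h := div_le_self (by linarith) pR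
  have c1 := CH_le_add hQ0 (fun e => ⌊(2 : ℝ) ^ R * x e⌋) (fun e => ⌊(2 : ℝ) ^ P * y e⌋) Z
  have c2 := CH_le_add hQ0 (fun e => ⌊(2 : ℝ) ^ R * x e⌋) (fun e => ⌊(2 : ℝ) ^ (P + R) * y e⌋)
    (fun e => (⌊(2 : ℝ) ^ P * y e⌋, Z e))
  have d1 := CH_le_int hQ0 hQ.sum_one (fun e => ⌊(2 : ℝ) ^ P * y e⌋) Z
    (fun _ => 3 * (2 : ℝ) ^ h + 1) (fun e e' he he' hz => by
      refine flr_near ?_
      have a1 := hxy e e' he he' hz
      have a2 := hx e he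
      have a3 := hx e' he'
      rw [← mul_sub]
      rw [abs_le] at a1 a2 a3 ⊢
      constructor <;> linarith [a1.1, a1.2, a2.1, a2.2, a3.1, a3.2])
  have d2 := CH_le_int hQ0 hQ.sum_one (fun e => ⌊(2 : ℝ) ^ R * x e⌋)
    (fun e => (⌊(2 : ℝ) ^ (P + R) * y e⌋, (⌊(2 : ℝ) ^ P * y e⌋, Z e)))
    (fun _ => (2 : ℝ) ^ h + 1 + 1) (fun e e' he he' hz => by
      refine flr_near ?_
      have g1 := Prod.ext_iff.1 hz
      have g2 := Ful.fl_eq g1.1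
      have a1 := hxy e e' he he' (Prod.ext_iff.1 g1.2).2
      rw [le_div_iff₀ pR0] at a1
      rw [← mul_sub]
      have e1 : (2 : ℝ) ^ R * (x e - x e') = 2 ^ R * (x e - x e' - 2 ^ P * (y e - y e')) +
          (2 ^ (P + R) * y e - 2 ^ (P + R) * y e') := by
        rw [pow_add]
        ring
      rw [e1]
      refine (abs_add_le _ _).trans (add_le_add ?_ g2)
      rw [abs_mul, abs_of_pos pR0, mul_comm]
      exact a1)
  rw [Ex_const hQ.sum_one] at d1 d2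
  have l1 : Real.log (2 * (3 * (2 : ℝ) ^ h + 1) + 1) ≤ h * Real.log 2 + Real.log 9 := by
    rw [← Real.log_pow, ← Real.log_mul (by positivity) (by norm_num)]
    refine Real.log_le_log (by positivity) ?_
    linarith
  have l2 : Real.log (2 * ((2 : ℝ) ^ h + 1 + 1) + 1) ≤ h * Real.log 2 + Real.log 9 := by
    rw [← Real.log_pow, ← Real.log_mul (by positivity) (by norm_num)]
    refine Real.log_le_log (by positivity) ?_
    linarith
  linarith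

end row


/-! ### One call -/

variable {m J : ℕ} {F : Fam m J} {V₀ V₁ : Type}

/-- The side information, without cells. -/
noncomputable abbrev W3 (F : Fam m J) (c : ℕ → Fin m) (P : V₀ → ℕ → PN) (z₀ : PtT F → V₀)
    (z₀' : LnT F → V₀) (g : ℕ → ℕ) (w₀ : ℕ) (e : C8 F.Ω) :
    ((ℕ × F.ζ) × (ℕ × ℕ × ℕ × ℕ)) × (V₀ × ((Fin 3 → ℤ) × Fin 1)) :=
  WC 3 F c P z₀ z₀' g 0 w₀ (fun _ => (0 : Fin 1)) e

/-- **The chart and the labels** of a member: `V` is `c 0`, `c 1`, `c 2`, the place `lv` falls by `L`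
digits; `x` are the natural coordinates of `V` (calm, calm, falling) and of `N`. -/
structure Cht (F : Fam m J) (A : F.Ω → Prop) (c : ℕ → Fin m) (N : Fin m) (lv : Fin 3)
    (w₀ w₁ sg P0 L R h : ℕ) (P : V₀ → ℕ → PN) (z₀ : PtT F → V₀) (z₀' : LnT F → V₀)
    (z₁ : PtT F → V₁) (z₁' : LnT F → V₁) (g : ℕ → ℕ) (x : F.Ω → Fin 4 → ℝ) : Prop where
  tri : ∀ v, TriN (P v)
  cl0 : ∀ ω, A ω → z₀ (ptr F J ω) = z₀' (slam F w₀ ω)
  cl1 : ∀ ω, A ω → z₁ (ptr F J ω) = z₁' (slam F w₁ ω)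
  pos : ∀ ω, A ω → ∀ i < 3, |ntc F c P z₀ ω i| ≤ 1 / 2 ^ g i
  dep : ∀ i : Fin 3, g i + L ≤ J
  RL : R ≤ L
  x0 : ∀ ω, A ω → x ω 0 = nat F c P z₀ g ω (lv.succAbove 0)
  x1 : ∀ ω, A ω → x ω 1 = nat F c P z₀ g ω (lv.succAbove 1)
  x2 : ∀ ω, A ω → x ω 2 = nat F c P z₀ g ω lv
  xs : ∀ ω, A ω → ∀ j, |x ω j| ≤ 2 ^ h
  x3 : ∀ ω ω', A ω → A ω' → (∀ i : Fin 3, F.X J ω (c i) = F.X J ω' (c i)) →
    z₀ (ptr F J ω) = z₀ (ptr F J ω') → F.T ω = F.T ω' →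
    |x ω 3 - x ω' 3 - 2 ^ P0 * (F.x ω N / 2 ^ sg - F.x ω' N / 2 ^ sg)| ≤ 2 ^ h / 2 ^ R

/-- **The leaf of the sample `i`** through the point of `o`, on an event. -/
structure Lef (F : Fam m J) (c : ℕ → Fin m) (L R h w₀ w₁ : ℕ) (P : V₀ → ℕ → PN)
    (z₀ : PtT F → V₀) (z₀' : LnT F → V₀) (z₁' : LnT F → V₁) (g : ℕ → ℕ) (x : F.Ω → Fin 4 → ℝ)
    (Gd : C8 F.Ω → Prop) (i : Fin 6) (s : C8 F.Ω → Fin 2 → Fin 2 → ℝ)
    (al : C8 F.Ω → Fin 2 → ℝ) : Prop where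
  fn : ∀ e e', Gd e → Gd e' → z₁' (slam F w₁ (smp e i)) = z₁' (slam F w₁ (smp e' i)) →
    W3 F c P z₀ z₀' g w₀ e = W3 F c P z₀ z₀' g w₀ e' → s e = s e' ∧ al e = al e'
  sz : ∀ e, Gd e → ∀ b j, |s e b j| ≤ 2 ^ h
  lv : ∀ e, Gd e → |x e.1.1.1 2 - al e 0 - (s e 0 0 * x e.1.1.1 0 + s e 1 0 * x e.1.1.1 1)| ≤
    2 ^ h / 2 ^ L
  ln : ∀ e, Gd e → |x e.1.1.1 3 - al e 1 - (s e 0 1 * x e.1.1.1 0 + s e 1 1 * x e.1.1.1 1)| ≤
    2 ^ h / 2 ^ R

variable {A : F.Ω → Prop} {c : ℕ → Fin m} {N : Fin m} {lv : Fin 3} {w₀ w₁ sg P0 L R h : ℕ}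
  {P : V₀ → ℕ → PN} {z₀ : PtT F → V₀} {z₀' : LnT F → V₀} {z₁ : PtT F → V₁} {z₁' : LnT F → V₁}
  {g : ℕ → ℕ} {x : F.Ω → Fin 4 → ℝ} {Gd : C8 F.Ω → Prop} {Q : C8 F.Ω → ℝ}

/-- Two samples of one leaf. -/
theorem Lef.two {i : Fin 6} {s : C8 F.Ω → Fin 2 → Fin 2 → ℝ} {al : C8 F.Ω → Fin 2 → ℝ}
    (H : Lef F c L R h w₀ w₁ P z₀ z₀' z₁' g x Gd i s al) {e e' : C8 F.Ω} (he : Gd e) (he' : Gd e')
    (h1 : z₁' (slam F w₁ (smp e i)) = z₁' (slam F w₁ (smp e' i)))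
    (h2 : W3 F c P z₀ z₀' g w₀ e = W3 F c P z₀ z₀' g w₀ e') :
    |x e.1.1.1 2 - x e'.1.1.1 2 - (s e 0 0 * (x e.1.1.1 0 - x e'.1.1.1 0) +
      s e 1 0 * (x e.1.1.1 1 - x e'.1.1.1 1))| ≤ 2 ^ (h + 1) / 2 ^ L ∧
    |x e.1.1.1 3 - x e'.1.1.1 3 - (s e 0 1 * (x e.1.1.1 0 - x e'.1.1.1 0) +
      s e 1 1 * (x e.1.1.1 1 - x e'.1.1.1 1))| ≤ 2 ^ (h + 1) / 2 ^ R := by
  obtain ⟨g1, g2⟩ := H.fn e e' he he' h1 h2
  have a1 := H.lv e he
  have a2 := H.lv e' he'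
  have b1 := H.ln e he
  have b2 := H.ln e' he'
  rw [← g1, ← g2] at a2 b2
  have e1 : ∀ n : ℕ, (2 : ℝ) ^ (h + 1) / 2 ^ n = 2 ^ h / 2 ^ n + 2 ^ h / 2 ^ n := fun n => by
    rw [pow_succ]
    ring
  rw [e1, e1]
  constructor
  · rw [abs_le] at a1 a2 ⊢
    constructor <;> linarith [a1.1, a1.2, a2.1, a2.2]
  · rw [abs_le] at b1 b2 ⊢
    constructor <;> linarith [b1.1, b1.2, b2.1, b2.2]

/-- **The natural digits of the calm coordinates are full given the leaf.** -/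
theorem hdig (hQ : IsLaw Q) (hw : w₀ ≤ w₁) (hw₁ : w₁ ≤ J)
    (H : Cht F A c N lv w₀ w₁ sg P0 L R h P z₀ z₀' z₁ z₁' g x)
    (hs : ∀ e, 0 < Q e → Spp F w₀ A e) (hG : ∀ e, 0 < Q e → Gd e) {E₀ e₀ : ℝ}
    (hE : ∀ (V : Type) (z : PtT F → V) (z' : LnT F → V),
      (∀ ω, A ω → z (ptr F J ω) = z' (slam F w₁ ω)) → ∀ i : Fin 6,
      E₀ ≤ CH Q (fun e (i : Fin 3) => F.X J e.1.1.1 (c i))
        (fun e => (z' (slam F w₁ (smp e i)), TT F e)))
    (hE₀ : ((∑ i : Fin 3, ((J : ℝ) - g i)) - L) * Real.log 2 - e₀ ≤ E₀)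
    {i : Fin 6} {s : C8 F.Ω → Fin 2 → Fin 2 → ℝ} {al : C8 F.Ω → Fin 2 → ℝ}
    (HL : Lef F c L R h w₀ w₁ P z₀ z₀' z₁' g x Gd i s al) {R₁ : ℕ} (hR : R₁ ≤ L) :
    2 * R₁ * Real.log 2 - (e₀ + h + 17) ≤ CH Q (fun e => fl R₁ ![x e.1.1.1 0, x e.1.1.1 1])
      (fun e => (z₁' (slam F w₁ (smp e i)), W3 F c P z₀ z₀' g w₀ e)) := by
  have hQ0 := hQ.nonneg
  have h1 := inpC hQ hw hw₁ hs H.cl0 H.cl1 H.pos (d := 0) (br := fun _ => (0 : Fin 1)) hE i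
  have hA : ∀ e, 0 < Q e → A e.1.1.1 := fun e he => (hs e he).mem 0
  have p1 : (1 : ℝ) ≤ 2 ^ h := one_le_pow₀ (by norm_num)
  have pL0 : (0 : ℝ) < 2 ^ L := by positivity
  have hwc : ∀ e e', 0 < Q e → 0 < Q e' →
      (z₁' (slam F w₁ (smp e i)), W3 F c P z₀ z₀' g w₀ e) =
        (z₁' (slam F w₁ (smp e' i)), W3 F c P z₀ z₀' g w₀ e') →
      z₁' (slam F w₁ (smp e i)) = z₁' (slam F w₁ (smp e' i)) ∧
      W3 F c P z₀ z₀' g w₀ e = W3 F c P z₀ z₀' g w₀ e' ∧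
      z₀ (ptr F J e.1.1.1) = z₀ (ptr F J e'.1.1.1) ∧ F.T e.1.1.1 = F.T e'.1.1.1 := by
    intro e e' he he' hz
    have a1 : W3 F c P z₀ z₀' g w₀ e = W3 F c P z₀ z₀' g w₀ e' := (Prod.ext_iff.1 hz).2
    have a2 := wc_fields hA H.cl0 e e' he he' a1
    exact ⟨(Prod.ext_iff.1 hz).1, a1, a2.1, a2.2.1⟩
  have h2 := base_dig (k := 2) (lv := lv) (pr := fun e : C8 F.Ω => e.1.1.1) (c := c) (g := g)
    (PP := P) (zz := z₀) (M := h + 2) hQ
    (fun e => (z₁' (slam F w₁ (smp e i)), W3 F c P z₀ z₀' g w₀ e)) H.tri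
    (fun e e' he he' hz => (hwc e e' he he' hz).2.2.1)
    (fun e e' he he' hz => (hwc e e' he he' hz).2.2.2)
    hR H.dep ?_ h1
  · have h3 : CH Q (fun e (l : Fin 2) =>
        ⌊(2 : ℝ) ^ R₁ * nat F c P z₀ g e.1.1.1 (lv.succAbove l)⌋)
        (fun e => (z₁' (slam F w₁ (smp e i)), W3 F c P z₀ z₀' g w₀ e)) =
        CH Q (fun e => fl R₁ ![x e.1.1.1 0, x e.1.1.1 1])
        (fun e => (z₁' (slam F w₁ (smp e i)), W3 F c P z₀ z₀' g w₀ e)) := by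
      have key : ∀ e, 0 < Q e → (fun (l : Fin 2) =>
        ⌊(2 : ℝ) ^ R₁ * nat F c P z₀ g e.1.1.1 (lv.succAbove l)⌋) =
        fl R₁ ![x e.1.1.1 0, x e.1.1.1 1] := by
        intro e he
        funext l
        fin_cases l
        · change _ = ⌊(2 : ℝ) ^ R₁ * x e.1.1.1 0⌋
          rw [H.x0 _ (hA e he)]
          rfl
        · change _ = ⌊(2 : ℝ) ^ R₁ * x e.1.1.1 1⌋
          rw [H.x1 _ (hA e he)]
          rfl
      refine CH_congr hQ0 ?_ ?_ (fun _ _ _ _ h => h) (fun _ _ _ _ h => h)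
      · intro e e' he he' hh
        have a1 := (Prod.ext_iff.1 hh).1
        simp only at a1
        rw [key e he, key e' he'] at a1
        exact a1
      · intro e e' he he' hh
        have a1 := (Prod.ext_iff.1 hh).1
        simp only at a1 ⊢
        rw [key e he, key e' he']
        exact a1
    rw [h3] at h2
    refine le_trans ?_ h2
    have l2 : Real.log 2 ≤ 0.7 := by
      have := Real.log_two_lt_d9
      linarith
    have l20 : 0 < Real.log 2 := Real.log_pos one_lt_two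
    have l3 : Real.log 3 ≤ 1.4 := by
      have a1 : Real.log 3 ≤ Real.log (2 ^ 2) := Real.log_le_log (by norm_num) (by norm_num)
      rw [Real.log_pow] at a1
      push_cast at a1
      linarith
    have l5 : Real.log 5 ≤ 2.1 := by
      have a1 : Real.log 5 ≤ Real.log (2 ^ 3) := Real.log_le_log (by norm_num) (by norm_num)
      rw [Real.log_pow] at a1
      push_cast at a1
      linarith
    have hh0 : (0 : ℝ) ≤ h := Nat.cast_nonneg h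
    have hh1 : (h : ℝ) * Real.log 2 ≤ h * 0.7 := mul_le_mul_of_nonneg_left l2 hh0
    have e1 : (∑ i : Fin 3, ((J : ℝ) - g i - L)) = (∑ i : Fin 3, ((J : ℝ) - g i)) - 3 * L := by
      rw [Finset.sum_sub_distrib, Finset.sum_const, Finset.card_univ, Fintype.card_fin,
        nsmul_eq_mul]
      push_cast
      ring
    push_cast at h2 ⊢
    rw [Real.log_one]
    have e2 : (∑ i : Fin (2 + 1), ((J : ℝ) - g i - L)) = (∑ i : Fin 3, ((J : ℝ) - g i)) - 3 * L := e1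
    rw [e2]
    nlinarith
  · intro e e' he he' hz hl
    obtain ⟨a1, a2, -, -⟩ := hwc e e' he he' hz
    have a3 := (HL.two (hG e he) (hG e' he') a1 a2).1
    have a4 := HL.sz e (hG e he) 0 0
    have a5 := HL.sz e (hG e he) 1 0
    have b0 := Ful.fl_eq (hl 0)
    have b1 := Ful.fl_eq (hl 1)
    rw [← H.x0 _ (hA e he), ← H.x0 _ (hA e' he')] at b0
    rw [← H.x1 _ (hA e he), ← H.x1 _ (hA e' he')] at b1
    rw [← H.x2 _ (hA e he), ← H.x2 _ (hA e' he')]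
    have c0 : |x e.1.1.1 0 - x e'.1.1.1 0| ≤ 1 / 2 ^ L := by
      rw [le_div_iff₀ pL0]
      rw [← mul_sub, abs_mul, abs_of_pos pL0] at b0
      linarith
    have c1 : |x e.1.1.1 1 - x e'.1.1.1 1| ≤ 1 / 2 ^ L := by
      rw [le_div_iff₀ pL0]
      rw [← mul_sub, abs_mul, abs_of_pos pL0] at b1
      linarith
    have d0 : |s e 0 0 * (x e.1.1.1 0 - x e'.1.1.1 0)| ≤ 2 ^ h * (1 / 2 ^ L) := by
      rw [abs_mul]
      exact mul_le_mul a4 c0 (abs_nonneg _) (by linarith)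
    have d1 : |s e 1 0 * (x e.1.1.1 1 - x e'.1.1.1 1)| ≤ 2 ^ h * (1 / 2 ^ L) := by
      rw [abs_mul]
      exact mul_le_mul a5 c1 (abs_nonneg _) (by linarith)
    have e1 : (2 : ℝ) ^ (h + 2) / 2 ^ L = 2 ^ (h + 1) / 2 ^ L + 2 ^ h * (1 / 2 ^ L) +
        2 ^ h * (1 / 2 ^ L) := by
      rw [pow_add, pow_add]
      ring
    rw [e1]
    rw [abs_le] at a3 d0 d1 ⊢
    constructor <;> linarith [a3.1, a3.2, d0.1, d0.2, d1.1, d1.2]


/-- **One call**: three samples whose leaves have a determinant bounded from below. -/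
theorem one_law : ∃ C : ℝ, 0 ≤ C ∧ ∀ {m J : ℕ} {F : Fam m J} {V₀ V₁ : Type} {A : F.Ω → Prop}
    {c : ℕ → Fin m} {N : Fin m} {lv : Fin 3} {w₀ w₁ sg P0 L R h : ℕ}
    {P : V₀ → ℕ → PN} {z₀ : PtT F → V₀} {z₀' : LnT F → V₀} {z₁ : PtT F → V₁}
    {z₁' : LnT F → V₁} {g : ℕ → ℕ} {x : F.Ω → Fin 4 → ℝ} {Gd : C8 F.Ω → Prop}
    {Q : C8 F.Ω → ℝ}, IsLaw Q → w₀ ≤ w₁ → w₁ ≤ J →
    Cht F A c N lv w₀ w₁ sg P0 L R h P z₀ z₀' z₁ z₁' g x →
    (∀ e, 0 < Q e → Spp F w₀ A e) → (∀ e, 0 < Q e → Gd e) → ∀ {E₀ e₀ : ℝ}, 0 ≤ e₀ →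
    (∀ (V : Type) (z : PtT F → V) (z' : LnT F → V),
      (∀ ω, A ω → z (ptr F J ω) = z' (slam F w₁ ω)) → ∀ i : Fin 6,
      E₀ ≤ CH Q (fun e (i : Fin 3) => F.X J e.1.1.1 (c i))
        (fun e => (z' (slam F w₁ (smp e i)), TT F e))) →
    ((∑ i : Fin 3, ((J : ℝ) - g i)) - L) * Real.log 2 - e₀ ≤ E₀ →
    ∀ {i0 i1 i2 : Fin 6} {s0 s1 s2 : C8 F.Ω → Fin 2 → Fin 2 → ℝ}
    {a0 a1 a2 : C8 F.Ω → Fin 2 → ℝ},
    Lef F c L R h w₀ w₁ P z₀ z₀' z₁' g x Gd i0 s0 a0 →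
    Lef F c L R h w₀ w₁ P z₀ z₀' z₁' g x Gd i1 s1 a1 →
    Lef F c L R h w₀ w₁ P z₀ z₀' z₁' g x Gd i2 s2 a2 → ∀ b3 : Fin 2,
    (∀ e, 0 < Q e → 1 / 2 ^ h ≤ |s1 e 1 0 - s0 e 1 0|) →
    (∀ e, 0 < Q e → 1 / 2 ^ h ≤ |dt ![s0 e, s1 e, s2 e] 1 b3|) →
    R * Real.log 2 ≤
      CH Q (fun e => ⌊(2 : ℝ) ^ (P0 + R) * (F.x e.1.1.1 N / 2 ^ sg)⌋)
        (fun e => (⌊(2 : ℝ) ^ P0 * (F.x e.1.1.1 N / 2 ^ sg)⌋,
          ((fun i : Fin 3 => F.X J e.1.1.1 (c i)), W3 F c P z₀ z₀' g w₀ e))) +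
      C * (e₀ + √((L : ℝ) - R) + √((h + 1 : ℝ) * R) + (h + 1)) := by
  obtain ⟨C₁, hC₁, key0⟩ := nf4b
  have hC4 : 0 ≤ C4h := by
    have := Pool.R2M.Cd_nonneg 4 3
    unfold Pool.R2M.C4h
    linarith
  refine ⟨200 + 10 * C4h + 3 * C₁, by positivity, ?_⟩
  intro m J F V₀ V₁ A c N lv w₀ w₁ sg P0 L R h P z₀ z₀' z₁ z₁' g x Gd Q hQ hw hw₁ H hs hG E₀ e₀
    he₀ hE hE₀ i0 i1 i2 s0 s1 s2 a0 a1 a2 H0 H1 H2 b3 hgap hdt
  have hQ0 := hQ.nonneg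
  have hA : ∀ e, 0 < Q e → A e.1.1.1 := fun e he => (hs e he).mem 0
  have hh0 : (0 : ℝ) ≤ h := Nat.cast_nonneg h
  have hR0 : (0 : ℝ) ≤ R := Nat.cast_nonneg R
  have p1 : (1 : ℝ) ≤ 2 ^ h := one_le_pow₀ (by norm_num)
  have p1' : (1 : ℝ) ≤ 2 ^ (h + 1) := one_le_pow₀ (by norm_num)
  have l2 : Real.log 2 ≤ 0.7 := by
    have := Real.log_two_lt_d9
    linarith
  have l20 : 0 < Real.log 2 := Real.log_pos one_lt_two
  have l3 : Real.log 3 ≤ 1.4 := by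
    have a1 : Real.log 3 ≤ Real.log (2 ^ 2) := Real.log_le_log (by norm_num) (by norm_num)
    rw [Real.log_pow] at a1
    push_cast at a1
    linarith
  have l5 : Real.log 5 ≤ 2.1 := by
    have a1 : Real.log 5 ≤ Real.log (2 ^ 3) := Real.log_le_log (by norm_num) (by norm_num)
    rw [Real.log_pow] at a1
    push_cast at a1
    linarith
  have l9 : Real.log 9 ≤ 2.8 := by
    have a1 : Real.log 9 ≤ Real.log (2 ^ 4) := Real.log_le_log (by norm_num) (by norm_num)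
    rw [Real.log_pow] at a1
    push_cast at a1
    linarith
  have hLR : (2 : ℝ) ^ (h + 1) / 2 ^ L ≤ 2 ^ (h + 1) / 2 ^ R :=
    div_le_div_of_nonneg_left (by linarith) (by positivity)
      (pow_le_pow_right₀ (by norm_num) H.RL)
  obtain ⟨W, hW⟩ : ∃ W : C8 F.Ω → ((ℕ × F.ζ) × (ℕ × ℕ × ℕ × ℕ)) × (V₀ × ((Fin 3 → ℤ) × Fin 1)),
    W = fun e => W3 F c P z₀ z₀' g w₀ e := ⟨_, rfl⟩
  obtain ⟨K, hK⟩ : ∃ K : Fin 6 → C8 F.Ω → V₁, K = fun i e => z₁' (slam F w₁ (smp e i)) := ⟨_, rfl⟩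
  have hWf : ∀ e e', 0 < Q e → 0 < Q e' → W e = W e' →
      z₀ (ptr F J e.1.1.1) = z₀ (ptr F J e'.1.1.1) ∧ F.T e.1.1.1 = F.T e'.1.1.1 ∧
      ∀ i : Fin 3, ce 3 F c P z₀ g 0 e.1.1.1 i = ce 3 F c P z₀ g 0 e'.1.1.1 i := by
    intro e e' he he' hz
    rw [hW] at hz
    have a2 := wc_fields hA H.cl0 e e' he he' hz
    exact ⟨a2.1, a2.2.1, a2.2.2.2.2.1⟩
  have two : ∀ {i : Fin 6} {s : C8 F.Ω → Fin 2 → Fin 2 → ℝ} {al : C8 F.Ω → Fin 2 → ℝ},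
      Lef F c L R h w₀ w₁ P z₀ z₀' z₁' g x Gd i s al → ∀ e e', 0 < Q e → 0 < Q e' →
      K i e = K i e' → W e = W e' →
    |x e.1.1.1 2 - x e'.1.1.1 2 - (s e 0 0 * (x e.1.1.1 0 - x e'.1.1.1 0) +
      s e 1 0 * (x e.1.1.1 1 - x e'.1.1.1 1))| ≤ 2 ^ (h + 1) / 2 ^ L ∧
    |x e.1.1.1 3 - x e'.1.1.1 3 - (s e 0 1 * (x e.1.1.1 0 - x e'.1.1.1 0) +
      s e 1 1 * (x e.1.1.1 1 - x e'.1.1.1 1))| ≤ 2 ^ (h + 1) / 2 ^ R := by
    intro i s al HL e e' he he' h1 h2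
    rw [hK] at h1
    rw [hW] at h2
    exact HL.two (hG e he) (hG e' he') h1 h2
  have dig : ∀ {i : Fin 6} {s : C8 F.Ω → Fin 2 → Fin 2 → ℝ} {al : C8 F.Ω → Fin 2 → ℝ},
      Lef F c L R h w₀ w₁ P z₀ z₀' z₁' g x Gd i s al → ∀ {R₁ : ℕ}, R₁ ≤ L →
      2 * R₁ * Real.log 2 - (e₀ + h + 17) ≤
        CH Q (fun e => fl R₁ ![x e.1.1.1 0, x e.1.1.1 1]) (fun e => (K i e, W e)) := by
    intro i s al HL R₁ hR
    rw [hK, hW]
    exact hdig hQ hw hw₁ H hs hG hE hE₀ HL hR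
  -- three leaves
  have hδ : (0 : ℝ) < 1 / 2 ^ h := by positivity
  have hδ1 : (1 : ℝ) / 2 ^ h ≤ 1 := by
    rw [div_le_one (by positivity)]
    exact p1
  have m1 := mk4h (R := R) (h := h) (B := 2 ^ (h + 1)) (δ := 1 / 2 ^ h) hQ
    (x := fun e => x e.1.1.1) (s := fun e => ![s0 e, s1 e, s2 e]) (by positivity) hδ hδ1
    (fun e he j => H.xs _ (hA e he) j)
    (fun e he i b j => by
      fin_cases i
      · exact H0.sz e (hG e he) b j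
      · exact H1.sz e (hG e he) b j
      · exact H2.sz e (hG e he) b j)
    1 b3 hdt (Λ := fun _ => V₁) (fun i e => K (![i0, i1, i2] i) e) W
    (fun i e e' he he' hk hw j => by
      fin_cases i
      · have t := two H0 e e' he he' hk hw
        fin_cases j
        · exact t.1.trans hLR
        · exact t.2
      · have t := two H1 e e' he he' hk hw
        fin_cases j
        · exact t.1.trans hLR
        · exact t.2
      · have t := two H2 e e' he he' hk hw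
        fin_cases j
        · exact t.1.trans hLR
        · exact t.2)
    (e := fun _ => e₀ + h + 17)
    (fun i => by
      fin_cases i
      · exact dig H0 H.RL
      · exact dig H1 H.RL
      · exact dig H2 H.RL)
  -- the base
  have m2 := key0 (p := Q) hQ (x := fun e => x e.1.1.1) (A := K i0) (B := K i1)
    (V := fun e (i : Fin 3) => F.X J e.1.1.1 (c i)) (W := W)
    (s1 := fun e b => s0 e b 0) (s2 := fun e b => s1 e b 0)
    (n1 := fun e b => s0 e b 1) (n2 := fun e b => s1 e b 1) (B₀ := 2 ^ (h + 1)) (Kd := 2 ^ h)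
    (e1 := e₀ + h + 17) (e2 := e₀ + h + 17) (e3 := e₀ + 7)
    (Lz := (∑ i : Fin 3, ((J : ℝ) - g i)) * Real.log 2) (mu := L * Real.log 2)
    (h' := 3 * Real.log 3) (R := R) (L := L) h 1 H.RL p1' p1
    (fun e he j => H.xs _ (hA e he) j) (fun e he b => H0.sz e (hG e he) b 0)
    (fun e he b => H1.sz e (hG e he) b 0) (fun e he b => H0.sz e (hG e he) b 1)
    (fun e he b => H1.sz e (hG e he) b 1) hgap
    (fun e e' he he' hk hw => (two H0 e e' he he' hk hw).1)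
    (fun e e' he he' hk hw => (two H1 e e' he he' hk hw).1)
    (fun e e' he he' hk hw => (two H0 e e' he he' hk hw).2)
    (fun e e' he he' hk hw => (two H1 e e' he he' hk hw).2) ?_ ?_ ?_ ?_ ?_
  · -- the rows of `N`
    have m3 := row3 (P := P0) (R := R) (h := h) hQ (x := fun e => x e.1.1.1 3)
      (y := fun e => F.x e.1.1.1 N / 2 ^ sg)
      (fun e => ((fun i : Fin 3 => F.X J e.1.1.1 (c i)), W e))
      (fun e he => H.xs _ (hA e he) 3) (fun e e' he he' hz => by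
        have g1 := Prod.ext_iff.1 hz
        obtain ⟨g2, g3, -⟩ := hWf e e' he he' g1.2
        exact H.x3 _ _ (hA e he) (hA e' he') (fun i => congrFun g1.1 i) g2 g3)
    rw [hW] at m3
    rw [hW] at m1 m2
    have t0 := tbh_le (h := h) (B := (2 : ℝ) ^ (h + 1)) (δ := 1 / 2 ^ h) (by positivity) hδ hδ1
    have t1 : Real.log ((1 : ℝ) / 2 ^ h)⁻¹ ≤ 0.7 * h := by
      rw [one_div, inv_inv, Real.log_pow]
      nlinarith
    have t2 : Real.log ((2 : ℝ) ^ (h + 1) + 2) ≤ 0.7 * (h + 2) := by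
      have a1 : Real.log ((2 : ℝ) ^ (h + 1) + 2) ≤ Real.log ((2 : ℝ) ^ (h + 2)) := by
        refine Real.log_le_log (by positivity) ?_
        rw [pow_succ, pow_add]
        linarith
      rw [Real.log_pow] at a1
      push_cast at a1
      nlinarith
    obtain ⟨T, hT⟩ : ∃ T, T = tbh h (1 / 2 ^ h) (2 ^ (h + 1)) := ⟨_, rfl⟩
    rw [← hT] at t0 m1
    have t3 : T ≤ 7 * (h + 1) := by linarith
    have t4 : √(T * R) ≤ 3 * √((h + 1 : ℝ) * R) := by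
      have a1 : T * R ≤ 9 * ((h + 1) * R) := by nlinarith
      refine (Real.sqrt_le_sqrt a1).trans (le_of_eq ?_)
      rw [Real.sqrt_mul (by norm_num)]
      congr 1
      rw [show (9 : ℝ) = 3 ^ 2 by norm_num, Real.sqrt_sq (by norm_num)]
    have t5 : C4h * (√(T * R) + T) ≤ C4h * (3 * √((h + 1 : ℝ) * R) + 7 * (h + 1)) :=
      mul_le_mul_of_nonneg_left (add_le_add t4 t3) hC4
    have u1 : Real.log ((2 : ℝ) ^ h) ≤ 0.7 * h := by
      rw [Real.log_pow]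
      nlinarith
    have u2 : Real.log ((2 : ℝ) ^ (h + 1)) ≤ 0.7 * (h + 1) := by
      rw [Real.log_pow]
      push_cast
      nlinarith
    have u3 : C₁ * (√((L : ℝ) - R) + 1 + h + Real.log (2 ^ h) + Real.log (2 ^ (h + 1))) ≤
        C₁ * (√((L : ℝ) - R) + 3 * (h + 1)) :=
      mul_le_mul_of_nonneg_left (by linarith) hC₁
    have v1 : 0 ≤ √((L : ℝ) - R) := Real.sqrt_nonneg _
    have v2 : 0 ≤ √((h + 1 : ℝ) * R) := Real.sqrt_nonneg _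
    have v3 : (h : ℝ) * Real.log 2 ≤ 0.7 * h := by nlinarith
    have w1 : 0 ≤ C4h * √((L : ℝ) - R) := mul_nonneg hC4 v1
    have w2 : 0 ≤ C4h * √((h + 1 : ℝ) * R) := mul_nonneg hC4 v2
    have w3 : 0 ≤ C₁ * √((L : ℝ) - R) := mul_nonneg hC₁ v1
    have w4 : 0 ≤ C₁ * √((h + 1 : ℝ) * R) := mul_nonneg hC₁ v2
    have w5 : 0 ≤ C4h * (h + 1 : ℝ) := mul_nonneg hC4 (by linarith)
    have w6 : 0 ≤ C₁ * (h + 1 : ℝ) := mul_nonneg hC₁ (by linarith)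
    have w7 : 0 ≤ C4h * e₀ := mul_nonneg hC4 he₀
    have w8 : 0 ≤ C₁ * e₀ := mul_nonneg hC₁ he₀
    have ex1 : (200 + 10 * C4h + 3 * C₁) * (e₀ + √((L : ℝ) - R) + √((h + 1 : ℝ) * R) + (h + 1)) =
        200 * (e₀ + √((L : ℝ) - R) + √((h + 1 : ℝ) * R) + (h + 1)) +
        10 * (C4h * e₀ + C4h * √((L : ℝ) - R) + C4h * √((h + 1 : ℝ) * R) + C4h * (h + 1)) +
        3 * (C₁ * e₀ + C₁ * √((L : ℝ) - R) + C₁ * √((h + 1 : ℝ) * R) + C₁ * (h + 1)) := by ring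
    have ex2 : C4h * (3 * √((h + 1 : ℝ) * R) + 7 * (h + 1)) =
        3 * (C4h * √((h + 1 : ℝ) * R)) + 7 * (C4h * (h + 1)) := by ring
    have ex3 : C₁ * (√((L : ℝ) - R) + 3 * (h + 1)) =
        C₁ * √((L : ℝ) - R) + 3 * (C₁ * (h + 1)) := by ring
    rw [ex2] at t5
    rw [ex3] at u3
    rw [ex1]
    linarith
  · intro e e' he he' hz
    have g1 := Prod.ext_iff.1 hz
    have gX : (fun i : Fin 3 => F.X J e.1.1.1 (c i)) = fun i : Fin 3 => F.X J e'.1.1.1 (c i) := g1.1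
    obtain ⟨g2, g3, -⟩ := hWf e e' he he' g1.2
    have hn : ∀ i : Fin 3, nat F c P z₀ g e.1.1.1 i = nat F c P z₀ g e'.1.1.1 i := by
      intro i
      unfold nat
      rw [ntc_eq H.tri g2 g3 fun j hj => congrFun gX ⟨j, lt_of_le_of_lt hj i.2⟩]
    have a0 : x e.1.1.1 0 = x e'.1.1.1 0 := by
      rw [H.x0 _ (hA e he), H.x0 _ (hA e' he')]
      exact hn _
    have a1 : x e.1.1.1 1 = x e'.1.1.1 1 := by
      rw [H.x1 _ (hA e he), H.x1 _ (hA e' he')]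
      exact hn _
    have a2 : x e.1.1.1 2 = x e'.1.1.1 2 := by
      rw [H.x2 _ (hA e he), H.x2 _ (hA e' he')]
      exact hn _
    change fl L ![x e.1.1.1 0, x e.1.1.1 1, x e.1.1.1 2] =
      fl L ![x e'.1.1.1 0, x e'.1.1.1 1, x e'.1.1.1 2]
    rw [a0, a1, a2]
  · have := dig H0 (le_refl L)
    linarith
  · have := dig H1 (le_refl L)
    linarith
  · have a1 := inpC hQ hw hw₁ hs H.cl0 H.cl1 H.pos (d := 0) (br := fun _ => (0 : Fin 1)) hE i0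
    rw [hK, hW]
    refine le_trans ?_ a1
    push_cast
    rw [Real.log_one]
    nlinarith
  · have a1 := pos_le (c := c) (P := P) (z₀ := z₀) (pr := fun e : C8 F.Ω => e.1.1.1) (k := 3)
      (D := g) hQ W H.tri (fun i hi => by
        have := H.dep ⟨i, hi⟩
        simp only at this
        omega) (fun e e' he he' hz => (hWf e e' he he' hz).1)
      (fun e e' he he' hz => (hWf e e' he he' hz).2.1)
      (fun e e' he he' hz i => (hWf e e' he he' hz).2.2 i)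
    refine a1.trans (le_of_eq ?_)
    rw [Finset.sum_add_distrib, ← Finset.sum_mul, Finset.sum_const, card_range, nsmul_eq_mul,
      Finset.sum_range]
    push_cast
    congr 2
    refine Finset.sum_congr rfl fun i _ => ?_
    rw [Nat.cast_sub (by have := H.dep i; omega)]

end Pool.MKC
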