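import Pool.Agent.H71.MKC.Cho
import Pool.Agent.H22.M.Stm
import Pool.Agent.H58.AFF.Hyp

/-!
# The five calls over `PlnM`

`Six`: all pairs of the six samples are good and the leaves are thin. `m1_five`: in a class where the
rows of the height are not full, with six good samples and thin leaves, all five determinants of
three leaves are small, outside a small mass.
-/

set_option autoImplicit false

namespace Pool.MKC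

open Finset Real MvPolynomial
open Pool.Agent.H49.Ent Pool.Agent.H32.Dense Pool.STK Pool.KA Pool.KSAT Pool.K2S Pool.PB
  Pool.STAT Pool.GEN Pool.M3F Pool.KM7 Pool.S6C Pool.JPR Pool.JPN
open Pool.R2M (mk4h tbh C4h tbh_le bas dt)
open Pool.PM (PlnM nx nt lfv)
open Pool.AFF (dtl)

variable {m J : ℕ} {F : Fam m J} {V₀ V₁ : Type}

/-- The leaf of the sample `i`, over the chart of `o`. -/
noncomputable def lfo (lf : V₁ → V₀ → Fin 2 → Fin 4 → ℝ) (z₀ : PtT F → V₀) (z₁ : PtT F → V₁) (e : C8 F.Ω)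
    (i : Fin 6) : Fin 2 → Fin 4 → ℝ := lf (z₁ (ptr F J (smp e i))) (z₀ (ptr F J e.1.1.1))

/-- **Six good samples with thin leaves.** -/
structure Six {Ω : Type} (E : Ω × Ω → Prop) (M : Ω × Ω → ℝ) (L R : ℕ) (e : C8 Ω) : Prop where
  oa : E e.1.1
  ob : E e.1.2
  ab : E (e.1.1.2, e.1.2.2)
  oa' : E e.2.1
  ob' : E e.2.2
  ab' : E (e.2.1.2, e.2.2.2)
  moa : M e.1.1 ≤ 2 ^ (L - R)
  mob : M e.1.2 ≤ 2 ^ (L - R)
  moa' : M e.2.1 ≤ 2 ^ (L - R)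
  mob' : M e.2.2 ≤ 2 ^ (L - R)

/-- The natural coordinates are functions of the point. -/
theorem nat_ptr {c : ℕ → Fin m} {P : V₀ → ℕ → PN} {z₀ : PtT F → V₀} {g : ℕ → ℕ} {ω ω' : F.Ω}
    (h : ptr F J ω' = ptr F J ω) (i : ℕ) :
    Pool.MKC.nat F c P z₀ g ω' i = Pool.MKC.nat F c P z₀ g ω i := by
  unfold Pool.MKC.nat ntc
  rw [h]

/-- Thin leaves. -/
theorem thin {Mv : ℝ} {L Ln R hh : ℕ} (hM : Mv ≤ 2 ^ (L - R)) (hR : R ≤ L) (hLn : R ≤ Ln)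
    (h1 : 1 ≤ hh) : 1 / 2 ^ Ln + Mv / 2 ^ L ≤ (2 : ℝ) ^ hh / 2 ^ R := by
  have p1 : (0 : ℝ) < 2 ^ R := by positivity
  have a1 : (1 : ℝ) / 2 ^ Ln ≤ 1 / 2 ^ R :=
    div_le_div_of_nonneg_left (by norm_num) p1 (pow_le_pow_right₀ (by norm_num) hLn)
  have a2 : Mv / 2 ^ L ≤ 1 / 2 ^ R := by
    rw [div_le_div_iff₀ (by positivity) p1, one_mul]
    calc Mv * 2 ^ R ≤ 2 ^ (L - R) * 2 ^ R := mul_le_mul_of_nonneg_right hM p1.le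
      _ = 2 ^ L := by rw [← pow_add]; congr 1; omega
  have a3 : (2 : ℝ) / 2 ^ R ≤ 2 ^ hh / 2 ^ R := by
    refine div_le_div_of_nonneg_right ?_ p1.le
    calc (2 : ℝ) = 2 ^ 1 := by norm_num
      _ ≤ 2 ^ hh := pow_le_pow_right₀ (by norm_num) h1
  have a4 : (2 : ℝ) / 2 ^ R = 1 / 2 ^ R + 1 / 2 ^ R := by ring
  linarith

section plm

variable {K n₀ : ℕ} {hK : 1 ≤ K} {A : F.Ω → Prop} {c : ℕ → Fin m}
  {w₀ w₁ h θ d L Ln sg Pn G : ℕ} {η : ℝ} {g : ℕ → ℕ} {P : V₀ → ℕ → PN}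
  {z₀ : PtT F → V₀} {z₀' : LnT F → V₀} {z₁ : PtT F → V₁} {z₁' : LnT F → V₁}
  {lf : V₁ → V₀ → Fin 2 → Fin 4 → ℝ} {br : F.Ω × F.Ω → Fin n₀}
  {a : F.Ω × F.Ω → (Fin 3 → Fin (K + 1)) → ℝ} {b : F.Ω → (Fin 3 → Fin (K + 1)) → ℝ}
  {χ : V₀ → Fin 3 → ℝ} {M : F.Ω × F.Ω → ℝ} {E : F.Ω × F.Ω → Prop}

/-- What `PlnM` says about the leaf of the sample `i` at the point of `o`. -/
theorem plm_leaf (H : PlnM hK F A c w₀ w₁ h θ d L Ln sg Pn G η g P z₀ z₀' z₁ z₁' lf br a b χ M E)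
    {R : ℕ} {e : C8 F.Ω} (hs : Spp F w₀ A e) (h6 : Six E M L R e) (i : Fin 6) (hi : i ≠ 3) :
    ∃ Mv : ℝ, Mv ≤ 2 ^ (L - R) ∧
      (∀ j l, |lfo lf z₀ z₁ e i j l| ≤ 2 ^ h) ∧
      |Pool.MKC.nat F c P z₀ g e.1.1.1 2 - lfv F c P z₀ g w₀ (lfo lf z₀ z₁ e i 0) e.1.1.1| ≤
        1 / 2 ^ L ∧
      |Pool.MKC.nat F c P z₀ g e.1.1.1 3 - lfv F c P z₀ g w₀ (lfo lf z₀ z₁ e i 1) e.1.1.1| ≤
        1 / 2 ^ Ln + Mv / 2 ^ L := by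
  have key : ∀ (ω : F.Ω), ptr F J ω = ptr F J e.1.1.1 → ∀ q : Fin 4 → ℝ,
      lfv F c P z₀ g w₀ q ω = lfv F c P z₀ g w₀ q e.1.1.1 := by
    intro ω hω q
    have hT : F.T ω = F.T e.1.1.1 := (Prod.ext_iff.1 (Prod.ext_iff.1 hω).2).1
    have e0 : nx F c P z₀ g ω 0 = nx F c P z₀ g e.1.1.1 0 := nat_ptr hω 0
    have e1 : nx F c P z₀ g ω 1 = nx F c P z₀ g e.1.1.1 1 := nat_ptr hω 1
    have e2 : nt F w₀ ω = nt F w₀ e.1.1.1 := by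
      unfold Pool.PM.nt Fam.t Fam.T1
      rw [hT]
    unfold Pool.PM.lfv
    rw [e0, e1, e2]
  fin_cases i
  · refine ⟨M e.1.1, h6.moa, fun j l => (H.siz _ h6.oa j l).1, H.own₀ _ h6.oa, H.own₁ _ h6.oa⟩
  · refine ⟨M e.1.1, h6.moa, fun j l => (H.siz _ h6.oa j l).2, H.onl₀ _ h6.oa, H.onl₁ _ h6.oa⟩
  · have e12 : e.1.2.1 = e.1.1.1 := hs.o12
    have a1 := fun j l => (H.siz _ h6.ob j l).2
    have a2 := H.onl₀ _ h6.ob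
    have a3 := H.onl₁ _ h6.ob
    rw [e12] at a1 a2 a3
    exact ⟨M e.1.2, h6.mob, a1, a2, a3⟩
  · exact absurd rfl hi
  · have hp : ptr F J e.2.1.1 = ptr F J e.1.1.1 := hs.pt
    have a1 := fun j l => (H.siz _ h6.oa' j l).2
    have a2 := H.onl₀ _ h6.oa'
    have a3 := H.onl₁ _ h6.oa'
    rw [key _ hp, hp] at a2 a3
    rw [hp] at a1
    have q2 : nx F c P z₀ g e.2.1.1 2 = nx F c P z₀ g e.1.1.1 2 := nat_ptr hp 2
    have q3 : nx F c P z₀ g e.2.1.1 3 = nx F c P z₀ g e.1.1.1 3 := nat_ptr hp 3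
    rw [q2] at a2
    rw [q3] at a3
    exact ⟨M e.2.1, h6.moa', a1, a2, a3⟩
  · have hp : ptr F J e.2.2.1 = ptr F J e.1.1.1 := by rw [hs.o22]; exact hs.pt
    have a1 := fun j l => (H.siz _ h6.ob' j l).2
    have a2 := H.onl₀ _ h6.ob'
    have a3 := H.onl₁ _ h6.ob'
    rw [key _ hp, hp] at a2 a3
    rw [hp] at a1
    have q2 : nx F c P z₀ g e.2.2.1 2 = nx F c P z₀ g e.1.1.1 2 := nat_ptr hp 2
    have q3 : nx F c P z₀ g e.2.2.1 3 = nx F c P z₀ g e.1.1.1 3 := nat_ptr hp 3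
    rw [q2] at a2
    rw [q3] at a3
    exact ⟨M e.2.2, h6.mob', a1, a2, a3⟩

/-- The slopes of the sheets of `v` of `a` and `b`, and of `a'` and `b'`, are separated. -/
theorem plm_gap (H : PlnM hK F A c w₀ w₁ h θ d L Ln sg Pn G η g P z₀ z₀' z₁ z₁' lf br a b χ M E)
    {R : ℕ} {e : C8 F.Ω} (hs : Spp F w₀ A e) (h6 : Six E M L R e) :
    1 / 2 ^ h ≤ |lfo lf z₀ z₁ e 2 0 3 - lfo lf z₀ z₁ e 1 0 3| ∧
      1 / 2 ^ h ≤ |lfo lf z₀ z₁ e 5 0 3 - lfo lf z₀ z₁ e 4 0 3| := by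
  have hz : ∀ i : Fin 6, z₀ (ptr F J (smp e i)) = z₀ (ptr F J e.1.1.1) := by
    intro i
    have a1 := lab_smp hs H.cls₀ i
    rw [← H.cls₀ _ (hs.mem i)] at a1
    exact a1.trans (H.cls₀ _ (hs.mem 0)).symm
  have b1 := H.fal _ h6.ab
  have b2 := H.fal _ h6.ab'
  have c1 : z₀ (ptr F J e.1.1.2) = z₀ (ptr F J e.1.1.1) := hz 1
  have c2 : z₀ (ptr F J e.2.1.2) = z₀ (ptr F J e.1.1.1) := hz 4
  dsimp only at b1 b2
  rw [c1, abs_sub_comm] at b1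
  rw [c2, abs_sub_comm] at b2
  exact ⟨b1, b2⟩

end plm


/-- Events on the support. -/
theorem Pe_sup {E : Type} [Fintype E] {p : E → ℝ} (hp : IsLaw p) {A B : E → Prop}
    (h : ∀ e, 0 < p e → A e → B e) : Pe p A ≤ Pe p B := by
  classical
  rw [K2S.Pe_eq, K2S.Pe_eq]
  refine Finset.sum_le_sum fun e _ => ?_
  rcases (hp.nonneg e).eq_or_lt with h0 | h0
  · rw [← h0]
    split_ifs <;> exact le_rfl
  · by_cases hA : A e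
    · rw [if_pos hA, if_pos (h e h0 hA)]
    · rw [if_neg hA]
      split_ifs
      · exact h0.le
      · exact le_rfl

/-- **(M1)** Over `PlnM`: if the rows of the height between `g 3` and `g 3 + R` are not full, then for
six good samples with thin leaves the five determinants are small, outside a small mass. -/
theorem m1_five : ∃ C : ℝ, 0 ≤ C ∧ ∀ {m : ℕ}, KP 3 → ∀ {S : PCl m} {w₀ w₁ : ℝ}, w₀ ≤ w₁ →
    w₁ ≤ 1 → Pool.GRW.TmWn S w₀ → ∀ {c : ℕ → Fin m} {b₀ : ℝ},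
    ExvY S w₁ (fun J F ω (i : Fin 3) => F.X J ω (c i)) b₀ →
    (∀ j, j ≠ c 3 → ∃ i : Fin 3, c i = j) → ∀ {r : ℝ → ℝ}, Pool.ALL.RateOf S (c 3) r →
    ∀ {κ : ℝ}, 0 < κ → κ ≤ 1 → ∀ {ρ : ℝ}, 0 < ρ →
    Bas S (fun J F A => 0 < Pe F.p A ∧
      ∀ {K n₀ : ℕ} {hK : 1 ≤ K} {h θ d L Ln sg Pn G : ℕ} {η : ℝ} {g : ℕ → ℕ} {V₀ V₁ : Type}
        {P : V₀ → ℕ → PN} {z₀ : PtT F → V₀} {z₀' : LnT F → V₀} {z₁ : PtT F → V₁}
        {z₁' : LnT F → V₁} {lf : V₁ → V₀ → Fin 2 → Fin 4 → ℝ} {br : F.Ω × F.Ω → Fin n₀}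
        {a : F.Ω × F.Ω → (Fin 3 → Fin (K + 1)) → ℝ} {b : F.Ω → (Fin 3 → Fin (K + 1)) → ℝ}
        {χ : V₀ → Fin 3 → ℝ} {M : F.Ω × F.Ω → ℝ} {E : F.Ω × F.Ω → Prop},
        PlnM hK F A c ⌊w₀ * J⌋₊ ⌊w₁ * J⌋₊ h θ d L Ln sg Pn G η g P z₀ z₀' z₁ z₁' lf br a b χ M E →
        ∀ {R hh : ℕ}, R ≤ L → R ≤ Ln → 1 ≤ hh → h ≤ hh → (∀ i < 3, g i + L ≤ J) →
        g 3 + R ≤ J → g 3 + R + 1 ≤ J + hh →
        (∑ i : Fin 3, ((J : ℝ) - g i)) - L ≤ (b₀ + ρ) * J →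
        (r (((g 3 + R : ℕ) : ℝ) / J) - r ((g 3 : ℝ) / J)) * Real.log 2 * J +
          C * (ρ * J + √((L : ℝ) - R) + √((hh + 1 : ℝ) * R) + (hh + 1)) < R * Real.log 2 →
        Pe (PC (Pool.Agent.H49.Ent.cond F.p A True) (slam F ⌊w₀ * J⌋₊) (ptr F J))
          (fun e => Six E M L R e ∧ ∃ q, 1 / 2 ^ hh ≤
            |dtl (lfo lf z₀ z₁ e 1 0) (lfo lf z₀ z₁ e 1 1) (lfo lf z₀ z₁ e 2 0)
              (lfo lf z₀ z₁ e 2 1) (lfo lf z₀ z₁ e (cll q).1 0) (lfo lf z₀ z₁ e (cll q).1 1)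
              (Fin.natAdd 2 (cll q).2)|) < 5 * κ) := by
  obtain ⟨C, hC, key⟩ := mk_five
  refine ⟨C, hC, ?_⟩
  intro m hKP S w₀ w₁ hw hw1 htm c b₀ hex hN r hr κ hκ hκ1 ρ hρ
  refine (key hKP hw hw1 htm hex hN hr hκ hκ1 hρ).mono 0 ?_
  rintro J - F A ⟨hA, hmain⟩
  refine ⟨hA, ?_⟩
  intro K n₀ hK h θ d L Ln sg Pn G η g V₀ V₁ P z₀ z₀' z₁ z₁' lf br a b χ M E H R hh hRL hRLn hh1
    hhh hgL hg3 hg3' hb hnum
  have hl := isLaw_cond F.isLaw hA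
  have hP := PC_isLaw hl (slam F ⌊w₀ * J⌋₊) (ptr F J)
  have p2 : (2 : ℝ) ^ h ≤ 2 ^ hh := pow_le_pow_right₀ (by norm_num) hhh
  -- the chart and the leaves
  have hCht := cht_of (sg := sg) (L := L) (R := R) (h := hh) H.tri H.cls₀ H.cls₁ H.pos hgL hRL hg3'
  obtain ⟨Gd, hGd⟩ : ∃ Gd : C8 F.Ω → Prop, Gd = fun e => Spp F ⌊w₀ * J⌋₊ A e ∧ Six E M L R e :=
    ⟨_, rfl⟩
  obtain ⟨nt', hnt'⟩ : ∃ nt' : ℕ → ℝ, nt' = fun T : ℕ =>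
    (2 : ℝ) ^ ⌊w₀ * (J : ℝ)⌋₊ * ((T : ℝ) / 2 ^ J) - ((T / 2 ^ (J - ⌊w₀ * (J : ℝ)⌋₊) : ℕ) : ℝ) :=
    ⟨_, rfl⟩
  have hlab : ∀ e, Gd e → ∀ i : Fin 6, lf (z₁' (slam F ⌊w₁ * J⌋₊ (smp e i)))
      (z₀' (slam F ⌊w₀ * J⌋₊ e.1.1.1)) = lfo lf z₀ z₁ e i := by
    intro e he i
    rw [hGd] at he
    unfold lfo
    rw [H.cls₁ _ (he.1.mem i)]
    have : z₀ (ptr F J e.1.1.1) = z₀' (slam F ⌊w₀ * J⌋₊ e.1.1.1) := H.cls₀ _ (he.1.mem 0)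
    rw [this]
  have hlev : ∀ (e : C8 F.Ω) (q : Fin 4 → ℝ), lev q (nt' (F.T e.1.1.1))
      (Pool.MKC.nat F c P z₀ g e.1.1.1 0) (Pool.MKC.nat F c P z₀ g e.1.1.1 1) =
      lfv F c P z₀ g ⌊w₀ * J⌋₊ q e.1.1.1 := by
    intro e q
    rw [hnt']
    rfl
  have hLef : ∀ i, i ≠ 3 → Lef F c L R hh ⌊w₀ * J⌋₊ ⌊w₁ * J⌋₊ P z₀ z₀' z₁' g
      (fun ω i => Pool.MKC.nat F c P z₀ g ω i) Gd i
      (fun e => slo (lf (z₁' (slam F ⌊w₁ * J⌋₊ (smp e i))) (z₀' (slam F ⌊w₀ * J⌋₊ e.1.1.1))))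
      (fun e j => lf (z₁' (slam F ⌊w₁ * J⌋₊ (smp e i))) (z₀' (slam F ⌊w₀ * J⌋₊ e.1.1.1)) j 0 +
        lf (z₁' (slam F ⌊w₁ * J⌋₊ (smp e i))) (z₀' (slam F ⌊w₀ * J⌋₊ e.1.1.1)) j 1 *
          nt' (F.T e.1.1.1)) := by
    intro i hi
    refine lef_of lf nt' ?_ ?_ ?_
    · intro e he j l
      rw [hlab e he i]
      rw [hGd] at he
      obtain ⟨Mv, -, a1, -, -⟩ := plm_leaf H he.1 he.2 i hi
      exact (a1 j l).trans p2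
    · intro e he
      rw [hlab e he i]
      rw [hGd] at he
      obtain ⟨Mv, -, -, a1, -⟩ := plm_leaf H he.1 he.2 i hi
      have a2 := hlev e (lfo lf z₀ z₁ e i 0)
      refine le_trans (le_of_eq ?_) (a1.trans ?_)
      · rw [← a2]
        rfl
      · exact div_le_div_of_nonneg_right (one_le_pow₀ (by norm_num)) (by positivity)
    · intro e he
      rw [hlab e he i]
      rw [hGd] at he
      obtain ⟨Mv, m1, -, -, a1⟩ := plm_leaf H he.1 he.2 i hi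
      have a2 := hlev e (lfo lf z₀ z₁ e i 1)
      refine le_trans (le_of_eq ?_) (a1.trans (thin m1 hRL hRLn hh1))
      rw [← a2]
      rfl
  have m1 := hmain hCht hLef hb (Nat.le_add_right _ _) (by omega) (by
    have e1 : sg + g 3 + R - sg = g 3 + R := by omega
    have e2 : sg + g 3 - sg = g 3 := by omega
    rw [e1, e2]
    exact hnum)
  refine lt_of_le_of_lt (Pe_sup hP ?_) m1
  intro e he hev
  obtain ⟨h6, q, hq⟩ := hev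
  have hs := spp hA he
  have hG : Gd e := by
    rw [hGd]
    exact ⟨hs, h6⟩
  obtain ⟨g1, -⟩ := plm_gap H hs h6
  refine ⟨hG, ?_, q, ?_⟩
  · have a1 : (1 : ℝ) / 2 ^ hh ≤ 1 / 2 ^ h :=
      div_le_div_of_nonneg_left (by norm_num) (by positivity) p2
    refine (a1.trans g1).trans (le_of_eq ?_)
    rw [hlab e hG 1, hlab e hG 2]
    rfl
  · refine hq.trans (le_of_eq ?_)
    rw [hlab e hG 1, hlab e hG 2, hlab e hG (cll q).1]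
    generalize (cll q).2 = b3
    fin_cases b3 <;> rfl


/-- The mass of the six good samples with thin leaves. -/
theorem six_mass {Ω : Type} [Fintype Ω] {GT PT : Type} {p : Ω → ℝ} (hp : IsLaw p) (g : Ω → GT)
    (pt : Ω → PT) {E : Ω × Ω → Prop} {M : Ω × Ω → ℝ} {L R : ℕ} {η : ℝ}
    (hE : 1 - η ≤ Pe (P2 p g) (fun e => E e ∧ M e ≤ 2 ^ (L - R))) :
    1 - 6 * η ≤ Pe (PC p g pt) (Six E M L R) := by
  refine (six_good hp g pt (fun e => E e ∧ M e ≤ 2 ^ (L - R)) hE).trans ?_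
  refine Pe_sup (PC_isLaw hp g pt) fun e _ h => ?_
  obtain ⟨⟨⟨h1, m1⟩, ⟨h2, m2⟩, h3, -⟩, ⟨h4, m4⟩, ⟨h5, m5⟩, h6, -⟩ := h
  exact ⟨h1, h2, h3, h4, h5, h6, m1, m2, m4, m5⟩

end Pool.MKC
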