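import Pool.Agent.H22.M.Out
import Pool.Agent.H93.GEN.TopW

/-!
# The last rows: from the rows of one falling level and the assembly of plan M

`TopIn C P r v c pa W`: what the assembly gives at two windows of a class: the number of nonfull rows
between the affine threshold `pa w₀` of the height and a row `P1` is small compared with
`1 - pa w₀`. `r1m_of_asm`: together with the statement for one falling level (`R1D`) this gives the
statement on the last rows (`R1M`).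
-/

set_option autoImplicit false

namespace Pool.MKC

open Finset Real Pool.STR
open Pool.PM (nfr)

/-- **The output of the assembly**, for windows at which the last row is reached. `C`: the constant
of the assembly; `Cp`: the constant of the class; `y`: the length of the window together with the
calm falls; `mv`: the fall of the falling level. -/
def TopIn (C : ℕ) (P : ℝ → ℝ → ℝ) (r v c pa : ℝ → ℝ) (W : Set ℝ) : Prop :=
  ∀ ε : ℝ, 0 < ε → ε ≤ 1 → ∃ (δ B Cp a : ℝ), 0 < δ ∧ 1 ≤ B ∧ 2 ≤ Cp ∧ 1 ≤ a ∧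
    ∀ w₀ ∈ W, ∀ w₁ ∈ W, 0 < w₀ → w₀ < w₁ → w₁ ≤ 1 → P w₁ w₁ = 1 →
    (w₁ - w₀) + (c w₁ - c w₀) ≤ δ * (1 - P w₀ w₀) →
    (w₁ - w₀) + (c w₁ - c w₀) ≤ δ * (v w₁ - v w₀) →
    ∀ P1 cD : ℝ, P w₀ w₀ < P1 → P1 < 1 → cD = ε / 4 * (1 - P w₀ w₀) → 0 < cD →
    cD ≤ nfr r P1 1 → ∃ y mv cc : ℝ, 0 ≤ y ∧ y ≤ a * ((w₁ - w₀) + (c w₁ - c w₀)) ∧
      v w₁ - v w₀ - a * ((w₁ - w₀) + (c w₁ - c w₀)) ≤ mv ∧ cD / a ≤ cc ∧
      ∀ s θ : ℝ, 0 < s → 16 * (C + 1) * (Cp + 5) * s ≤ θ → Cp * y ≤ s → Cp * (s + θ) ≤ mv →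
        Cp * (s + θ) ≤ cc → nfr r (pa w₀) P1 ≤ B * (θ + √(θ * (P1 - pa w₀)))

/-- The row with a given measure of nonfull rows above it. -/
theorem nfr_row {r : ℝ → ℝ} (hl : LipschitzWith 1 r) {u v t : ℝ} (h : u ≤ v) (ht : 0 ≤ t)
    (ht' : t ≤ nfr r u v) : ∃ w, u ≤ w ∧ w ≤ v ∧ nfr r w v = t := by
  have hc : ContinuousOn (fun w => nfr r w v) (Set.Icc u v) := by
    refine Continuous.continuousOn ?_
    have h1 := hl.continuous
    unfold nfr
    fun_prop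
  have h2 := intermediate_value_Icc' h hc
  have h3 : t ∈ Set.Icc (nfr r v v) (nfr r u v) := by
    refine ⟨?_, ht'⟩
    have : nfr r v v = 0 := by
      unfold nfr
      ring
    rw [this]
    exact ht
  obtain ⟨w, hw, h4⟩ := h2 h3
  exact ⟨w, hw.1, hw.2, h4⟩

/-- **The last rows.** -/
theorem r1m_of_asm {C : ℕ} {P : ℝ → ℝ → ℝ} {r v c pa : ℝ → ℝ} {W : Set ℝ}
    (hl : LipschitzWith 1 r) (hc : Monotone c)
    (hpa0 : ∀ w, 0 < w → w ≤ 1 → 0 ≤ pa w) (hpa1 : ∀ w, 0 < w → w ≤ 1 → pa w ≤ P w w)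
    (hD : R1D P r v W) (hT : TopIn C P r v c pa W)
    (hP1 : ∀ w, 0 < w → w ≤ 1 → P w w ≤ 1) : R1M P r c W := by
  intro ε hε
  obtain ⟨e, he⟩ : ∃ e : ℝ, e = min ε 1 := ⟨_, rfl⟩
  have e0 : 0 < e := by rw [he]; exact lt_min hε one_pos
  have e1 : e ≤ 1 := by rw [he]; exact min_le_right _ _
  have e2 : e ≤ ε := by rw [he]; exact min_le_left _ _
  obtain ⟨δD, hδD, hD⟩ := hD e e0
  obtain ⟨δ₂, B, Cp, a, hδ₂, hB, hCp, ha, hT⟩ := hT e e0 e1
  have hC0 : (0 : ℝ) ≤ C := Nat.cast_nonneg C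
  -- the constants
  obtain ⟨S₀, hS₀⟩ : ∃ S₀ : ℝ, S₀ = 16 * (C + 1) * (Cp + 5) := ⟨_, rfl⟩
  have hS1 : 1 ≤ S₀ := by
    rw [hS₀]
    nlinarith
  obtain ⟨c₁, hc₁⟩ : ∃ c₁ : ℝ, c₁ = min ((e / (4 * B)) ^ 2) (min (δD / (8 * Cp))
    (min (e / (8 * (Cp * a))) 1)) := ⟨_, rfl⟩
  have c0 : 0 < c₁ := by rw [hc₁]; positivity
  have c2 : c₁ ≤ (e / (4 * B)) ^ 2 := by rw [hc₁]; exact min_le_left _ _
  have c3 : c₁ ≤ δD / (8 * Cp) := by
    rw [hc₁]
    exact (min_le_right _ _).trans (min_le_left _ _)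
  have c4 : c₁ ≤ e / (8 * (Cp * a)) := by
    rw [hc₁]
    exact (min_le_right _ _).trans ((min_le_right _ _).trans (min_le_left _ _))
  have c5 : c₁ ≤ 1 := by
    rw [hc₁]
    exact (min_le_right _ _).trans ((min_le_right _ _).trans (min_le_right _ _))
  rw [le_div_iff₀ (by positivity)] at c3 c4
  obtain ⟨δ, hδ⟩ : ∃ δ : ℝ, δ = min (δD / (4 * a)) (min δ₂ (min (δ₂ * (δD / 2))
    (c₁ / (S₀ * (Cp * a))))) := ⟨_, rfl⟩
  have d0 : 0 < δ := by rw [hδ]; positivity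
  have d1 : δ ≤ δD / (4 * a) := by rw [hδ]; exact min_le_left _ _
  have d2 : δ ≤ δ₂ := by
    rw [hδ]
    exact (min_le_right _ _).trans (min_le_left _ _)
  have d3 : δ ≤ δ₂ * (δD / 2) := by
    rw [hδ]
    exact (min_le_right _ _).trans ((min_le_right _ _).trans (min_le_left _ _))
  have d4 : δ ≤ c₁ / (S₀ * (Cp * a)) := by
    rw [hδ]
    exact (min_le_right _ _).trans ((min_le_right _ _).trans (min_le_right _ _))
  rw [le_div_iff₀ (by positivity)] at d1 d4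
  refine ⟨δ, d0, ?_⟩
  intro w₀ b0 w₁ b1 a0 a1 a2 h1 hY
  obtain ⟨x, hx⟩ : ∃ x : ℝ, x = 1 - P w₀ w₀ := ⟨_, rfl⟩
  obtain ⟨Y, hYd⟩ : ∃ Y : ℝ, Y = (w₁ - w₀) + (c w₁ - c w₀) := ⟨_, rfl⟩
  have hx0 : 0 ≤ x := by
    have := hP1 w₀ a0 (by linarith)
    rw [hx]
    linarith
  have hcm := hc a1.le
  have hY0 : 0 ≤ Y := by rw [hYd]; linarith
  have p0 := hpa0 w₀ a0 (by linarith)
  have p1 := hpa1 w₀ a0 (by linarith)
  rw [← hx, ← hYd] at hY
  rw [← hx]
  have hfin : ∀ m : ℝ, 0 ≤ m → nfr r (1 - m) 1 ≤ e * m → (1 - ε) * m ≤ r 1 - r (1 - m) := by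
    intro m hm h
    unfold nfr at h
    have : e * m ≤ ε * m := mul_le_mul_of_nonneg_right e2 hm
    linarith
  -- the number of rows is large compared with the falls
  rcases le_or_gt ((w₁ - w₀) + (v w₁ - v w₀)) (δD * x) with hcase | hcase
  · refine ⟨x, le_rfl, ?_, ?_⟩
    · rw [hx]
      linarith
    · have h2 := hD w₀ b0 w₁ b1 a0 a1 a2 (by rw [h1, ← hx]; exact hcase)
      rw [h1, ← hx] at h2
      have h3 : 1 - x = P w₀ w₀ := by rw [hx]; ring
      rw [h3]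
      have : (1 - ε) * x ≤ (1 - e) * x := mul_le_mul_of_nonneg_right (by linarith) hx0
      linarith
  -- the rows above `P w₀ w₀` are full
  rcases le_or_gt (nfr r (1 - x) 1) (e * x) with hnf | hnf
  · exact ⟨x, le_rfl, by rw [hx]; linarith, hfin x hx0 hnf⟩
  have hxp : 0 < x := by
    rcases hx0.eq_or_lt with h | h
    · exfalso
      rw [← h] at hnf
      unfold nfr at hnf
      simp at hnf
    · exact h
  have hP00 : 1 - x = P w₀ w₀ := by rw [hx]; ring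
  obtain ⟨P1, q1, q2, q3⟩ := nfr_row (r := r) hl (show 1 - x ≤ 1 by linarith)
    (show 0 ≤ e / 4 * x by positivity) (show e / 4 * x ≤ nfr r (1 - x) 1 by
      have : 0 < e * x := by positivity
      linarith)
  have hex : 0 < e * x := by positivity
  have q4 : 1 - x < P1 := by
    rcases q1.eq_or_lt with h | h
    · exfalso
      rw [← h] at q3
      linarith
    · exact h
  have q5 : P1 < 1 := by
    rcases q2.eq_or_lt with h | h
    · exfalso
      rw [h] at q3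
      unfold nfr at q3
      linarith
    · exact h
  have hδa : δ * a * 4 ≤ δD := by linarith
  have hδD : δ ≤ δD / 4 := by nlinarith
  have hwY : w₁ - w₀ ≤ Y := by rw [hYd]; linarith
  have hdx : δ * x ≤ δD / 4 * x := mul_le_mul_of_nonneg_right hδD hx0
  have hV : δD / 2 * x ≤ v w₁ - v w₀ := by
    have : 0 ≤ δD * x := by positivity
    linarith
  obtain ⟨y, mv, cc, y0, y1, y2, y3, h2⟩ := hT w₀ b0 w₁ b1 a0 a1 a2 h1 (by
      rw [← hYd, ← hx]
      exact hY.trans (mul_le_mul_of_nonneg_right d2 hx0)) (by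
      rw [← hYd]
      refine hY.trans ?_
      calc δ * x ≤ δ₂ * (δD / 2) * x := mul_le_mul_of_nonneg_right d3 hx0
        _ = δ₂ * (δD / 2 * x) := by ring
        _ ≤ δ₂ * (v w₁ - v w₀) := mul_le_mul_of_nonneg_left hV hδ₂.le) P1 (e / 4 * x)
    (by rw [← hP00]; exact q4) q5 (by rw [hx]) (by positivity) q3.ge
  rw [← hYd] at y1 y2
  have ha0 : 0 < a := by linarith
  have hCp0 : 0 < Cp := by linarith
  have hS0 : 0 < S₀ := by linarith
  have haY : a * Y ≤ a * (δ * x) := mul_le_mul_of_nonneg_left hY ha0.le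
  have hc1x : 0 < c₁ * x := by positivity
  have z1 : Cp * y ≤ c₁ * x / S₀ := by
    rw [le_div_iff₀ hS0]
    have z2 : Cp * y ≤ Cp * (a * (δ * x)) := mul_le_mul_of_nonneg_left (y1.trans haY) hCp0.le
    have z3 : Cp * y * S₀ ≤ Cp * (a * (δ * x)) * S₀ := mul_le_mul_of_nonneg_right z2 hS0.le
    have z4 : Cp * (a * (δ * x)) * S₀ = δ * (S₀ * (Cp * a)) * x := by ring
    have z5 : δ * (S₀ * (Cp * a)) * x ≤ c₁ * x := mul_le_mul_of_nonneg_right d4 hx0
    linarith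
  have z6 : c₁ * x / S₀ ≤ c₁ * x := div_le_self hc1x.le hS1
  have z7 : Cp * (c₁ * x / S₀ + c₁ * x) ≤ 2 * (Cp * (c₁ * x)) := by
    have := mul_le_mul_of_nonneg_left z6 hCp0.le
    linarith
  have z8 : 2 * (Cp * (c₁ * x)) ≤ δD / 4 * x := by
    have := mul_le_mul_of_nonneg_right c3 hx0
    linarith
  have z9 : 2 * (Cp * (c₁ * x)) ≤ e / 4 * x / a := by
    rw [le_div_iff₀ ha0]
    have := mul_le_mul_of_nonneg_right c4 hx0
    linarith
  have h3 := h2 (c₁ * x / S₀) (c₁ * x) (by positivity) (by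
      rw [← hS₀, mul_div_cancel₀ _ hS0.ne']) z1 (by
      have : a * (δ * x) ≤ δD / 4 * x := by
        have := mul_le_mul_of_nonneg_right hδa hx0
        linarith
      linarith) (by linarith)
  obtain ⟨M, hM⟩ : ∃ M : ℝ, M = 1 - pa w₀ := ⟨_, rfl⟩
  have hxM : x ≤ M := by rw [hx, hM]; linarith
  have hM0 : 0 < M := by linarith
  have hpa : pa w₀ = 1 - M := by rw [hM]; ring
  refine ⟨M, hxM, by rw [hM]; linarith, hfin M hM0.le ?_⟩
  rw [hpa] at h3
  have t1 : √(c₁ * x * (P1 - (1 - M))) ≤ e / (4 * B) * M := by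
    refine Real.sqrt_le_iff.2 ⟨by positivity, ?_⟩
    have t2 : c₁ * x * (P1 - (1 - M)) ≤ (e / (4 * B)) ^ 2 * (M * M) := by
      have t3 : x * (P1 - (1 - M)) ≤ M * M :=
        mul_le_mul hxM (by linarith) (by linarith) hM0.le
      have t4 : 0 ≤ x * (P1 - (1 - M)) := mul_nonneg hx0 (by linarith)
      calc c₁ * x * (P1 - (1 - M)) = c₁ * (x * (P1 - (1 - M))) := by ring
        _ ≤ (e / (4 * B)) ^ 2 * (M * M) := mul_le_mul c2 t3 t4 (by positivity)
    calc c₁ * x * (P1 - (1 - M)) ≤ (e / (4 * B)) ^ 2 * (M * M) := t2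
      _ = (e / (4 * B) * M) ^ 2 := by ring
  have t5 : c₁ * x ≤ e / (4 * B) * M := by
    have t6 : e / (4 * B) ≤ 1 := by
      rw [div_le_one (by positivity)]
      linarith
    have t7 : c₁ ≤ e / (4 * B) := by
      have t8 : 0 ≤ e / (4 * B) := by positivity
      nlinarith
    exact mul_le_mul t7 hxM hx0 (by positivity)
  have t9 : B * (c₁ * x + √(c₁ * x * (P1 - (1 - M)))) ≤ e / 2 * M := by
    have u1 : B * (c₁ * x + √(c₁ * x * (P1 - (1 - M)))) ≤ B * (2 * (e / (4 * B) * M)) :=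
      mul_le_mul_of_nonneg_left (by linarith) (by linarith)
    have u2 : B * (2 * (e / (4 * B) * M)) = e / 2 * M := by
      field_simp
      ring
    linarith
  have u3 : nfr r (1 - M) 1 = nfr r (1 - M) P1 + nfr r P1 1 := by
    unfold nfr
    ring
  rw [u3, q3]
  have u4 : e / 4 * x ≤ e / 4 * M := mul_le_mul_of_nonneg_left hxM (by positivity)
  have u5 : 0 < e * M := by positivity
  linarith

end Pool.MKC
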